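import Mathlib

/-!
Linear algebra of a Lie algebra with a complex structure and a compatible metric: the type
decomposition of the bracket is encoded by two complex bilinear maps `P` and `c`.
-/

set_option autoImplicit false

open Module
open scoped ComplexConjugate InnerProductSpace

noncomputable section

namespace Pool.Agent.K1H64.LH

variable {V : Type*} [NormedAddCommGroup V] [InnerProductSpace ℂ V] [FiniteDimensional ℂ V]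

/-- the adjoint of `P x` -/
def adj (P : V →ₗ[ℂ] V →ₗ[ℂ] V) (x : V) : V →ₗ[ℂ] V := LinearMap.adjoint (P x)

lemma adj_add (P : V →ₗ[ℂ] V →ₗ[ℂ] V) (x y : V) : adj P (x + y) = adj P x + adj P y := by
  simp [adj]

lemma adj_smul (P : V →ₗ[ℂ] V →ₗ[ℂ] V) (a : ℂ) (x : V) :
    adj P (a • x) = (conj a) • adj P x := by
  rw [adj, map_smul, map_smulₛₗ]
  rfl

lemma adj_zero (P : V →ₗ[ℂ] V →ₗ[ℂ] V) : adj P 0 = 0 := by
  simp [adj]

lemma adj_neg (P : V →ₗ[ℂ] V →ₗ[ℂ] V) (x : V) : adj P (-x) = - adj P x := by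
  simp [adj]

lemma adj_sub (P : V →ₗ[ℂ] V →ₗ[ℂ] V) (x y : V) : adj P (x - y) = adj P x - adj P y := by
  simp [adj]

lemma adj_sum (P : V →ₗ[ℂ] V →ₗ[ℂ] V) {ι : Type*} (s : Finset ι) (f : ι → V) :
    adj P (∑ i ∈ s, f i) = ∑ i ∈ s, adj P (f i) := by
  simp [adj]

lemma inner_adj_left (P : V →ₗ[ℂ] V →ₗ[ℂ] V) (x y z : V) :
    ⟪adj P x y, z⟫_ℂ = ⟪y, P x z⟫_ℂ := LinearMap.adjoint_inner_left _ _ _

lemma inner_adj_right (P : V →ₗ[ℂ] V →ₗ[ℂ] V) (x y z : V) :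
    ⟪x, adj P y z⟫_ℂ = ⟪P y x, z⟫_ℂ := LinearMap.adjoint_inner_right _ _ _

lemma trace_adj (P : V →ₗ[ℂ] V →ₗ[ℂ] V) (x : V) :
    LinearMap.trace ℂ V (adj P x) = conj (LinearMap.trace ℂ V (P x)) := by
  rw [LinearMap.trace_eq_sum_inner _ (stdOrthonormalBasis ℂ V),
    LinearMap.trace_eq_sum_inner _ (stdOrthonormalBasis ℂ V), map_sum]
  refine Finset.sum_congr rfl fun i _ => ?_
  rw [inner_adj_right, inner_conj_symm]

omit [FiniteDimensional ℂ V] in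
lemma inner_self_sq (x : V) : ⟪x, x⟫_ℂ = ((‖x‖ ^ 2 : ℝ) : ℂ) := by
  rw [inner_self_eq_norm_sq_to_K]
  push_cast
  rfl

/-- the algebra behind a Lie algebra with complex structure and metric -/
structure Alg (P c : V →ₗ[ℂ] V →ₗ[ℂ] V) : Prop where
  alt : ∀ x, c x x = 0
  jac : ∀ x y z, c x (c y z) = c (c x y) z + c y (c x z)
  rep : ∀ x y z, P (c x y) z = P x (P y z) - P y (P x z)
  mix : ∀ x y z, adj P z (c x y) = c x (adj P z y) + c (adj P z x) y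
    - adj P (adj P y z) x + adj P (adj P x z) y
  uni : ∀ x, LinearMap.trace ℂ V (c x) = LinearMap.trace ℂ V (P x)
  ric : ∀ x y, LinearMap.trace ℂ V (P (adj P y x))
    + conj (LinearMap.trace ℂ V (P (adj P x y))) = 0

/-- one half of the curvature -/
def RR (P : V →ₗ[ℂ] V →ₗ[ℂ] V) (x y z : V) : V :=
  - P x (adj P y z) + adj P y (P x z) - P (adj P y x) z - adj P (adj P x y) z

/-- the curvature as a function of four vectors -/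
def QQ (P : V →ₗ[ℂ] V →ₗ[ℂ] V) (x y z w : V) : ℂ := ⟪w, RR P x y z⟫_ℂ

lemma QQ_eq (P : V →ₗ[ℂ] V →ₗ[ℂ] V) (x y z w : V) :
    QQ P x y z w = - ⟪adj P x w, adj P y z⟫_ℂ + ⟪P y w, P x z⟫_ℂ
      - ⟪w, P (adj P y x) z⟫_ℂ - ⟪P (adj P x y) w, z⟫_ℂ := by
  rw [QQ, RR, inner_sub_right, inner_sub_right, inner_add_right, inner_neg_right, inner_adj_left,
    inner_adj_right P w y, inner_adj_right]

section sums

variable {ι : Type*} [Fintype ι] (e : OrthonormalBasis ι ℂ V)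

lemma T1 {P c : V →ₗ[ℂ] V →ₗ[ℂ] V} (h : Alg P c) (x z : V) :
    ∑ k, ⟪e k, adj P (adj P (e k) z) x⟫_ℂ = 0 := by
  have h1 : ∀ k, ⟪e k, adj P z (c x (e k))⟫_ℂ = ⟪e k, c x (adj P z (e k))⟫_ℂ
      + ⟪e k, c (adj P z x) (e k)⟫_ℂ - ⟪e k, adj P (adj P (e k) z) x⟫_ℂ
      + ⟪e k, adj P (adj P x z) (e k)⟫_ℂ := by
    intro k
    rw [h.mix, inner_add_right, inner_sub_right, inner_add_right]
  have h2 : ∑ k, ⟪e k, adj P z (c x (e k))⟫_ℂ = ∑ k, ⟪e k, c x (adj P z (e k))⟫_ℂ := by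
    have a1 := LinearMap.trace_eq_sum_inner (adj P z ∘ₗ c x) e
    have a2 := LinearMap.trace_eq_sum_inner (c x ∘ₗ adj P z) e
    have a3 : LinearMap.trace ℂ V (adj P z ∘ₗ c x) = LinearMap.trace ℂ V (c x ∘ₗ adj P z) :=
      LinearMap.trace_mul_comm ℂ (adj P z) (c x)
    rw [a1, a2] at a3
    exact a3
  have h3 := LinearMap.trace_eq_sum_inner (c (adj P z x)) e
  have h4 := LinearMap.trace_eq_sum_inner (adj P (adj P x z)) e
  rw [trace_adj] at h4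
  rw [h.uni] at h3
  have h5 := h.ric x z
  rw [h3, h4] at h5
  have h6 : ∑ k, ⟪e k, adj P z (c x (e k))⟫_ℂ = ∑ k, (⟪e k, c x (adj P z (e k))⟫_ℂ
      + ⟪e k, c (adj P z x) (e k)⟫_ℂ - ⟪e k, adj P (adj P (e k) z) x⟫_ℂ
      + ⟪e k, adj P (adj P x z) (e k)⟫_ℂ) := Finset.sum_congr rfl fun k _ => h1 k
  rw [Finset.sum_add_distrib, Finset.sum_sub_distrib, Finset.sum_add_distrib, h2] at h6
  linear_combination h6 + h5

lemma T1' {P c : V →ₗ[ℂ] V →ₗ[ℂ] V} (h : Alg P c) (x z : V) :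
    ∑ k, ⟪P (adj P (e k) z) (e k), x⟫_ℂ = 0 := by
  rw [← T1 e h x z]
  exact Finset.sum_congr rfl fun k _ => (inner_adj_right _ _ _ _).symm

lemma P_adj (P : V →ₗ[ℂ] V →ₗ[ℂ] V) (x y z : V) :
    P (adj P x y) z = ∑ m, ⟪P x (e m), y⟫_ℂ • P (e m) z := by
  conv_lhs => rw [← e.sum_repr' (adj P x y)]
  simp only [map_sum, map_smul, LinearMap.sum_apply, LinearMap.smul_apply, inner_adj_right]

/-- `∑ k, ⟨P (A_x e_k) w, e_k⟩ = ∑ k, ⟨P_k w, P_x e_k⟩` -/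
lemma sum_P_adj_inner (P : V →ₗ[ℂ] V →ₗ[ℂ] V) (x w : V) :
    ∑ k, ⟪P (adj P x (e k)) w, e k⟫_ℂ = ∑ k, ⟪P (e k) w, P x (e k)⟫_ℂ := by
  have h1 : ∀ k, ⟪P (adj P x (e k)) w, e k⟫_ℂ
      = ∑ m, ⟪P (e m) w, e k⟫_ℂ * ⟪e k, P x (e m)⟫_ℂ := by
    intro k
    rw [P_adj e, sum_inner]
    refine Finset.sum_congr rfl fun m _ => ?_
    rw [inner_smul_left, inner_conj_symm, mul_comm]
  rw [Finset.sum_congr rfl fun k _ => h1 k, Finset.sum_comm]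
  refine Finset.sum_congr rfl fun m _ => ?_
  exact e.sum_inner_mul_inner _ _

/-- `∑ k l, ⟨e_k, P (A_l e_k) e_l⟩ = ∑ k l, ⟨P_l e_k, P_k e_l⟩` -/
lemma sum_sum_P_adj (P : V →ₗ[ℂ] V →ₗ[ℂ] V) :
    ∑ k, ∑ l, ⟪e k, P (adj P (e l) (e k)) (e l)⟫_ℂ = ∑ k, ∑ l, ⟪P (e l) (e k), P (e k) (e l)⟫_ℂ := by
  have h1 : ∀ k l, ⟪e k, P (adj P (e l) (e k)) (e l)⟫_ℂ
      = ∑ m, ⟪P (e l) (e m), e k⟫_ℂ * ⟪e k, P (e m) (e l)⟫_ℂ := by
    intro k l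
    rw [P_adj e, inner_sum]
    refine Finset.sum_congr rfl fun m _ => ?_
    rw [inner_smul_right]
  simp only [h1]
  rw [Finset.sum_comm]
  have h2 : ∀ l, ∑ k, ∑ m, ⟪P (e l) (e m), e k⟫_ℂ * ⟪e k, P (e m) (e l)⟫_ℂ
      = ∑ m, ⟪P (e l) (e m), P (e m) (e l)⟫_ℂ := by
    intro l
    rw [Finset.sum_comm]
    exact Finset.sum_congr rfl fun m _ => e.sum_inner_mul_inner _ _
  simp only [h2]
  rw [Finset.sum_comm]

/-- the vector `η` -/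
def eta (P : V →ₗ[ℂ] V →ₗ[ℂ] V) : V := ∑ k, adj P (e k) (e k)

lemma sum_Q_xxkk {P c : V →ₗ[ℂ] V →ₗ[ℂ] V} (h : Alg P c) (x y : V) :
    ∑ k, QQ P x y (e k) (e k) = 0 := by
  have h1 : ∀ k, QQ P x y (e k) (e k) = - ⟪e k, P x (adj P y (e k))⟫_ℂ
      + ⟪e k, adj P y (P x (e k))⟫_ℂ - ⟪e k, P (adj P y x) (e k)⟫_ℂ
      - ⟪e k, adj P (adj P x y) (e k)⟫_ℂ := by
    intro k
    rw [QQ, RR, inner_sub_right, inner_sub_right, inner_add_right, inner_neg_right]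
  rw [Finset.sum_congr rfl fun k _ => h1 k, Finset.sum_sub_distrib, Finset.sum_sub_distrib,
    Finset.sum_add_distrib, Finset.sum_neg_distrib]
  have h2 : ∑ k, ⟪e k, P x (adj P y (e k))⟫_ℂ = ∑ k, ⟪e k, adj P y (P x (e k))⟫_ℂ := by
    have a1 := LinearMap.trace_eq_sum_inner (adj P y ∘ₗ P x) e
    have a2 := LinearMap.trace_eq_sum_inner (P x ∘ₗ adj P y) e
    have a3 : LinearMap.trace ℂ V (adj P y ∘ₗ P x) = LinearMap.trace ℂ V (P x ∘ₗ adj P y) :=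
      LinearMap.trace_mul_comm ℂ (adj P y) (P x)
    rw [a1, a2] at a3
    exact a3.symm
  have h3 := LinearMap.trace_eq_sum_inner (P (adj P y x)) e
  have h4 := LinearMap.trace_eq_sum_inner (adj P (adj P x y)) e
  rw [trace_adj] at h4
  have h5 := h.ric x y
  rw [h3, h4] at h5
  linear_combination (-1 : ℂ) * h2 - h5

lemma sum_Q_xkkx {P c : V →ₗ[ℂ] V →ₗ[ℂ] V} (h : Alg P c) (x y : V) :
    ∑ k, QQ P x (e k) (e k) y = - ⟪adj P x y, eta e P⟫_ℂ := by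
  have h1 : ∀ k, QQ P x (e k) (e k) y = - ⟪adj P x y, adj P (e k) (e k)⟫_ℂ
      + ⟪P (e k) y, P x (e k)⟫_ℂ - ⟪y, P (adj P (e k) x) (e k)⟫_ℂ
      - ⟪P (adj P x (e k)) y, e k⟫_ℂ := fun k => QQ_eq _ _ _ _ _
  rw [Finset.sum_congr rfl fun k _ => h1 k, Finset.sum_sub_distrib, Finset.sum_sub_distrib,
    Finset.sum_add_distrib, Finset.sum_neg_distrib, ← inner_sum, sum_P_adj_inner]
  have h2 : ∑ k, ⟪y, P (adj P (e k) x) (e k)⟫_ℂ = 0 := by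
    have := T1' e h y x
    have h3 : ∑ k, ⟪y, P (adj P (e k) x) (e k)⟫_ℂ
        = conj (∑ k, ⟪P (adj P (e k) x) (e k), y⟫_ℂ) := by
      rw [map_sum]
      exact Finset.sum_congr rfl fun k _ => (inner_conj_symm _ _).symm
    rw [h3, this, map_zero]
  rw [h2, eta]
  ring

lemma QQ_conj (P : V →ₗ[ℂ] V →ₗ[ℂ] V) (x y z w : V) :
    conj (QQ P x y z w) = QQ P y x w z := by
  rw [QQ_eq, QQ_eq]
  simp only [map_sub, map_add, map_neg, inner_conj_symm]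
  ring

lemma sum_Q_kxxk {P c : V →ₗ[ℂ] V →ₗ[ℂ] V} (h : Alg P c) (x y : V) :
    ∑ k, QQ P (e k) x y (e k) = - ⟪eta e P, adj P x y⟫_ℂ := by
  have h1 : ∑ k, QQ P (e k) x y (e k) = conj (∑ k, QQ P x (e k) (e k) y) := by
    rw [map_sum]
    exact Finset.sum_congr rfl fun k _ => by rw [QQ_conj]
  rw [h1, sum_Q_xkkx e h, map_neg, inner_conj_symm]

lemma sum_Q_kkxx {P : V →ₗ[ℂ] V →ₗ[ℂ] V} (x : V) :
    ∑ k, QQ P (e k) (e k) x x = ∑ k, ((‖P (e k) x‖ ^ 2 : ℝ) : ℂ) - ∑ k, ((‖adj P (e k) x‖ ^ 2 : ℝ) : ℂ)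
      - ⟪x, P (eta e P) x⟫_ℂ - ⟪P (eta e P) x, x⟫_ℂ := by
  have h1 : ∀ k, QQ P (e k) (e k) x x = ((‖P (e k) x‖ ^ 2 : ℝ) : ℂ)
      - ((‖adj P (e k) x‖ ^ 2 : ℝ) : ℂ) - ⟪x, P (adj P (e k) (e k)) x⟫_ℂ
      - ⟪P (adj P (e k) (e k)) x, x⟫_ℂ := by
    intro k
    rw [QQ_eq, inner_self_sq, inner_self_sq]
    ring
  rw [Finset.sum_congr rfl fun k _ => h1 k, Finset.sum_sub_distrib, Finset.sum_sub_distrib,
    Finset.sum_sub_distrib, ← inner_sum, ← sum_inner, eta]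
  simp only [map_sum, LinearMap.sum_apply]

end sums

end Pool.Agent.K1H64.LH
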