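import Mathlib

/-!
# Left invariant Hermitian structures on Lie groups

Everything is expressed on the Lie algebra `g`: a left invariant complex structure `J`, a left
invariant compatible metric `B`, left invariant connections `D` (`D x y` is the covariant derivative
of the left invariant field `y` in the direction of `x`) and their curvature.
-/

set_option autoImplicit false

namespace Pool.Agent.K1H64.LH

variable {g : Type*} [LieRing g] [LieAlgebra ℝ g]

/-- An integrable left invariant complex structure `J` and a compatible left invariant metric `B`. -/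
structure LieHermitian (J : g →ₗ[ℝ] g) (B : g →ₗ[ℝ] g →ₗ[ℝ] ℝ) : Prop where
  sq : ∀ x, J (J x) = -x
  integrable : ∀ x y, ⁅x, y⁆ - ⁅J x, J y⁆ + J ⁅J x, y⁆ + J ⁅x, J y⁆ = 0
  symm : ∀ x y, B x y = B y x
  pos : ∀ x, x ≠ 0 → 0 < B x x
  herm : ∀ x y, B (J x) (J y) = B x y

/-- The torsion of a left invariant connection. -/
def torsion (D : g →ₗ[ℝ] g →ₗ[ℝ] g) (x y : g) : g := D x y - D y x - ⁅x, y⁆

/-- The curvature of a left invariant connection. -/
def curvature (D : g →ₗ[ℝ] g →ₗ[ℝ] g) (x y z : g) : g := D x (D y z) - D y (D x z) - D ⁅x, y⁆ z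

/-- `D` is the Chern connection: it preserves the metric and the complex structure, and its torsion
has no component of type `(1,1)`. -/
structure IsChern (J : g →ₗ[ℝ] g) (B : g →ₗ[ℝ] g →ₗ[ℝ] ℝ) (D : g →ₗ[ℝ] g →ₗ[ℝ] g) : Prop where
  metric : ∀ x y z, B (D x y) z + B y (D x z) = 0
  complex : ∀ x y, D x (J y) = J (D x y)
  torsion : ∀ x y, torsion D (J x) (J y) = -torsion D x y

/-- `D` is the Levi-Civita connection: it preserves the metric and has no torsion. -/
structure IsLeviCivita (B : g →ₗ[ℝ] g →ₗ[ℝ] ℝ) (D : g →ₗ[ℝ] g →ₗ[ℝ] g) : Prop where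
  metric : ∀ x y z, B (D x y) z + B y (D x z) = 0
  torsion : ∀ x y, torsion D x y = 0

/-- The holomorphic sectional curvature `R(x, Jx, Jx, x) / |x|⁴` of the connection `D` is
identically `c`. -/
def ConstantHSC (J : g →ₗ[ℝ] g) (B : g →ₗ[ℝ] g →ₗ[ℝ] ℝ) (D : g →ₗ[ℝ] g →ₗ[ℝ] g) (c : ℝ) : Prop :=
  ∀ x, B (curvature D x (J x) (J x)) x = c * (B x x) ^ 2

/-- The connection is flat. -/
def Flat (D : g →ₗ[ℝ] g →ₗ[ℝ] g) : Prop := ∀ x y z, curvature D x y z = 0

/-- The Lie algebra is unimodular (this is necessary for the existence of a lattice). -/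
def Unimodular (g : Type*) [LieRing g] [LieAlgebra ℝ g] : Prop :=
  ∀ x : g, LinearMap.trace ℝ g (LieAlgebra.ad ℝ g x) = 0

/-- The Chern-Ricci form of a unimodular Lie group with a left invariant Hermitian structure is
`-tr (J ∘ ad [x, y]) / 2`; it depends only on `J`. -/
def ChernRicciFlat (J : g →ₗ[ℝ] g) : Prop :=
  ∀ x y : g, LinearMap.trace ℝ g (J ∘ₗ LieAlgebra.ad ℝ g ⁅x, y⁆) = 0

/-- Solvable of type (I): every `ad x` has only purely imaginary eigenvalues (on the
complexification of `g`). -/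
def TypeI (g : Type*) [LieRing g] [LieAlgebra ℝ g] : Prop :=
  LieAlgebra.IsSolvable g ∧ ∀ (x : g) (z : ℂ),
    Module.End.HasEigenvalue ((LieAlgebra.ad ℝ g x).baseChange ℂ) z → z.re = 0

/-- The complex structure is abelian. -/
def AbelianJ (J : g →ₗ[ℝ] g) : Prop := ∀ x y, ⁅J x, J y⁆ = ⁅x, y⁆

end Pool.Agent.K1H64.LH
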