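import Pool.Agent.K1H64.LH.Geom

/-!
Existence of the Chern connection.
-/

set_option autoImplicit false
set_option linter.unusedSimpArgs false

open Module
open scoped ComplexConjugate InnerProductSpace

noncomputable section

namespace Pool.Agent.K1H64.LH

variable {V : Type*} [NormedAddCommGroup V] [InnerProductSpace ℂ V]

/-- a real Lie bracket with integrable complex structure -/
structure Brk (br : V →ₗ[ℝ] V →ₗ[ℝ] V) : Prop where
  skew : ∀ x, br x x = 0
  jac : ∀ x y z, br x (br y z) = br (br x y) z + br y (br x z)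
  nij : ∀ x y, br x y - br (Complex.I • x) (Complex.I • y) + Complex.I • br (Complex.I • x) y
    + Complex.I • br x (Complex.I • y) = 0

variable {br : V →ₗ[ℝ] V →ₗ[ℝ] V}

lemma Brk.br_skew (G : Brk br) (x y : V) : br y x = - br x y := by
  have h1 := G.skew (x + y)
  simp only [map_add, LinearMap.add_apply, G.skew, zero_add, add_zero] at h1
  rw [eq_neg_iff_add_eq_zero, ← h1]

/-- the antilinear part of the bracket -/
def Brk.A (G : Brk br) (x : V) : V →ₗ[ℂ] V where
  toFun y := - ((1 / 2 : ℂ) • (br x y + Complex.I • br (Complex.I • x) y))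
  map_add' y y' := by simp only [map_add, smul_add]; module
  map_smul' z y := by
    have h1 : ∀ y, (br x + (Complex.I • (LinearMap.id : V →ₗ[ℂ] V)).restrictScalars ℝ ∘ₗ
        br (Complex.I • x)) y = br x y + Complex.I • br (Complex.I • x) y := fun y => rfl
    rw [← h1, ← h1, map_smul_of_I, RingHom.id_apply]
    · module
    · intro y
      rw [h1, h1]
      have h2 := G.nij x y
      have h3 : Complex.I • (br x y - br (Complex.I • x) (Complex.I • y)
        + Complex.I • br (Complex.I • x) y + Complex.I • br x (Complex.I • y)) = 0 := by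
        rw [h2, smul_zero]
      rw [smul_add, smul_add, smul_sub, I_smul_I_smul, I_smul_I_smul] at h3
      rw [smul_add, I_smul_I_smul, ← sub_eq_zero, ← neg_eq_zero, ← h3]
      abel

lemma Brk.A_apply (G : Brk br) (x y : V) :
    G.A x y = - ((1 / 2 : ℂ) • (br x y + Complex.I • br (Complex.I • x) y)) := rfl

lemma Brk.A_add (G : Brk br) (x x' : V) : G.A (x + x') = G.A x + G.A x' := by
  ext y
  rw [LinearMap.add_apply, G.A_apply, G.A_apply, G.A_apply]
  simp only [map_add, smul_add, LinearMap.add_apply]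
  module

lemma Brk.A_I (G : Brk br) (x : V) : G.A (Complex.I • x) = - (Complex.I • G.A x) := by
  ext y
  have h1 : Complex.I • (br x y + Complex.I • br (Complex.I • x) y)
      = Complex.I • br x y - br (Complex.I • x) y := by
    rw [smul_add, I_smul_I_smul]; abel
  rw [LinearMap.neg_apply, LinearMap.smul_apply, G.A_apply, G.A_apply, I_smul_I_smul, map_neg,
    LinearMap.neg_apply, smul_neg, smul_neg, neg_neg, smul_comm Complex.I (1 / 2 : ℂ), h1]
  module

lemma Brk.A_real (G : Brk br) (r : ℝ) (x : V) : G.A (r • x) = (r : ℂ) • G.A x := by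
  ext y
  rw [LinearMap.smul_apply, G.A_apply, G.A_apply]
  have h1 : Complex.I • r • x = r • Complex.I • x := by
    rw [real_smul_eq, real_smul_eq, smul_comm]
  rw [h1, map_smul, map_smul, LinearMap.smul_apply, LinearMap.smul_apply, real_smul_eq,
    real_smul_eq]
  module

lemma Brk.A_smul (G : Brk br) (z : ℂ) (x : V) : G.A (z • x) = conj z • G.A x := by
  rw [smul_split z x, G.A_add, G.A_real, G.A_real, G.A_I]
  have : conj z = (z.re : ℂ) - z.im * Complex.I := by
    apply Complex.ext <;> simp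
  rw [this]
  module

variable [FiniteDimensional ℂ V]

/-- the adjoint of the antilinear part -/
def Brk.P (G : Brk br) : V →ₗ[ℂ] V →ₗ[ℂ] V where
  toFun x := LinearMap.adjoint (G.A x)
  map_add' x x' := by rw [G.A_add, map_add]
  map_smul' z x := by
    rw [G.A_smul, map_smulₛₗ, Complex.conj_conj, RingHom.id_apply]

/-- the Chern connection -/
def Brk.D (G : Brk br) : V →ₗ[ℝ] V →ₗ[ℝ] V :=
  LinearMap.mk₂ ℝ (fun x y => G.P x y - G.A x y)
    (by intro x x' y
        rw [map_add, LinearMap.add_apply, G.A_add, LinearMap.add_apply]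
        abel)
    (by intro r x y
        rw [G.A_real, real_smul_eq, real_smul_eq, map_smul, LinearMap.smul_apply,
          LinearMap.smul_apply, smul_sub])
    (by intro x y y'
        rw [map_add, map_add]
        abel)
    (by intro r x y
        rw [real_smul_eq, real_smul_eq, map_smul, map_smul, smul_sub])

lemma Brk.D_apply (G : Brk br) (x y : V) : G.D x y = G.P x y - G.A x y := rfl

lemma Brk.inner_P (G : Brk br) (x y z : V) : ⟪G.P x y, z⟫_ℂ = ⟪y, G.A x z⟫_ℂ :=
  LinearMap.adjoint_inner_left _ _ _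

theorem Brk.geo (G : Brk br) : Geo br G.D where
  skew := G.skew
  jac := G.jac
  nij := G.nij
  met x y z := by
    rw [G.D_apply, G.D_apply, inner_sub_left, inner_sub_right, G.inner_P,
      ← inner_conj_symm y (G.P x z), G.inner_P, ← inner_conj_symm (G.A x y) z]
    simp only [Complex.sub_re, Complex.conj_re]
    rw [re_symm z (G.A x y)]
    ring
  cplx x y := by
    rw [G.D_apply, G.D_apply, map_smul, map_smul, smul_sub]
  typ x y := by
    have h1 := G.nij x y
    have h2 : br (Complex.I • x) (Complex.I • y) = br x y + Complex.I • br (Complex.I • x) y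
      + Complex.I • br x (Complex.I • y) := by
      rw [← sub_eq_zero, ← neg_eq_zero, ← h1]; abel
    have h3 : br x (Complex.I • y) = - br (Complex.I • y) x := G.br_skew _ _
    have h4 : br y x = - br x y := G.br_skew _ _
    have p1 : G.P (Complex.I • x) (Complex.I • y) = - G.P x y := by
      rw [map_smul, map_smul, LinearMap.smul_apply, I_smul_I_smul]
    have p2 : G.P (Complex.I • y) (Complex.I • x) = - G.P y x := by
      rw [map_smul, map_smul, LinearMap.smul_apply, I_smul_I_smul]
    have p3 : G.A (Complex.I • x) (Complex.I • y) = G.A x y := by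
      rw [map_smul, G.A_I, LinearMap.neg_apply, LinearMap.smul_apply, smul_neg, I_smul_I_smul,
        neg_neg]
    have p4 : G.A (Complex.I • y) (Complex.I • x) = G.A y x := by
      rw [map_smul, G.A_I, LinearMap.neg_apply, LinearMap.smul_apply, smul_neg, I_smul_I_smul,
        neg_neg]
    rw [G.D_apply, G.D_apply, G.D_apply, G.D_apply, p1, p2, p3, p4, h2, h3, G.A_apply, G.A_apply,
      h4]
    module

/-- in the constant case the Chern connection is flat -/
theorem Geo.q1 [Nontrivial V] {Dv : V →ₗ[ℝ] V →ₗ[ℝ] V} (G : Geo br Dv)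
    (htr : ∀ x, LinearMap.trace ℝ V (br x) = 0)
    (hric : ∀ x y, (LinearMap.trace ℂ V (G.P (br x y))).im = 0) (hc : Chain G.c) {a : ℝ}
    (hH : ∀ x, (⟪curvV br Dv x (Complex.I • x) (Complex.I • x), x⟫_ℂ).re = a * (‖x‖ ^ 2) ^ 2) :
    a = 0 ∧ ∀ x y z, curvV br Dv x y z = 0 := by
  have hA := G.alg htr hric
  have h1 : ∀ x, QQ G.P x x x x = ((a / 2 : ℝ) : ℂ) * ((‖x‖ ^ 2 : ℝ) : ℂ) ^ 2 := by
    intro x
    have h2 := G.hsc_eq x
    rw [hH x] at h2
    push_cast at h2 ⊢
    linear_combination (-1 / 2 : ℂ) * h2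
  have h3 := const_zero (stdOrthonormalBasis ℂ V) hA hc h1
  have h4 : a = 0 := by linarith [h3.1]
  refine ⟨h4, fun x y z => ?_⟩
  have h5 : ∀ x, QQ G.P x x x x = 0 := by
    intro x
    rw [h1 x, h4]
    simp
  rw [G.curv_eq, RR_zero hA hc h5, RR_zero hA hc h5, sub_zero]

/-- in the constant case the Levi-Civita connection is flat, if there is a nonzero element with skew
adjoint action -/
theorem Brk.q2 (G : Brk br) {D' : V →ₗ[ℝ] V →ₗ[ℝ] V} (hD : LCV br D')
    (htr : ∀ x, LinearMap.trace ℝ V (br x) = 0)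
    (hric : ∀ x y, (LinearMap.trace ℂ V (G.geo.P (br x y))).im = 0)
    {u : V} (hu0 : u ≠ 0) (hu : ∀ x y, (⟪br u x, y⟫_ℂ).re + (⟪x, br u y⟫_ℂ).re = 0) {a : ℝ}
    (hH : ∀ x, (⟪curvV br D' x (Complex.I • x) (Complex.I • x), x⟫_ℂ).re = a * (‖x‖ ^ 2) ^ 2) :
    a = 0 ∧ (∀ x y z, curvV br D' x y z = 0) ∧ (∀ x y, D' x (Complex.I • y) = Complex.I • D' x y) ∧
      Tor G.geo.P G.geo.c = 0 ∧ ∀ x, QQ G.geo.P x x x x = 0 := by
  have hA := G.geo.alg htr hric
  have hn : Nontrivial V := ⟨u, 0, hu0⟩
  have hne : Nonempty (Fin (Module.finrank ℂ V)) := ⟨⟨0, Module.finrank_pos⟩⟩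
  have ha : 0 ≤ a := by
    have h1 := skew_curv hD G.skew hu (Complex.I • u)
    rw [hH u] at h1
    have h2 : 0 < ‖u‖ := norm_pos_iff.mpr hu0
    by_contra hlt
    push Not at hlt
    have h3 : a * (‖u‖ ^ 2) ^ 2 < 0 := mul_neg_of_neg_of_pos hlt (by positivity)
    have := sq_nonneg ‖D' (Complex.I • u) u‖
    linarith
  have hD2 : D' = lcMap G.D (Tor G.geo.P G.geo.c) := by
    ext x y
    exact lc_unique hD G.geo.lc x y
  have hF : ∀ x, FF G.geo.P (Tor G.geo.P G.geo.c) x x x x
      = (a : ℂ) * ((‖x‖ ^ 2 : ℝ) : ℂ) ^ 2 := by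
    intro x
    rw [← G.geo.hsc_lc x, ← hD2, hH x]
    push_cast
    ring
  obtain ⟨ha0, hT⟩ := riem_zero (stdOrthonormalBasis ℂ V) hA ha hF
  have hQ : ∀ x, QQ G.geo.P x x x x = 0 := by
    intro x
    have h1 := hF x
    rw [hT, ha0, FF] at h1
    have h2 : adj (0 : V →ₗ[ℂ] V →ₗ[ℂ] V) x x = 0 := by simp [adj]
    rw [h2, inner_zero_left, Complex.ofReal_zero, zero_mul, sub_zero] at h1
    exact (mul_eq_zero.mp h1).resolve_left two_ne_zero
  have hR := RR_zero_of_kaehler hA hT hQ
  have hDD : ∀ x y, D' x y = G.D x y := by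
    intro x y
    rw [hD2, lcMap_apply, hT]
    have : KT (0 : V →ₗ[ℂ] V →ₗ[ℂ] V) x y = 0 := by simp [KT, adj]
    rw [this, add_zero]
  have hDe : D' = G.D := by ext x y; exact hDD x y
  refine ⟨ha0, fun x y z => ?_, fun x y => ?_, hT, hQ⟩
  · rw [hDe, G.geo.curv_eq, hR, hR, sub_zero]
  · rw [hDe, G.geo.cplx]

end Pool.Agent.K1H64.LH
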