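import Pool.Agent.K1H64.LH.Core

/-!
Lie's theorem for the antilinear family `x ↦ adj P x`.
-/

set_option autoImplicit false

open Module
open scoped ComplexConjugate InnerProductSpace

noncomputable section

namespace Pool.Agent.K1H64.LH

variable {V : Type*} [NormedAddCommGroup V] [InnerProductSpace ℂ V] [FiniteDimensional ℂ V]

attribute [local instance 100] LieRing.ofAssociativeRing

lemma adj_bracket {P c : V →ₗ[ℂ] V →ₗ[ℂ] V} (h : Alg P c) (x y v : V) :
    adj P x (adj P y v) - adj P y (adj P x v) = - adj P (c x y) v := by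
  refine ext_inner_right ℂ fun w => ?_
  rw [inner_sub_left, inner_neg_left, inner_adj_left, inner_adj_left, inner_adj_left,
    inner_adj_left, inner_adj_left, h.rep, inner_sub_right]
  ring

/-- the operators `adj P x` form a Lie algebra -/
def LA {P c : V →ₗ[ℂ] V →ₗ[ℂ] V} (h : Alg P c) : LieSubalgebra ℂ (Module.End ℂ V) where
  carrier := {T | ∃ x, adj P x = T}
  add_mem' := by
    rintro _ _ ⟨x, rfl⟩ ⟨y, rfl⟩
    exact ⟨x + y, adj_add P x y⟩
  zero_mem' := ⟨0, adj_zero P⟩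
  smul_mem' := by
    rintro a _ ⟨x, rfl⟩
    refine ⟨conj a • x, ?_⟩
    rw [adj_smul, Complex.conj_conj]
  lie_mem' := by
    rintro _ _ ⟨x, rfl⟩ ⟨y, rfl⟩
    refine ⟨- c x y, ?_⟩
    rw [adj_neg]
    ext v
    have := adj_bracket h x y v
    rw [LinearMap.neg_apply, ← this]
    rfl

lemma mem_LA {P c : V →ₗ[ℂ] V →ₗ[ℂ] V} (h : Alg P c) (x : V) : adj P x ∈ LA h := ⟨x, rfl⟩

/-- a chain of subspaces showing solvability -/
def Chain (c : V →ₗ[ℂ] V →ₗ[ℂ] V) : Prop :=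
  ∃ (N : ℕ) (U : ℕ → Submodule ℂ V), U 0 = ⊤ ∧ (∀ k, ∀ x ∈ U k, ∀ y ∈ U k, c x y ∈ U (k + 1)) ∧
    U N = ⊥

lemma LA_solvable {P c : V →ₗ[ℂ] V →ₗ[ℂ] V} (h : Alg P c) (hc : Chain c) :
    LieAlgebra.IsSolvable (LA h) := by
  obtain ⟨N, U, h0, hs, hN⟩ := hc
  have key : ∀ k, ∀ T ∈ LieAlgebra.derivedSeries ℂ (LA h) k, ∃ x ∈ U k, adj P x = (T : Module.End ℂ V) := by
    intro k
    induction k with
    | zero =>
      intro T _
      obtain ⟨x, hx⟩ := T.2
      exact ⟨x, by rw [h0]; trivial, hx⟩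
    | succ k ih =>
      intro T hT
      rw [LieAlgebra.derivedSeries_def, LieAlgebra.derivedSeriesOfIdeal_succ,
        ← LieSubmodule.mem_toSubmodule, LieSubmodule.lieIdeal_oper_eq_linear_span'] at hT
      refine Submodule.span_induction (p := fun (T : LA h) _ => ∃ x ∈ U (k + 1), adj P x = (T : Module.End ℂ V))
        ?_ ?_ ?_ ?_ hT
      · rintro _ ⟨A, hA, B, hB, rfl⟩
        obtain ⟨x, hx, hxA⟩ := ih A hA
        obtain ⟨y, hy, hyB⟩ := ih B hB
        refine ⟨- c x y, (U (k+1)).neg_mem (hs k x hx y hy), ?_⟩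
        rw [adj_neg]
        ext v
        have := adj_bracket h x y v
        rw [LinearMap.neg_apply, ← this, hxA, hyB]
        rfl
      · exact ⟨0, (U _).zero_mem, adj_zero P⟩
      · rintro A B _ _ ⟨x, hx, hxA⟩ ⟨y, hy, hyB⟩
        exact ⟨x + y, (U _).add_mem hx hy, by rw [adj_add, hxA, hyB]; rfl⟩
      · rintro a A _ ⟨x, hx, hxA⟩
        refine ⟨conj a • x, (U _).smul_mem _ hx, ?_⟩
        rw [adj_smul, Complex.conj_conj, hxA]; rfl
  refine LieAlgebra.IsSolvable.mk (R := ℂ) (k := N) ?_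
  rw [LieSubmodule.eq_bot_iff]
  intro T hT
  obtain ⟨x, hx, hxT⟩ := key N T hT
  rw [hN, Submodule.mem_bot] at hx
  rw [hx, adj_zero] at hxT
  exact Subtype.ext hxT.symm

/-- Lie's theorem -/
theorem exists_eigen {P c : V →ₗ[ℂ] V →ₗ[ℂ] V} (h : Alg P c) (hc : Chain c)
    (W : Submodule ℂ V) (hW : W ≠ ⊥) (hinv : ∀ x, ∀ w ∈ W, adj P x w ∈ W) :
    ∃ E ∈ W, E ≠ 0 ∧ ∃ μ : V →ₗ[ℂ] ℂ, ∀ x, adj P x E = conj (μ x) • E := by
  have hsol := LA_solvable h hc
  let W' : LieSubmodule ℂ (LA h) V := { W with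
    lie_mem := by
      rintro ⟨_, x, rfl⟩ w hw
      exact hinv x w hw }
  have hnt : Nontrivial W' := by
    rw [Submodule.ne_bot_iff] at hW
    obtain ⟨w, hw, hw0⟩ := hW
    exact ⟨⟨w, hw⟩, 0, fun hh => hw0 (congrArg Subtype.val hh)⟩
  obtain ⟨χ, hχ⟩ := LieModule.exists_nontrivial_weightSpace_of_isSolvable ℂ (LA h) W'
  obtain ⟨⟨v, hv⟩, hv0⟩ := exists_ne (0 : LieModule.weightSpace W' χ)
  rw [LieModule.mem_weightSpace] at hv
  have hv1 : v ≠ 0 := fun hh => hv0 (Subtype.ext hh)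
  have hE : (v : V) ≠ 0 := fun hh => hv1 (Subtype.ext hh)
  have hx : ∀ x, adj P x (v : V) = χ ⟨adj P x, mem_LA h x⟩ • (v : V) := by
    intro x
    have := hv ⟨adj P x, mem_LA h x⟩
    exact congrArg Subtype.val this
  refine ⟨v, v.2, hE, ?_⟩
  let μ : V →ₗ[ℂ] ℂ :=
    { toFun := fun x => conj (χ ⟨adj P x, mem_LA h x⟩)
      map_add' := by
        intro x y
        rw [← map_add, ← map_add]
        congr 2
        exact Subtype.ext (adj_add P x y)
      map_smul' := by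
        intro a x
        have : (⟨adj P (a • x), mem_LA h (a • x)⟩ : LA h) = conj a • ⟨adj P x, mem_LA h x⟩ :=
          Subtype.ext (adj_smul P a x)
        rw [this, map_smul, smul_eq_mul, map_mul, Complex.conj_conj]
        rfl }
  refine ⟨μ, fun x => ?_⟩
  rw [hx x]
  congr 1
  exact (Complex.conj_conj _).symm

end Pool.Agent.K1H64.LH
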