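import Pool.Agent.K1H64.LH.Polar
import Pool.Agent.K1H64.LH.Lie

/-!
Constant holomorphic sectional curvature of the Chern connection forces Chern flatness.
-/

set_option autoImplicit false
set_option linter.unusedSimpArgs false

open Module
open scoped ComplexConjugate InnerProductSpace

noncomputable section

namespace Pool.Agent.K1H64.LH

variable {V : Type*} [NormedAddCommGroup V] [InnerProductSpace ℂ V] [FiniteDimensional ℂ V]

lemma quart_QQ (P : V →ₗ[ℂ] V →ₗ[ℂ] V) : Quart (QQ P) := by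
  constructor
  all_goals intros
  all_goals
    simp only [QQ_eq, map_add, adj_add, LinearMap.add_apply, inner_add_left, inner_add_right,
      map_smul, adj_smul, LinearMap.smul_apply, inner_smul_left, inner_smul_right, map_smulₛₗ,
      RingHom.id_apply, Complex.conj_conj]
    ring

section sums

variable {ι : Type*} [Fintype ι] (e : OrthonormalBasis ι ℂ V)

/-- an eigenvector of all `adj P x` has weight vanishing on itself -/
lemma eigen_self {P c : V →ₗ[ℂ] V →ₗ[ℂ] V} (h : Alg P c) {E : V} {μ : V →ₗ[ℂ] ℂ}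
    (hE : ∀ x, adj P x E = conj (μ x) • E) : μ E = 0 := by
  have h1 := T1' (stdOrthonormalBasis ℂ V) h E E
  have h2 : ∀ k, ⟪P (adj P (stdOrthonormalBasis ℂ V k) E) (stdOrthonormalBasis ℂ V k), E⟫_ℂ
      = conj (μ E) * (⟪stdOrthonormalBasis ℂ V k, E⟫_ℂ * μ (stdOrthonormalBasis ℂ V k)) := by
    intro k
    rw [hE, map_smul, LinearMap.smul_apply, inner_smul_left, Complex.conj_conj, ← inner_adj_right,
      hE, inner_smul_right]
    ring
  rw [Finset.sum_congr rfl fun k _ => h2 k, ← Finset.mul_sum] at h1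
  have h3 : ∑ k, ⟪stdOrthonormalBasis ℂ V k, E⟫_ℂ * μ (stdOrthonormalBasis ℂ V k) = μ E := by
    conv_rhs => rw [← (stdOrthonormalBasis ℂ V).sum_repr' E]
    rw [map_sum]
    exact Finset.sum_congr rfl fun k _ => by rw [map_smul, smul_eq_mul]
  rw [h3] at h1
  rcases mul_eq_zero.mp h1 with h4 | h4
  · exact (map_eq_zero _).mp h4
  · exact h4

lemma QQ_eigen {P c : V →ₗ[ℂ] V →ₗ[ℂ] V} (h : Alg P c) {E : V} {μ : V →ₗ[ℂ] ℂ}
    (hE : ∀ x, adj P x E = conj (μ x) • E) :
    QQ P E E E E = ((‖P E E‖ ^ 2 : ℝ) : ℂ) := by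
  have h0 := eigen_self h hE
  have h1 : adj P E E = 0 := by rw [hE, h0, map_zero, zero_smul]
  rw [QQ_eq, h1]
  simp [inner_self_sq]

lemma sum_KK_const {P c : V →ₗ[ℂ] V →ₗ[ℂ] V} (h : Alg P c) {a : ℂ}
    (hH : ∀ x, QQ P x x x x = a * ((‖x‖ ^ 2 : ℝ) : ℂ) ^ 2) :
    a * ((Fintype.card ι : ℂ) ^ 2 + Fintype.card ι) = - ⟪eta e P, eta e P⟫_ℂ := by
  classical
  have h1 : ∑ k, ∑ l, KK (QQ P) (e k) (e l) = 2 * a * ((Fintype.card ι : ℂ) ^ 2 + Fintype.card ι) := by
    have h2 : ∀ k l, KK (QQ P) (e k) (e l) = 2 * a * (1 + if k = l then 1 else 0) := by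
      intro k l
      rw [(quart_QQ P).polar a hH]
      rw [e.norm_eq_one, e.norm_eq_one]
      rcases eq_or_ne k l with rfl | hkl
      · simp [inner_self_sq, e.norm_eq_one]
      · rw [e.inner_eq_zero hkl]
        simp [hkl]
    simp only [h2]
    simp only [← Finset.mul_sum, Finset.sum_add_distrib, Finset.sum_const, Finset.card_univ,
      Finset.sum_ite_eq, Finset.mem_univ, if_true]
    simp only [nsmul_eq_mul, mul_one, smul_add]
    ring
  have h3 : ∑ k, ∑ l, KK (QQ P) (e k) (e l) = - 2 * ⟪eta e P, eta e P⟫_ℂ := by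
    simp only [KK, Finset.sum_add_distrib]
    have a1 : ∑ k, ∑ l, QQ P (e k) (e k) (e l) (e l) = 0 :=
      Finset.sum_eq_zero fun k _ => sum_Q_xxkk e h (e k) (e k)
    have a2 : ∑ k, ∑ l, QQ P (e l) (e l) (e k) (e k) = 0 := by
      rw [Finset.sum_comm]; exact a1
    have a3 : ∑ k, ∑ l, QQ P (e k) (e l) (e l) (e k) = - ⟪eta e P, eta e P⟫_ℂ := by
      rw [Finset.sum_congr rfl fun k _ => sum_Q_xkkx e h (e k) (e k), Finset.sum_neg_distrib,
        ← sum_inner]
      rfl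
    have a4 : ∑ k, ∑ l, QQ P (e l) (e k) (e k) (e l) = - ⟪eta e P, eta e P⟫_ℂ := by
      rw [Finset.sum_comm]; exact a3
    rw [a1, a2, a3, a4]
    ring
  linear_combination (1 / 2 : ℂ) * (h3 - h1)

/-- `c = 0` and `η = 0` -/
lemma const_zero [Nontrivial V] {P c : V →ₗ[ℂ] V →ₗ[ℂ] V} (h : Alg P c) (hc : Chain c) {a : ℝ}
    (hH : ∀ x, QQ P x x x x = (a : ℂ) * ((‖x‖ ^ 2 : ℝ) : ℂ) ^ 2) : a = 0 ∧ eta e P = 0 := by
  obtain ⟨E, -, hE0, μ, hμ⟩ := exists_eigen h hc ⊤ top_ne_bot (fun _ _ _ => Submodule.mem_top)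
  have h1 := sum_KK_const e h hH
  have h2 := QQ_eigen h hμ
  rw [hH E] at h2
  have h3 : a * (‖E‖ ^ 2) ^ 2 = ‖P E E‖ ^ 2 := by exact_mod_cast h2
  have hEn : 0 < ‖E‖ := norm_pos_iff.mpr hE0
  have ha : 0 ≤ a := by
    by_contra hlt
    push Not at hlt
    have : a * (‖E‖ ^ 2) ^ 2 < 0 := mul_neg_of_neg_of_pos hlt (by positivity)
    have := sq_nonneg ‖P E E‖
    linarith
  rw [inner_self_sq] at h1
  have h4 : a * ((Fintype.card ι : ℝ) ^ 2 + Fintype.card ι) = - ‖eta e P‖ ^ 2 := by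
    exact_mod_cast h1
  have hne : Nonempty ι := by
    by_contra hemp
    rw [not_nonempty_iff] at hemp
    apply hE0
    have := e.sum_repr' E
    simpa using this.symm
  have hcard : (0 : ℝ) < Fintype.card ι := by exact_mod_cast Fintype.card_pos
  have h5 : a = 0 := by
    by_contra hne'
    have : 0 < a := lt_of_le_of_ne ha (Ne.symm hne')
    have h6 : 0 < a * ((Fintype.card ι : ℝ) ^ 2 + Fintype.card ι) := by positivity
    have := sq_nonneg ‖eta e P‖
    linarith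
  refine ⟨h5, ?_⟩
  rw [h5] at h4
  have : ‖eta e P‖ ^ 2 = 0 := by linarith
  exact norm_eq_zero.mp (pow_eq_zero_iff (two_ne_zero) |>.mp this)

lemma sum_norm_eq {P c : V →ₗ[ℂ] V →ₗ[ℂ] V} (h : Alg P c)
    (hH : ∀ x, QQ P x x x x = 0) (hη : eta e P = 0) (x : V) :
    ∑ k, ‖P (e k) x‖ ^ 2 = ∑ k, ‖adj P (e k) x‖ ^ 2 := by
  have h1 : ∑ k, KK (QQ P) x (e k) = 0 := by
    refine Finset.sum_eq_zero fun k _ => ?_
    rw [(quart_QQ P).polar 0 (fun x => by rw [hH x]; ring)]
    ring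
  simp only [KK, Finset.sum_add_distrib] at h1
  rw [sum_Q_xxkk e h, sum_Q_kkxx e, sum_Q_xkkx e h, sum_Q_kxxk e h, hη] at h1
  simp only [inner_zero_right, inner_zero_left, map_zero, LinearMap.zero_apply] at h1
  have h2 : (∑ k, ((‖P (e k) x‖ ^ 2 : ℝ) : ℂ)) = ∑ k, ((‖adj P (e k) x‖ ^ 2 : ℝ) : ℂ) := by
    linear_combination h1
  exact_mod_cast h2

/-- an eigenvector of all `adj P x` is an eigenvector of all `P x` -/
lemma eigen_joint {P c : V →ₗ[ℂ] V →ₗ[ℂ] V} (h : Alg P c)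
    (hH : ∀ x, QQ P x x x x = 0) (hη : eta e P = 0) {E : V} {μ : V →ₗ[ℂ] ℂ}
    (hE : ∀ x, adj P x E = conj (μ x) • E) (x : V) : P x E = μ x • E := by
  have h1 := sum_norm_eq e h hH hη E
  have h2 : ∀ k, ‖P (e k) E - μ (e k) • E‖ ^ 2 = ‖P (e k) E‖ ^ 2 - ‖adj P (e k) E‖ ^ 2 := by
    intro k
    have a1 : ⟪P (e k) E, E⟫_ℂ = conj (μ (e k)) * ((‖E‖ ^ 2 : ℝ) : ℂ) := by
      rw [← inner_adj_right, hE, inner_smul_right, inner_self_sq]
    have a2 : ⟪E, P (e k) E⟫_ℂ = μ (e k) * ((‖E‖ ^ 2 : ℝ) : ℂ) := by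
      rw [← inner_adj_left, hE, inner_smul_left, inner_self_sq, Complex.conj_conj]
    have a3 : ((‖P (e k) E - μ (e k) • E‖ ^ 2 : ℝ) : ℂ)
        = ((‖P (e k) E‖ ^ 2 : ℝ) : ℂ) - ((‖adj P (e k) E‖ ^ 2 : ℝ) : ℂ) := by
      rw [← inner_self_sq, ← inner_self_sq, ← inner_self_sq, hE, inner_sub_left, inner_sub_right,
        inner_sub_right, inner_smul_left, inner_smul_right, inner_smul_left, inner_smul_right,
        inner_smul_right, inner_smul_left, Complex.conj_conj, a1, a2, inner_self_sq E]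
      ring
    exact_mod_cast a3
  have h3 : ∑ k, ‖P (e k) E - μ (e k) • E‖ ^ 2 = 0 := by
    rw [Finset.sum_congr rfl fun k _ => h2 k, Finset.sum_sub_distrib, h1, sub_self]
  rw [Finset.sum_eq_zero_iff_of_nonneg (fun k _ => sq_nonneg _)] at h3
  have h4 : ∀ k, P (e k) E = μ (e k) • E := by
    intro k
    have := h3 k (Finset.mem_univ k)
    rw [sq_eq_zero_iff, norm_eq_zero, sub_eq_zero] at this
    exact this
  conv_lhs => rw [← e.sum_repr' x]
  conv_rhs => rw [← e.sum_repr' x]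
  rw [map_sum, LinearMap.sum_apply, map_sum, Finset.sum_smul]
  refine Finset.sum_congr rfl fun k _ => ?_
  rw [map_smul, LinearMap.smul_apply, h4 k, map_smul, smul_eq_mul, mul_smul]

end sums

/-- joint eigenvectors -/
def Joint (P : V →ₗ[ℂ] V →ₗ[ℂ] V) (f : V) (μ : V →ₗ[ℂ] ℂ) : Prop :=
  (∀ x, P x f = μ x • f) ∧ ∀ x, adj P x f = conj (μ x) • f

/-- the span of the joint eigenvectors is everything -/
lemma span_joint [Nontrivial V] {P c : V →ₗ[ℂ] V →ₗ[ℂ] V} (h : Alg P c) (hc : Chain c)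
    (hH : ∀ x, QQ P x x x x = 0) :
    Submodule.span ℂ {f : V | f ≠ 0 ∧ ∃ μ, Joint P f μ} = ⊤ := by
  set S := Submodule.span ℂ {f : V | f ≠ 0 ∧ ∃ μ, Joint P f μ} with hS
  have hη : eta (stdOrthonormalBasis ℂ V) P = 0 :=
    (const_zero (stdOrthonormalBasis ℂ V) h hc (a := 0) (fun x => by rw [hH x]; simp)).2
  have hinv : ∀ x, ∀ w ∈ S, P x w ∈ S := by
    intro x w hw
    induction hw using Submodule.span_induction with
    | mem f hf =>
      obtain ⟨hf0, μ, hμ⟩ := hf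
      rw [hμ.1]
      exact S.smul_mem _ (Submodule.subset_span ⟨hf0, μ, hμ⟩)
    | zero => rw [map_zero]; exact S.zero_mem
    | add a b _ _ ha hb => rw [map_add]; exact S.add_mem ha hb
    | smul t a _ ha => rw [map_smul]; exact S.smul_mem _ ha
  by_contra hne
  have hW : Sᗮ ≠ ⊥ := by
    intro hbot
    exact hne ((Submodule.orthogonal_eq_bot_iff).mp hbot)
  obtain ⟨E, hE, hE0, μ, hμ⟩ := exists_eigen h hc Sᗮ hW (by
    intro x w hw
    rw [Submodule.mem_orthogonal] at hw ⊢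
    intro u hu
    rw [inner_adj_right]
    exact hw _ (hinv x u hu))
  have hJ : Joint P E μ := ⟨eigen_joint (stdOrthonormalBasis ℂ V) h hH hη hμ, hμ⟩
  have hES : E ∈ S := Submodule.subset_span ⟨hE0, μ, hJ⟩
  have := (Submodule.mem_orthogonal S E).mp hE E hES
  exact hE0 (inner_self_eq_zero.mp this)

section joint

variable {P : V →ₗ[ℂ] V →ₗ[ℂ] V}

/-- the coefficient -/
def kap (μf μg μh : V →ₗ[ℂ] ℂ) (f g : V) : ℂ := conj (μf g) * μh f + μg f * conj (μh g)

lemma RR_joint {f g h : V} {μf μg μh : V →ₗ[ℂ] ℂ} (hf : Joint P f μf) (hg : Joint P g μg)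
    (hh : Joint P h μh) : RR P f g h = - kap μf μg μh f g • h := by
  rw [RR, hh.2 g, hh.1 f, hf.2 g, hg.2 f, map_smul, map_smul, map_smul, adj_smul,
    LinearMap.smul_apply, LinearMap.smul_apply, hh.1 f, hh.2 g, kap, Complex.conj_conj]
  module

lemma QQ_joint {f g h w : V} {μf μg μh : V →ₗ[ℂ] ℂ} (hf : Joint P f μf) (hg : Joint P g μg)
    (hh : Joint P h μh) : QQ P f g h w = - kap μf μg μh f g * ⟪w, h⟫_ℂ := by
  rw [QQ, RR_joint hf hg hh, inner_smul_right]

lemma joint_orth {f g : V} {μf μg : V →ₗ[ℂ] ℂ} (hf : Joint P f μf) (hg : Joint P g μg)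
    (hne : μf ≠ μg) : ⟪g, f⟫_ℂ = 0 := by
  by_contra h0
  apply hne
  ext x
  have h1 : ⟪g, P x f⟫_ℂ = μf x * ⟪g, f⟫_ℂ := by rw [hf.1, inner_smul_right]
  have h2 : ⟪g, P x f⟫_ℂ = μg x * ⟪g, f⟫_ℂ := by
    rw [← inner_adj_left, hg.2, inner_smul_left, Complex.conj_conj]
  exact mul_right_cancel₀ h0 (h1.symm.trans h2)

lemma kap_zero {c : V →ₗ[ℂ] V →ₗ[ℂ] V} (hA : Alg P c) (hH : ∀ x, QQ P x x x x = 0)
    {f g h : V} {μf μg μh : V →ₗ[ℂ] ℂ} (hf : Joint P f μf) (hg : Joint P g μg)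
    (hh : Joint P h μh) (hf0 : f ≠ 0) (hg0 : g ≠ 0) (hh0 : h ≠ 0) :
    kap μf μg μh f g = 0 := by
  have hSS := (quart_QQ P).SS_zero hH
  have sf : μf f = 0 := eigen_self hA hf.2
  have sg : μg g = 0 := eigen_self hA hg.2
  have nf : ⟪f, f⟫_ℂ ≠ 0 := fun hh => hf0 (inner_self_eq_zero.mp hh)
  have nh : ⟪h, h⟫_ℂ ≠ 0 := fun hh' => hh0 (inner_self_eq_zero.mp hh')
  by_cases hfg : μf = μg
  · subst hfg
    rw [kap, sg, sf, map_zero]; ring
  have key : conj (μf g) * μg f = 0 := by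
    have h1 := hSS f g f f
    rw [SS, QQ_joint hf hg hf, QQ_joint hf hf hf, joint_orth hf hg hfg, kap, sf] at h1
    have h2 : (conj (μf g) * μg f) * ⟪f, f⟫_ℂ = 0 := by linear_combination (-1 / 2 : ℂ) * h1
    exact (mul_eq_zero.mp h2).resolve_right nf
  by_cases hhf : μh = μf
  · subst hhf
    rw [kap, sf]
    linear_combination key
  by_cases hhg : μh = μg
  · subst hhg
    rw [kap, sg, map_zero]
    linear_combination key
  have h1 := hSS f g h h
  rw [SS, QQ_joint hf hg hh, QQ_joint hh hg hf, QQ_joint hf hh hh, QQ_joint hh hh hf,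
    joint_orth hh hg hhg, joint_orth hf hh (Ne.symm hhf), joint_orth hf hg hfg] at h1
  have h2 : kap μf μg μh f g * ⟪h, h⟫_ℂ = 0 := by linear_combination (-1 : ℂ) * h1
  exact (mul_eq_zero.mp h2).resolve_right nh

end joint

/-- the curvature vanishes -/
theorem RR_zero [Nontrivial V] {P c : V →ₗ[ℂ] V →ₗ[ℂ] V} (h : Alg P c) (hc : Chain c)
    (hH : ∀ x, QQ P x x x x = 0) (x y z : V) : RR P x y z = 0 := by
  have hsp := span_joint h hc hH
  have hx : x ∈ Submodule.span ℂ {f : V | f ≠ 0 ∧ ∃ μ, Joint P f μ} := by rw [hsp]; trivial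
  have hy : y ∈ Submodule.span ℂ {f : V | f ≠ 0 ∧ ∃ μ, Joint P f μ} := by rw [hsp]; trivial
  have hz : z ∈ Submodule.span ℂ {f : V | f ≠ 0 ∧ ∃ μ, Joint P f μ} := by rw [hsp]; trivial
  have a1 : ∀ x x' y z, RR P (x + x') y z = RR P x y z + RR P x' y z := by
    intro x x' y z
    simp only [RR, map_add, adj_add, LinearMap.add_apply]
    abel
  have a2 : ∀ x y y' z, RR P x (y + y') z = RR P x y z + RR P x y' z := by
    intro x y y' z
    simp only [RR, map_add, adj_add, LinearMap.add_apply]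
    abel
  have a3 : ∀ x y z z', RR P x y (z + z') = RR P x y z + RR P x y z' := by
    intro x y z z'
    simp only [RR, map_add, adj_add, LinearMap.add_apply]
    abel
  have b1 : ∀ (t : ℂ) x y z, RR P (t • x) y z = t • RR P x y z := by
    intro t x y z
    simp only [RR, map_smul, adj_smul, LinearMap.smul_apply, Complex.conj_conj]
    module
  have b2 : ∀ (t : ℂ) x y z, RR P x (t • y) z = conj t • RR P x y z := by
    intro t x y z
    simp only [RR, map_smul, adj_smul, LinearMap.smul_apply, Complex.conj_conj]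
    module
  have b3 : ∀ (t : ℂ) x y z, RR P x y (t • z) = t • RR P x y z := by
    intro t x y z
    simp only [RR, map_smul, adj_smul, LinearMap.smul_apply, Complex.conj_conj]
    module
  induction hx using Submodule.span_induction with
  | zero => have := b1 0 0 y z; simpa using this
  | add a b _ _ ha hb => rw [a1, ha, hb, add_zero]
  | smul t a _ ha => rw [b1, ha, smul_zero]
  | mem f hf =>
    obtain ⟨hf0, μf, hf⟩ := hf
    induction hy using Submodule.span_induction with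
    | zero => have := b2 0 f 0 z; simpa using this
    | add a b _ _ ha hb => rw [a2, ha, hb, add_zero]
    | smul t a _ ha => rw [b2, ha, smul_zero]
    | mem g hg =>
      obtain ⟨hg0, μg, hg⟩ := hg
      induction hz using Submodule.span_induction with
      | zero => have := b3 0 f g 0; simpa using this
      | add a b _ _ ha hb => rw [a3, ha, hb, add_zero]
      | smul t a _ ha => rw [b3, ha, smul_zero]
      | mem k hk =>
        obtain ⟨hk0, μk, hk⟩ := hk
        rw [RR_joint hf hg hk, kap_zero h hH hf hg hk hf0 hg0 hk0, neg_zero, zero_smul]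

end Pool.Agent.K1H64.LH
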