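import Pool.Agent.K1H64.LH.Trace

/-!
Curvature of the Chern and of the Levi-Civita connection of a left invariant Hermitian structure.
-/

set_option autoImplicit false
set_option linter.unusedSimpArgs false

open Module
open scoped ComplexConjugate InnerProductSpace

noncomputable section

namespace Pool.Agent.K1H64.LH

variable {V : Type*} [NormedAddCommGroup V] [InnerProductSpace ℂ V]

/-- the curvature of a left invariant connection -/
def curvV (br Dv : V →ₗ[ℝ] V →ₗ[ℝ] V) (x y z : V) : V :=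
  Dv x (Dv y z) - Dv y (Dv x z) - Dv (br x y) z

section koszul

variable {br D : V →ₗ[ℝ] V →ₗ[ℝ] V}

/-- the Levi-Civita connection -/
structure LCV (br D : V →ₗ[ℝ] V →ₗ[ℝ] V) : Prop where
  met : ∀ x y z, (⟪D x y, z⟫_ℂ).re + (⟪y, D x z⟫_ℂ).re = 0
  tor : ∀ x y, D x y - D y x = br x y

lemma re_symm (x y : V) : (⟪x, y⟫_ℂ).re = (⟪y, x⟫_ℂ).re := by
  rw [← inner_conj_symm, Complex.conj_re]

lemma koszul (h : LCV br D) (x y z : V) :
    2 * (⟪D x y, z⟫_ℂ).re = (⟪br x y, z⟫_ℂ).re - (⟪br y z, x⟫_ℂ).re + (⟪br z x, y⟫_ℂ).re := by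
  rw [← h.tor x y, ← h.tor y z, ← h.tor z x]
  simp only [inner_sub_left, Complex.sub_re]
  have m1 := h.met x y z
  have m2 := h.met y z x
  have m3 := h.met z x y
  have s1 := re_symm y (D x z)
  have s2 := re_symm z (D y x)
  have s3 := re_symm x (D z y)
  linarith

lemma re_zero {v : V} (h : ∀ w, (⟪v, w⟫_ℂ).re = 0) : v = 0 := by
  have h1 := h v
  rw [inner_self_sq, Complex.ofReal_re] at h1
  exact norm_eq_zero.mp (pow_eq_zero_iff two_ne_zero |>.mp h1)

lemma lc_unique {D' : V →ₗ[ℝ] V →ₗ[ℝ] V} (h : LCV br D) (h' : LCV br D') (x y : V) :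
    D x y = D' x y := by
  rw [← sub_eq_zero]
  refine re_zero fun w => ?_
  rw [inner_sub_left, Complex.sub_re]
  have h1 := koszul h x y w
  have h2 := koszul h' x y w
  linarith

/-- a direction in which the adjoint action is skew has nonnegative sectional curvatures -/
lemma skew_curv (h : LCV br D) (hs : ∀ x, br x x = 0) {u : V}
    (hu : ∀ x y, (⟪br u x, y⟫_ℂ).re + (⟪x, br u y⟫_ℂ).re = 0) (v : V) :
    (⟪curvV br D u v v, u⟫_ℂ).re = ‖D v u‖ ^ 2 := by
  have hsk : ∀ x y, br y x = - br x y := by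
    intro x y
    have h1 := hs (x + y)
    simp only [map_add, LinearMap.add_apply, hs, zero_add, add_zero] at h1
    rw [eq_neg_iff_add_eq_zero, ← h1]
  have hDuu : D u u = 0 := by
    refine re_zero fun w => ?_
    have h1 := koszul h u u w
    rw [hs, hsk u w] at h1
    have h2 := hu w u
    rw [hs, inner_zero_right, Complex.zero_re, add_zero] at h2
    simp only [inner_zero_left, Complex.zero_re, inner_neg_left, Complex.neg_re] at h1
    linarith
  have hDw : ∀ w z, 2 * (⟪D w u, z⟫_ℂ).re = (⟪br z w, u⟫_ℂ).re := by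
    intro w z
    have h1 := koszul h w u z
    have h2 := hu w z
    rw [hsk u w] at h1
    simp only [inner_neg_left, Complex.neg_re] at h1
    have h3 := re_symm w (br u z)
    linarith
  have e1 : (⟪D u (D v v), u⟫_ℂ).re = 0 := by
    have := h.met u (D v v) u
    rw [hDuu, inner_zero_right, Complex.zero_re, add_zero] at this
    exact this
  have e2 : (⟪D v (D u v), u⟫_ℂ).re = - (⟪D u v, D v u⟫_ℂ).re := by
    have := h.met v (D u v) u
    linarith
  have e3 : (⟪D (br u v) v, u⟫_ℂ).re = - (⟪v, D (br u v) u⟫_ℂ).re := by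
    have := h.met (br u v) v u
    linarith
  have e4 : D u v = D v u + br u v := by rw [← h.tor u v]; abel
  have e5 := hDw (br u v) v
  have e6 := hDw v (br u v)
  have e7 := re_symm v (D (br u v) u)
  have e8 := re_symm (br u v) (D v u)
  rw [curvV, inner_sub_left, inner_sub_left, Complex.sub_re, Complex.sub_re, e1, e2, e3, e4,
    inner_add_left, Complex.add_re, inner_self_sq, Complex.ofReal_re]
  rw [hsk v (br u v)] at e6
  simp only [inner_neg_left, Complex.neg_re] at e6
  linarith

end koszul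

variable [FiniteDimensional ℂ V]

lemma Geo.curv_eq {br Dv : V →ₗ[ℝ] V →ₗ[ℝ] V} (G : Geo br Dv) (x y z : V) :
    curvV br Dv x y z = RR G.P x y z - RR G.P y x z := by
  have h1 : adj G.P (G.c x y) z = adj G.P y (adj G.P x z) - adj G.P x (adj G.P y z) := by
    rw [← sub_eq_zero, ← (G.jac_all x y z).2.2]; abel
  have h2 := G.rep x y z
  rw [curvV, G.br_eq]
  simp only [G.D_eq', map_add, map_sub, adj_add, adj_sub, LinearMap.add_apply,
    LinearMap.sub_apply, RR, h1, h2]
  abel

lemma RR_I_left (P : V →ₗ[ℂ] V →ₗ[ℂ] V) (x y z : V) :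
    RR P (Complex.I • x) y z = Complex.I • RR P x y z := by
  simp only [RR, map_smul, adj_I, LinearMap.smul_apply, LinearMap.neg_apply, map_neg, adj_neg,
    smul_neg, neg_neg]
  module

lemma RR_I_mid (P : V →ₗ[ℂ] V →ₗ[ℂ] V) (x y z : V) :
    RR P x (Complex.I • y) z = - (Complex.I • RR P x y z) := by
  simp only [RR, map_smul, adj_I, LinearMap.smul_apply, LinearMap.neg_apply, map_neg, adj_neg,
    smul_neg, neg_neg]
  module

lemma RR_I_right (P : V →ₗ[ℂ] V →ₗ[ℂ] V) (x y z : V) :
    RR P x y (Complex.I • z) = Complex.I • RR P x y z := by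
  simp only [RR, map_smul, adj_I, LinearMap.smul_apply, LinearMap.neg_apply, map_neg, adj_neg,
    smul_neg, neg_neg]
  module

lemma Geo.hsc_eq {br Dv : V →ₗ[ℝ] V →ₗ[ℝ] V} (G : Geo br Dv) (x : V) :
    ((⟪curvV br Dv x (Complex.I • x) (Complex.I • x), x⟫_ℂ).re : ℂ) = 2 * QQ G.P x x x x := by
  have h1 : curvV br Dv x (Complex.I • x) (Complex.I • x) = (2 : ℂ) • RR G.P x x x := by
    rw [G.curv_eq, RR_I_mid, RR_I_right, RR_I_left, RR_I_right, I_smul_I_smul]
    module
  have h2 := QQ_conj G.P x x x x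
  rw [h1, inner_smul_left, ← inner_conj_symm, ← QQ, h2]
  have h3 : (QQ G.P x x x x).im = 0 := by
    have := congrArg Complex.im h2
    rw [Complex.conj_im] at this
    linarith
  apply Complex.ext
  · simp
  · simp [h3]

/-- the contorsion -/
def KT (T : V →ₗ[ℂ] V →ₗ[ℂ] V) (x y : V) : V := (1 / 2 : ℂ) • (- T x y + adj T x y + adj T y x)

/-- the Levi-Civita connection in terms of the Chern connection -/
def lcMap (Dv : V →ₗ[ℝ] V →ₗ[ℝ] V) (T : V →ₗ[ℂ] V →ₗ[ℂ] V) : V →ₗ[ℝ] V →ₗ[ℝ] V :=
  LinearMap.mk₂ ℝ (fun x y => Dv x y + KT T x y)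
    (by
      intro x x' y
      simp only [KT, map_add, adj_add, LinearMap.add_apply]
      module)
    (by
      intro r x y
      simp only [KT, real_smul_eq]
      have : Dv ((r : ℂ) • x) y = (r : ℂ) • Dv x y := by
        rw [← real_smul_eq, map_smul, LinearMap.smul_apply, real_smul_eq]
      rw [this]
      simp only [map_smul, adj_smul, LinearMap.smul_apply, Complex.conj_ofReal]
      module)
    (by
      intro x y y'
      simp only [KT, map_add, adj_add, LinearMap.add_apply]
      module)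
    (by
      intro r x y
      simp only [KT, real_smul_eq]
      have : Dv x ((r : ℂ) • y) = (r : ℂ) • Dv x y := by
        rw [← real_smul_eq, map_smul, real_smul_eq]
      rw [this]
      simp only [map_smul, adj_smul, LinearMap.smul_apply, Complex.conj_ofReal]
      module)

lemma lcMap_apply (Dv : V →ₗ[ℝ] V →ₗ[ℝ] V) (T : V →ₗ[ℂ] V →ₗ[ℂ] V) (x y : V) :
    lcMap Dv T x y = Dv x y + KT T x y := rfl

omit [FiniteDimensional ℂ V] in
lemma Geo.Tor_skew {br Dv : V →ₗ[ℝ] V →ₗ[ℝ] V} (G : Geo br Dv) (x y : V) :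
    Tor G.P G.c y x = - Tor G.P G.c x y := by
  rw [G.Tor_eq, G.Tor_eq, rT_apply, rT_apply, G.br_skew x y]
  abel

lemma Geo.lc {br Dv : V →ₗ[ℝ] V →ₗ[ℝ] V} (G : Geo br Dv) : LCV br (lcMap Dv (Tor G.P G.c)) where
  met x y z := by
    rw [lcMap_apply, lcMap_apply, inner_add_left, inner_add_right, Complex.add_re, Complex.add_re]
    have h1 := G.met x y z
    have h2 : (⟪KT (Tor G.P G.c) x y, z⟫_ℂ).re + (⟪y, KT (Tor G.P G.c) x z⟫_ℂ).re = 0 := by
      have hh : ∀ t : ℂ, ((1 / 2 : ℂ) * t).re = t.re / 2 := by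
        intro t
        have : (1 / 2 : ℂ) = ((1 / 2 : ℝ) : ℂ) := by push_cast; ring
        rw [this, Complex.re_ofReal_mul]; ring
      simp only [KT, inner_smul_left, inner_smul_right, inner_add_left, inner_add_right,
        inner_neg_left, inner_neg_right, inner_adj_left, inner_adj_right, map_div₀, map_one,
        map_ofNat, hh, Complex.add_re, Complex.neg_re]
      rw [G.Tor_skew z y, inner_neg_right, Complex.neg_re, re_symm x]
      rw [re_symm (Tor G.P G.c z y) x]
      linarith [re_symm x (Tor G.P G.c z y)]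
    linarith
  tor x y := by
    rw [lcMap_apply, lcMap_apply]
    have h1 := G.Tor_eq x y
    rw [rT_apply] at h1
    have h2 : KT (Tor G.P G.c) x y - KT (Tor G.P G.c) y x = - Tor G.P G.c x y := by
      rw [KT, KT, G.Tor_skew x y]
      module
    have h3 : Dv x y + KT (Tor G.P G.c) x y - (Dv y x + KT (Tor G.P G.c) y x)
        = (Dv x y - Dv y x) + (KT (Tor G.P G.c) x y - KT (Tor G.P G.c) y x) := by abel
    rw [h3, h2, h1]
    abel

omit [FiniteDimensional ℂ V] in
lemma curv_metric {br D : V →ₗ[ℝ] V →ₗ[ℝ] V}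
    (h : ∀ x y z, (⟪D x y, z⟫_ℂ).re + (⟪y, D x z⟫_ℂ).re = 0) (x y : V) :
    (⟪curvV br D x y y, x⟫_ℂ).re = - (⟪D y y, D x x⟫_ℂ).re + (⟪D x y, D y x⟫_ℂ).re
      - (⟪D (br x y) y, x⟫_ℂ).re := by
  rw [curvV, inner_sub_left, inner_sub_left, Complex.sub_re, Complex.sub_re]
  have h1 := h x (D y y) x
  have h2 := h y (D x y) x
  linarith

lemma Geo.hsc_lc {br Dv : V →ₗ[ℝ] V →ₗ[ℝ] V} (G : Geo br Dv) (x : V) :
    ((⟪curvV br (lcMap Dv (Tor G.P G.c)) x (Complex.I • x) (Complex.I • x), x⟫_ℂ).re : ℂ)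
      = FF G.P (Tor G.P G.c) x x x x := by
  set T := Tor G.P G.c with hT
  have hTxx : ∀ x, T x x = 0 := by
    intro x
    have h2 : (2 : ℂ) • T x x = 0 := by
      have := G.Tor_skew x x
      rw [← hT] at this
      have h3 : (2 : ℂ) • T x x = T x x + T x x := by module
      rw [h3]
      nth_rewrite 1 [this]
      rw [neg_add_cancel]
    exact (smul_eq_zero.mp h2).resolve_left two_ne_zero
  have k1 : KT T x x = adj T x x := by
    rw [KT, hTxx]; module
  have k2 : KT T (Complex.I • x) (Complex.I • x) = adj T x x := by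
    rw [KT, map_smul, map_smul, map_smul, LinearMap.smul_apply, hTxx, adj_I, LinearMap.neg_apply,
      LinearMap.smul_apply, smul_zero, smul_zero, smul_neg, I_smul_I_smul]
    module
  have k3 : KT T x (Complex.I • x) = 0 := by
    rw [KT, map_smul, map_smul, hTxx, adj_I, LinearMap.neg_apply, LinearMap.smul_apply]
    module
  have k4 : KT T (Complex.I • x) x = 0 := by
    rw [KT, map_smul, LinearMap.smul_apply, map_smul, hTxx, adj_I, LinearMap.neg_apply,
      LinearMap.smul_apply]
    module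
  have e1 := curv_metric (br := br) G.lc.met x (Complex.I • x)
  have e2 := curv_metric (br := br) G.met x (Complex.I • x)
  have e3 := G.hsc_eq x
  -- the bracket
  have hw : br x (Complex.I • x) = Complex.I • Dv x x - Dv (Complex.I • x) x := by
    have := G.Tor_eq x (Complex.I • x)
    rw [← hT, map_smul, hTxx, smul_zero, rT_apply, G.cplx] at this
    rw [← sub_eq_zero, ← neg_eq_zero, this]
    abel
  set w := br x (Complex.I • x) with hwdef
  have k5 : (⟪KT T w (Complex.I • x), x⟫_ℂ).re = - (⟪adj T x x, w⟫_ℂ).im := by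
    have hh : ∀ t : ℂ, ((1 / 2 : ℂ) * t).re = t.re / 2 := by
      intro t
      have : (1 / 2 : ℂ) = ((1 / 2 : ℝ) : ℂ) := by push_cast; ring
      rw [this, Complex.re_ofReal_mul]; ring
    have t1 : T w x = - T x w := by
      have := G.Tor_skew x w
      rwa [← hT] at this
    have t2 : (⟪T x w, x⟫_ℂ) = conj (⟪adj T x x, w⟫_ℂ) := by
      rw [inner_adj_left, inner_conj_symm]
    have t3 : (⟪x, T x w⟫_ℂ) = ⟪adj T x x, w⟫_ℂ := by
      rw [inner_adj_left]
    rw [KT, inner_smul_left, inner_add_left, inner_add_left, inner_neg_left, inner_adj_left,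
      inner_adj_left, map_smul, map_smul, LinearMap.smul_apply, inner_smul_left, inner_smul_left,
      inner_smul_right, hTxx, t1, inner_neg_left, inner_neg_right, t2, t3, Complex.conj_I]
    simp only [map_div₀, map_one, map_ofNat, hh, smul_zero, inner_zero_right, Complex.add_re,
      Complex.neg_re, Complex.mul_re, Complex.I_re, Complex.I_im, Complex.conj_re,
      Complex.conj_im, Complex.neg_im, Complex.zero_re, Complex.mul_im, mul_zero]
    ring
  rw [← hT, lcMap_apply, lcMap_apply, lcMap_apply, lcMap_apply, lcMap_apply, k1, k2, k3, k4,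
    add_zero, add_zero, inner_add_left, inner_add_left, inner_add_right, inner_add_right,
    G.cplx (Complex.I • x) x] at e1
  rw [G.cplx (Complex.I • x) x] at e2
  simp only [Complex.add_re] at e1
  rw [k5, hw] at e1
  rw [← hw] at e1
  set S := adj T x x with hS
  have f1 : (⟪S, w⟫_ℂ).im = (⟪S, Dv x x⟫_ℂ).re - (⟪S, Dv (Complex.I • x) x⟫_ℂ).im := by
    rw [hw, inner_sub_right, inner_smul_right]
    simp only [Complex.sub_im, Complex.mul_im, Complex.I_re, Complex.I_im]
    ring
  have f2 : (⟪Complex.I • Dv (Complex.I • x) x, S⟫_ℂ).re = - (⟪S, Dv (Complex.I • x) x⟫_ℂ).im := by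
    rw [inner_smul_left, ← inner_conj_symm, Complex.conj_I]
    simp only [Complex.mul_re, Complex.neg_re, Complex.neg_im, Complex.I_re, Complex.I_im,
      Complex.conj_re, Complex.conj_im]
    ring
  have f3 : (⟪S, S⟫_ℂ).re = ‖S‖ ^ 2 := by rw [inner_self_sq, Complex.ofReal_re]
  have f4 : (⟪curvV br (lcMap Dv T) x (Complex.I • x) (Complex.I • x), x⟫_ℂ).re
      = (⟪curvV br Dv x (Complex.I • x) (Complex.I • x), x⟫_ℂ).re - ‖S‖ ^ 2 := by
    rw [e1, e2, f1, f2, f3]
    ring
  rw [f4, FF, ← e3, ← hS, inner_self_sq]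
  push_cast
  ring

end Pool.Agent.K1H64.LH
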