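import Mathlib

/-!
A polynomial in an endomorphism that is idempotent modulo an invariant subspace.
-/

set_option autoImplicit false

open Polynomial

noncomputable section

namespace Pool.Agent.K1H64.LH

lemma aeval_mem {K M : Type*} [Field K] [AddCommGroup M] [Module K M] (f : Module.End K M)
    (S : Submodule K M) (hS : ∀ v ∈ S, f v ∈ S) (p : K[X]) : ∀ v ∈ S, aeval f p v ∈ S := by
  induction p using Polynomial.induction_on' with
  | add p q hp hq =>
    intro v hv
    rw [map_add, LinearMap.add_apply]
    exact S.add_mem (hp v hv) (hq v hv)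
  | monomial n a =>
    intro v hv
    rw [aeval_monomial, Module.End.mul_apply, Module.algebraMap_end_apply]
    refine S.smul_mem _ ?_
    induction n with
    | zero => simpa using hv
    | succ n ih => rw [pow_succ', Module.End.mul_apply]; exact hS _ ih

lemma exists_idem_poly {K M : Type*} [Field K] [AddCommGroup M] [Module K M]
    [FiniteDimensional K M] (f : Module.End K M) (S : Submodule K M) (hS : ∀ v ∈ S, f v ∈ S)
    (hn : ¬ ∃ k : ℕ, ∀ v, (f ^ k) v ∈ S) :
    ∃ p : K[X], (∀ v, aeval f (p * X) (aeval f (p * X) v) - aeval f (p * X) v ∈ S) ∧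
      ∃ v, aeval f (p * X) v ∉ S := by
  have hS' : S ≤ S.comap f := fun v hv => hS v hv
  let F : Module.End K (M ⧸ S) := S.mapQ S f hS'
  have hF : ∀ v, F (S.mkQ v) = S.mkQ (f v) := fun v => rfl
  have hFp : ∀ (k : ℕ) v, (F ^ k) (S.mkQ v) = S.mkQ ((f ^ k) v) := by
    intro k
    induction k with
    | zero => intro v; simp
    | succ k ih =>
      intro v
      rw [pow_succ', Module.End.mul_apply, ih, hF, pow_succ', Module.End.mul_apply]
  have hFa : ∀ (p : K[X]) v, aeval F p (S.mkQ v) = S.mkQ (aeval f p v) := by
    intro p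
    induction p using Polynomial.induction_on' with
    | add p q hp hq => intro v; rw [map_add, map_add, LinearMap.add_apply, LinearMap.add_apply,
        hp, hq, map_add]
    | monomial n a => intro v; rw [aeval_monomial, aeval_monomial, Module.End.mul_apply,
        Module.End.mul_apply, Module.algebraMap_end_apply, Module.algebraMap_end_apply, hFp,
        map_smul]
  have hmem : ∀ v, S.mkQ v = 0 ↔ v ∈ S := fun v => by
    rw [Submodule.mkQ_apply, Submodule.Quotient.mk_eq_zero]
  have hq0 : minpoly K F ≠ 0 := minpoly.ne_zero (Algebra.IsIntegral.isIntegral F)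
  obtain ⟨r, hr, hndvd⟩ := exists_eq_pow_rootMultiplicity_mul_and_not_dvd (minpoly K F) hq0 0
  rw [C_0, sub_zero] at hr hndvd
  set n := rootMultiplicity 0 (minpoly K F)
  have hcop : IsCoprime (X ^ (n + 1) : K[X]) r :=
    IsCoprime.pow_left ((Irreducible.coprime_iff_not_dvd irreducible_X).mpr hndvd)
  obtain ⟨a, b, hab⟩ := hcop
  have hann : aeval F (minpoly K F) = 0 := minpoly.aeval K F
  refine ⟨a * X ^ n, ?_, ?_⟩
  · intro v
    rw [← hmem, map_sub, sub_eq_zero]
    have h1 : (a * X ^ n * X) * (a * X ^ n * X) = a * X ^ n * X - (a * b * X) * minpoly K F := by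
      rw [hr]
      linear_combination (a * X ^ n * X) * hab
    have h2 : aeval F (a * X ^ n * X) * aeval F (a * X ^ n * X) = aeval F (a * X ^ n * X) := by
      rw [← map_mul, h1, map_sub, map_mul _ (a * b * X), hann, mul_zero, sub_zero]
    rw [← hFa, ← hFa, ← Module.End.mul_apply, h2]
  · by_contra hcon
    push Not at hcon
    have h3 : aeval F (a * X ^ n * X) = 0 := by
      ext v
      rw [LinearMap.comp_apply, LinearMap.comp_apply, hFa, LinearMap.zero_apply, hmem]
      exact hcon v
    have h4 : minpoly K F ∣ a * X ^ n * X := minpoly.dvd K F h3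
    have h5 : r ∣ a * X ^ n * X := (Dvd.intro_left _ hr.symm).trans h4
    have h6 : r ∣ 1 := by
      have h7 : (1 : K[X]) = a * X ^ n * X + b * r := by
        rw [← hab]; ring
      rw [h7]
      exact dvd_add h5 (Dvd.intro_left _ rfl)
    apply hn
    refine ⟨n, fun v => ?_⟩
    obtain ⟨s, hs⟩ := h6
    have h8 : (X : K[X]) ^ n = minpoly K F * s := by
      rw [hr, mul_assoc, ← hs, mul_one]
    have h9 : F ^ n = 0 := by
      have := congrArg (aeval F) h8
      rw [map_mul, hann, zero_mul, map_pow, aeval_X] at this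
      exact this
    rw [← hmem, ← hFp, h9, LinearMap.zero_apply]

end Pool.Agent.K1H64.LH
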