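import Pool.Agent.K1H64.LH.Model

/-!
Constant holomorphic sectional curvature on Lie-Hermitian manifolds: transport to the Lie algebra.
-/

set_option autoImplicit false
set_option linter.unusedSimpArgs false

open Module TensorProduct
open scoped ComplexConjugate InnerProductSpace

noncomputable section

namespace Pool.Agent.K1H64.LH

universe u

section general

variable {V : Type*} [NormedAddCommGroup V] [InnerProductSpace ℂ V] [FiniteDimensional ℂ V]
variable {br Dv : V →ₗ[ℝ] V →ₗ[ℝ] V}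

lemma Geo.c_eq (G : Geo br Dv) (x y : V) :
    G.c x y = (1 / 2 : ℂ) • (br x y - br (Complex.I • x) (Complex.I • y)) := by
  rw [G.br_eq x y, G.br_eq (Complex.I • x) (Complex.I • y)]
  simp only [map_smul, adj_I, LinearMap.smul_apply, LinearMap.neg_apply, smul_neg, neg_neg,
    I_smul_I_smul]
  module

lemma Geo.A_eq (G : Geo br Dv) (x y : V) :
    adj G.P x y = - ((1 / 2 : ℂ) • (br x y + Complex.I • br (Complex.I • x) y)) := by
  rw [G.br_eq x y, G.br_eq (Complex.I • x) y]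
  simp only [map_smul, adj_I, LinearMap.smul_apply, LinearMap.neg_apply, smul_neg, neg_neg,
    smul_add, smul_sub, I_smul_I_smul]
  module

/-- the Chern connection is unique -/
lemma Geo.unique {Dv' : V →ₗ[ℝ] V →ₗ[ℝ] V} (G : Geo br Dv) (G' : Geo br Dv') (x y : V) :
    Dv x y = Dv' x y := by
  have h1 : ∀ x y, adj G.P x y = adj G'.P x y := by
    intro x y
    rw [G.A_eq, G'.A_eq]
  have h2 : ∀ x y, G.P x y = G'.P x y := by
    intro x y
    refine ext_inner_right ℂ fun w => ?_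
    rw [← inner_adj_right, h1, inner_adj_right]
  rw [G.D_eq', G'.D_eq', h1, h2]

end general

variable {g : Type u} [LieRing g] [LieAlgebra ℝ g]

/-- the bracket as a bilinear map -/
def adL (g : Type u) [LieRing g] [LieAlgebra ℝ g] : g →ₗ[ℝ] g →ₗ[ℝ] g :=
  LinearMap.mk₂ ℝ (fun x y => ⁅x, y⁆) (fun x x' y => add_lie x x' y) (fun r x y => smul_lie r x y)
    (fun x y y' => lie_add x y y') (fun r x y => lie_smul r x y)

lemma adL_apply (x y : g) : adL g x y = ⁅x, y⁆ := rfl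

lemma adL_eq (x : g) : adL g x = LieAlgebra.ad ℝ g x := by
  ext y
  rfl

section conj2

variable {V : Type*} [AddCommGroup V] [Module ℝ V]

/-- transport of a bilinear map -/
def conj2 (φ : g ≃ₗ[ℝ] V) (F : g →ₗ[ℝ] g →ₗ[ℝ] g) : V →ₗ[ℝ] V →ₗ[ℝ] V :=
  LinearMap.mk₂ ℝ (fun v w => φ (F (φ.symm v) (φ.symm w)))
    (by intro x x' y; simp) (by intro r x y; simp) (by intro x y y'; simp) (by intro r x y; simp)

lemma conj2_phi (φ : g ≃ₗ[ℝ] V) (F : g →ₗ[ℝ] g →ₗ[ℝ] g) (x y : g) :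
    conj2 φ F (φ x) (φ y) = φ (F x y) := by
  simp [conj2]

lemma conj2_eq (φ : g ≃ₗ[ℝ] V) (F : g →ₗ[ℝ] g →ₗ[ℝ] g) (x : g) :
    conj2 φ F (φ x) = φ.conj (F x) := by
  ext v
  obtain ⟨y, rfl⟩ := φ.surjective v
  rw [conj2_phi, LinearEquiv.conj_apply]
  simp

lemma trace_conj2 (φ : g ≃ₗ[ℝ] V) (F : g →ₗ[ℝ] g →ₗ[ℝ] g) (x : g) :
    LinearMap.trace ℝ V (conj2 φ F (φ x)) = LinearMap.trace ℝ g (F x) := by
  rw [conj2_eq, LinearMap.trace_conj']

end conj2

variable {J : g →ₗ[ℝ] g} {B : g →ₗ[ℝ] g →ₗ[ℝ] ℝ}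

lemma I_phi (H : LieHermitian J B) (x : g) : Complex.I • phi H x = phi H (J x) := (phi_J H x).symm

lemma re_phi (H : LieHermitian J B) (x y : g) : (⟪phi H x, phi H y⟫_ℂ).re = B x y := by
  rw [phi_inner]; simp

lemma norm_phi [FiniteDimensional ℝ g] (H : LieHermitian J B) (x : g) : ‖phi H x‖ ^ 2 = B x x := by
  have h1 := inner_self_sq (phi H x)
  have h2 := congrArg Complex.re h1
  rw [re_phi, Complex.ofReal_re] at h2
  exact h2.symm

/-- the bracket on the model space -/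
def mbr (H : LieHermitian J B) : VV H →ₗ[ℝ] VV H →ₗ[ℝ] VV H := conj2 (phi H) (adL g)

lemma mbr_phi (H : LieHermitian J B) (x y : g) : mbr H (phi H x) (phi H y) = phi H ⁅x, y⁆ := by
  rw [mbr, conj2_phi, adL_apply]

lemma brk (H : LieHermitian J B) : Brk (mbr H) where
  skew v := by
    obtain ⟨x, rfl⟩ := (phi H).surjective v
    rw [mbr_phi, lie_self, map_zero]
  jac v w u := by
    obtain ⟨x, rfl⟩ := (phi H).surjective v
    obtain ⟨y, rfl⟩ := (phi H).surjective w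
    obtain ⟨z, rfl⟩ := (phi H).surjective u
    simp only [mbr_phi, ← map_add]
    rw [leibniz_lie]
  nij v w := by
    obtain ⟨x, rfl⟩ := (phi H).surjective v
    obtain ⟨y, rfl⟩ := (phi H).surjective w
    simp only [I_phi, mbr_phi, ← map_add, ← map_sub]
    rw [H.integrable, map_zero]

lemma geo (H : LieHermitian J B) {D : g →ₗ[ℝ] g →ₗ[ℝ] g} (hD : IsChern J B D) :
    Geo (mbr H) (conj2 (phi H) D) where
  skew := (brk H).skew
  jac := (brk H).jac
  nij := (brk H).nij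
  met v w u := by
    obtain ⟨x, rfl⟩ := (phi H).surjective v
    obtain ⟨y, rfl⟩ := (phi H).surjective w
    obtain ⟨z, rfl⟩ := (phi H).surjective u
    rw [conj2_phi, conj2_phi, re_phi, re_phi, hD.metric]
  cplx v w := by
    obtain ⟨x, rfl⟩ := (phi H).surjective v
    obtain ⟨y, rfl⟩ := (phi H).surjective w
    rw [I_phi, conj2_phi, conj2_phi, I_phi, hD.complex]
  typ v w := by
    obtain ⟨x, rfl⟩ := (phi H).surjective v
    obtain ⟨y, rfl⟩ := (phi H).surjective w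
    simp only [I_phi, conj2_phi, mbr_phi, ← map_sub, ← map_neg]
    exact congrArg (phi H) (hD.torsion x y)

lemma lcv (H : LieHermitian J B) {D : g →ₗ[ℝ] g →ₗ[ℝ] g} (hD : IsLeviCivita B D) :
    LCV (mbr H) (conj2 (phi H) D) where
  met v w u := by
    obtain ⟨x, rfl⟩ := (phi H).surjective v
    obtain ⟨y, rfl⟩ := (phi H).surjective w
    obtain ⟨z, rfl⟩ := (phi H).surjective u
    rw [conj2_phi, conj2_phi, re_phi, re_phi, hD.metric]
  tor v w := by
    obtain ⟨x, rfl⟩ := (phi H).surjective v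
    obtain ⟨y, rfl⟩ := (phi H).surjective w
    simp only [conj2_phi, mbr_phi, ← map_sub]
    have := hD.torsion x y
    rw [torsion, sub_eq_zero] at this
    rw [this]

lemma curv_phi (H : LieHermitian J B) (D : g →ₗ[ℝ] g →ₗ[ℝ] g) (x y z : g) :
    curvV (mbr H) (conj2 (phi H) D) (phi H x) (phi H y) (phi H z) = phi H (curvature D x y z) := by
  rw [curvV, curvature]
  simp only [mbr_phi, conj2_phi, map_sub]

lemma hsc_phi [FiniteDimensional ℝ g] (H : LieHermitian J B) (D : g →ₗ[ℝ] g →ₗ[ℝ] g) {a : ℝ}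
    (h : ConstantHSC J B D a) (v : VV H) :
    (⟪curvV (mbr H) (conj2 (phi H) D) v (Complex.I • v) (Complex.I • v), v⟫_ℂ).re
      = a * (‖v‖ ^ 2) ^ 2 := by
  obtain ⟨x, rfl⟩ := (phi H).surjective v
  rw [I_phi, curv_phi, re_phi, norm_phi]
  exact h x

lemma uni_phi (H : LieHermitian J B) (hu : Unimodular g) (v : VV H) :
    LinearMap.trace ℝ (VV H) (mbr H v) = 0 := by
  obtain ⟨x, rfl⟩ := (phi H).surjective v
  rw [mbr, trace_conj2, adL_eq]
  exact hu x

section fin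

variable [FiniteDimensional ℝ g]

/-- the Ricci condition -/
def RicV (H : LieHermitian J B) {Dv : VV H →ₗ[ℝ] VV H →ₗ[ℝ] VV H} (G : Geo (mbr H) Dv) : Prop :=
  ∀ v w, (LinearMap.trace ℂ (VV H) (G.P (mbr H v w))).im = 0

lemma ric_of_flat (H : LieHermitian J B) (hu : Unimodular g) (hr : ChernRicciFlat J)
    {Dv : VV H →ₗ[ℝ] VV H →ₗ[ℝ] VV H} (G : Geo (mbr H) Dv) : RicV H G := by
  intro v w
  obtain ⟨x, rfl⟩ := (phi H).surjective v
  obtain ⟨y, rfl⟩ := (phi H).surjective w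
  rw [mbr_phi]
  let JJ : VV H →ₗ[ℝ] VV H := (phi H).conj J
  have hJJ : ∀ v, JJ v = Complex.I • v := by
    intro v
    obtain ⟨x, rfl⟩ := (phi H).surjective v
    change (phi H) (J ((phi H).symm (phi H x))) = _
    rw [LinearEquiv.symm_apply_apply, I_phi]
  have h1 := G.trace_Jbr JJ hJJ (phi H ⁅x, y⁆)
  have h2 : JJ ∘ₗ mbr H (phi H ⁅x, y⁆) = (phi H).conj (J ∘ₗ LieAlgebra.ad ℝ g ⁅x, y⁆) := by
    ext v
    obtain ⟨z, rfl⟩ := (phi H).surjective v
    rw [LinearMap.comp_apply, mbr_phi, hJJ, I_phi, LinearEquiv.conj_apply]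
    simp
  rw [h2, LinearMap.trace_conj', hr x y, G.uni (uni_phi H hu), Complex.sub_im, Complex.conj_im] at h1
  linarith

lemma ric_of_abelian (H : LieHermitian J B) (hu : Unimodular g) (hr : AbelianJ J)
    {Dv : VV H →ₗ[ℝ] VV H →ₗ[ℝ] VV H} (G : Geo (mbr H) Dv) : G.c = 0 ∧ RicV H G := by
  have hc : G.c = 0 := by
    ext v w
    obtain ⟨x, rfl⟩ := (phi H).surjective v
    obtain ⟨y, rfl⟩ := (phi H).surjective w
    rw [G.c_eq, I_phi, I_phi, mbr_phi, mbr_phi, hr x y, sub_self, smul_zero]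
    rfl
  refine ⟨hc, fun v w => ?_⟩
  rw [← G.uni (uni_phi H hu), hc, LinearMap.zero_apply, map_zero, Complex.zero_im]

/-- an eigenvector of `adj P` gives an eigenvector in the complexification -/
lemma eig_lift (H : LieHermitian J B) {Dv : VV H →ₗ[ℝ] VV H →ₗ[ℝ] VV H} (G : Geo (mbr H) Dv)
    (x : g) {ν : ℂ} {f : VV H} (hf0 : f ≠ 0) (hf : adj G.P (phi H x) f = ν • f) :
    ∃ m : ℂ ⊗[ℝ] g, m ≠ 0 ∧ ⁅(1 : ℂ) ⊗ₜ[ℝ] x + Complex.I ⊗ₜ[ℝ] (J x), m⁆ = (-2 * ν) • m := by
  set X : ℂ ⊗[ℝ] g := (1 : ℂ) ⊗ₜ[ℝ] x + Complex.I ⊗ₜ[ℝ] (J x) with hX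
  let π : ℂ ⊗[ℝ] g →ₗ[ℂ] VV H := LinearMap.liftBaseChange ℂ (phi H).toLinearMap
  have hπ : ∀ (z : ℂ) (y : g), π (z ⊗ₜ[ℝ] y) = z • phi H y := fun z y =>
    LinearMap.liftBaseChange_tmul ℂ _ _ _
  have hsurj : Function.Surjective π := by
    intro v
    obtain ⟨y, rfl⟩ := (phi H).surjective v
    exact ⟨1 ⊗ₜ[ℝ] y, by rw [hπ, one_smul]⟩
  have hadd : ∀ a b : ℂ ⊗[ℝ] g, ⁅X, a + b⁆ = ⁅X, a⁆ + ⁅X, b⁆ := fun a b => lie_add X a b
  have hzero : ⁅X, (0 : ℂ ⊗[ℝ] g)⁆ = 0 := lie_zero X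
  have hadd' : ∀ a b c : ℂ ⊗[ℝ] g, ⁅a + b, c⁆ = ⁅a, c⁆ + ⁅b, c⁆ := fun a b c => add_lie a b c
  have hcomm : ∀ Y, π ⁅X, Y⁆ = (-2 : ℂ) • adj G.P (phi H x) (π Y) := by
    intro Y
    induction Y using TensorProduct.induction_on with
    | zero => rw [hzero, map_zero, map_zero, smul_zero]
    | add a b ha hb => rw [hadd, map_add, ha, hb, map_add, map_add, smul_add]
    | tmul z y =>
      rw [hX, hadd', LieAlgebra.ExtendScalars.bracket_tmul,
        LieAlgebra.ExtendScalars.bracket_tmul, map_add, hπ, hπ, hπ, map_smul, G.A_eq, I_phi,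
        mbr_phi, mbr_phi, one_mul]
      module
  by_contra hcon
  push Not at hcon
  have hinj : Function.Injective
      ((LieModule.toEnd ℂ (ℂ ⊗[ℝ] g) (ℂ ⊗[ℝ] g) X) - (-2 * ν) • (LinearMap.id : ℂ ⊗[ℝ] g →ₗ[ℂ] _)) := by
    rw [injective_iff_map_eq_zero]
    intro w hw
    by_contra hw0
    refine hcon w hw0 ?_
    rw [LinearMap.sub_apply, LinearMap.smul_apply, LinearMap.id_apply, LieModule.toEnd_apply_apply,
      sub_eq_zero] at hw
    exact hw
  have hsurj1 := LinearMap.injective_iff_surjective.mp hinj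
  have hsurj2 : Function.Surjective (adj G.P (phi H x) - ν • (LinearMap.id : VV H →ₗ[ℂ] VV H)) := by
    intro q
    obtain ⟨w, hw⟩ := hsurj ((-2 : ℂ) • q)
    obtain ⟨w', hw'⟩ := hsurj1 w
    refine ⟨π w', ?_⟩
    have h1 := congrArg π hw'
    rw [LinearMap.sub_apply, LinearMap.smul_apply, LinearMap.id_apply, LieModule.toEnd_apply_apply,
      map_sub, map_smul, hcomm, hw, mul_smul, ← smul_sub] at h1
    rw [LinearMap.sub_apply, LinearMap.smul_apply, LinearMap.id_apply]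
    have h2 : (-2 : ℂ) ≠ 0 := by norm_num
    exact smul_right_injective _ h2 h1
  have hinj2 := LinearMap.injective_iff_surjective.mpr hsurj2
  apply hf0
  apply hinj2
  rw [map_zero, LinearMap.sub_apply, LinearMap.smul_apply, LinearMap.id_apply, hf, sub_self]

lemma ric_of_typeI (H : LieHermitian J B) (hr : TypeI g)
    {Dv : VV H →ₗ[ℝ] VV H →ₗ[ℝ] VV H} (G : Geo (mbr H) Dv) : RicV H G := by
  intro v w
  obtain ⟨x, rfl⟩ := (phi H).surjective v
  obtain ⟨y, rfl⟩ := (phi H).surjective w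
  rw [mbr_phi]
  have hsol := hr.1
  have hmem : ⁅x, y⁆ ∈ LieAlgebra.derivedSeries ℝ g 1 := by
    rw [LieAlgebra.derivedSeries_def, LieAlgebra.derivedSeriesOfIdeal_succ]
    exact LieSubmodule.lie_mem_lie (LieSubmodule.mem_top _) (LieSubmodule.mem_top _)
  have h1 : ∀ ν ∈ (adj G.P (phi H ⁅x, y⁆)).charpoly.roots, ν.im = 0 := by
    intro ν hν
    have h2 := (Module.End.hasEigenvalue_iff_isRoot_charpoly (adj G.P (phi H ⁅x, y⁆)) ν).mpr
      (Polynomial.isRoot_of_mem_roots hν)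
    obtain ⟨f, hf⟩ := h2.exists_hasEigenvector
    obtain ⟨m, hm0, hm⟩ := eig_lift H G ⁅x, y⁆ hf.2 (Module.End.mem_eigenspace_iff.mp hf.1)
    have h3 := eig_complex ⁅x, y⁆ (J ⁅x, y⁆) hmem (hr.2 _) _ m hm0 hm
    simpa using h3
  have h4 := Module.End.trace_eq_sum_roots_charpoly_of_splits
    (IsAlgClosed.splits (adj G.P (phi H ⁅x, y⁆)).charpoly)
  rw [trace_adj] at h4
  have h5 : ∀ s : Multiset ℂ, (∀ ν ∈ s, ν.im = 0) → s.sum.im = 0 := by
    intro s
    induction s using Multiset.induction_on with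
    | empty => intro _; simp
    | cons a t ih =>
      intro h
      rw [Multiset.sum_cons, Complex.add_im, h a (Multiset.mem_cons_self a t),
        ih fun ν hν => h ν (Multiset.mem_cons_of_mem hν), add_zero]
  have h6 := h5 _ h1
  rw [← h4, Complex.conj_im] at h6
  linarith

/-- solvability gives the chain -/
lemma chain_of_solvable (H : LieHermitian J B) (hs : LieAlgebra.IsSolvable g)
    {Dv : VV H →ₗ[ℝ] VV H →ₗ[ℝ] VV H} (G : Geo (mbr H) Dv) : Chain G.c := by
  obtain ⟨N, hN⟩ := LieAlgebra.IsSolvable.solvable ℝ g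
  have hstep : ∀ k (x y : g), x ∈ LieAlgebra.derivedSeries ℝ g k →
      y ∈ LieAlgebra.derivedSeries ℝ g k → ⁅x, y⁆ ∈ LieAlgebra.derivedSeries ℝ g (k + 1) := by
    intro k x y hx hy
    rw [LieAlgebra.derivedSeries_def, LieAlgebra.derivedSeriesOfIdeal_succ]
    exact LieSubmodule.lie_mem_lie hx hy
  let U : ℕ → Submodule ℂ (VV H) := fun k =>
    { carrier := {v | (phi H).symm v ∈ LieAlgebra.derivedSeries ℝ g k ∧
        J ((phi H).symm v) ∈ LieAlgebra.derivedSeries ℝ g k}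
      add_mem' := by
        rintro a b ⟨ha, ha'⟩ ⟨hb, hb'⟩
        refine ⟨?_, ?_⟩
        · rw [map_add]; exact add_mem ha hb
        · rw [map_add, map_add]; exact add_mem ha' hb'
      zero_mem' := by
        refine ⟨?_, ?_⟩
        · rw [map_zero]; exact zero_mem _
        · rw [map_zero, map_zero]; exact zero_mem _
      smul_mem' := by
        rintro z v ⟨hv, hv'⟩
        obtain ⟨x, rfl⟩ := (phi H).surjective v
        rw [LinearEquiv.symm_apply_apply] at hv hv'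
        have h1 : z • phi H x = phi H (z.re • x + z.im • J x) := by
          rw [smul_split z (phi H x), I_phi, map_add, map_smul, map_smul]
        have hsm : ∀ (r : ℝ) (w : g), w ∈ LieAlgebra.derivedSeries ℝ g k →
            r • w ∈ LieAlgebra.derivedSeries ℝ g k := fun r w hw =>
          Submodule.smul_mem (LieAlgebra.derivedSeries ℝ g k).toSubmodule r hw
        refine ⟨?_, ?_⟩
        · rw [h1, LinearEquiv.symm_apply_apply]
          exact add_mem (hsm _ _ hv) (hsm _ _ hv')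
        · rw [h1, LinearEquiv.symm_apply_apply, map_add, map_smul, map_smul, H.sq]
          exact add_mem (hsm _ _ hv') (hsm _ _ (neg_mem hv)) }
  have hU : ∀ k x, phi H x ∈ U k ↔ x ∈ LieAlgebra.derivedSeries ℝ g k ∧
      J x ∈ LieAlgebra.derivedSeries ℝ g k := by
    intro k x
    change ((phi H).symm (phi H x) ∈ _ ∧ J ((phi H).symm (phi H x)) ∈ _) ↔ _
    rw [LinearEquiv.symm_apply_apply]
  refine ⟨N, U, ?_, ?_, ?_⟩
  · rw [eq_top_iff]
    intro v _
    obtain ⟨x, rfl⟩ := (phi H).surjective v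
    rw [hU]
    exact ⟨LieSubmodule.mem_top _, LieSubmodule.mem_top _⟩
  · intro k v hv w hw
    obtain ⟨x, rfl⟩ := (phi H).surjective v
    obtain ⟨y, rfl⟩ := (phi H).surjective w
    rw [hU] at hv hw
    have h1 : G.c (phi H x) (phi H y) = (1 / 2 : ℂ) • phi H (⁅x, y⁆ - ⁅J x, J y⁆) := by
      rw [G.c_eq, I_phi, I_phi, mbr_phi, mbr_phi, map_sub]
    rw [h1]
    refine Submodule.smul_mem _ _ ?_
    rw [hU]
    refine ⟨sub_mem (hstep k _ _ hv.1 hw.1) (hstep k _ _ hv.2 hw.2), ?_⟩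
    have h2 : J (⁅x, y⁆ - ⁅J x, J y⁆) = ⁅J x, y⁆ + ⁅x, J y⁆ := by
      have h3 := congrArg J (H.integrable x y)
      rw [map_add, map_add, H.sq, H.sq, map_zero] at h3
      rw [← sub_eq_zero, ← h3]
      abel
    rw [h2]
    exact add_mem (hstep k _ _ hv.2 hw.1) (hstep k _ _ hv.1 hw.2)
  · rw [eq_bot_iff]
    intro v hv
    obtain ⟨x, rfl⟩ := (phi H).surjective v
    rw [hU, hN] at hv
    have : x = 0 := by
      have := hv.1
      rwa [LieSubmodule.mem_bot] at this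
    rw [this, map_zero]
    exact zero_mem _

/-- **Q1.** -/
theorem chern_main [Nontrivial g] (H : LieHermitian J B) (hu : Unimodular g)
    (hr : (LieAlgebra.IsSolvable g ∧ ChernRicciFlat J) ∨ TypeI g ∨ AbelianJ J)
    {D : g →ₗ[ℝ] g →ₗ[ℝ] g} (hD : IsChern J B D) {c : ℝ} (hc : ConstantHSC J B D c) :
    c = 0 ∧ Flat D := by
  have G := geo H hD
  have hnt : Nontrivial (VV H) := (phi H).symm.toEquiv.nontrivial
  have h1 : RicV H G ∧ Chain G.c := by
    rcases hr with hr | hr | hr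
    · exact ⟨ric_of_flat H hu hr.2 G, chain_of_solvable H hr.1 G⟩
    · exact ⟨ric_of_typeI H hr G, chain_of_solvable H hr.1 G⟩
    · obtain ⟨h0, h1⟩ := ric_of_abelian H hu hr G
      refine ⟨h1, 1, fun k => if k = 0 then ⊤ else ⊥, by simp, ?_, by simp⟩
      intro k x _ y _
      rw [h0]
      exact zero_mem _
  obtain ⟨h2, h3⟩ := G.q1 (uni_phi H hu) h1.1 h1.2 (hsc_phi H D hc)
  refine ⟨h2, fun x y z => ?_⟩
  have h4 := h3 (phi H x) (phi H y) (phi H z)
  rw [curv_phi] at h4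
  exact (LinearEquiv.map_eq_zero_iff _).mp h4

/-- existence and uniqueness of the Chern connection -/
theorem chern_exists (H : LieHermitian J B) : ∃! D : g →ₗ[ℝ] g →ₗ[ℝ] g, IsChern J B D := by
  have G := (brk H).geo
  let D : g →ₗ[ℝ] g →ₗ[ℝ] g := LinearMap.mk₂ ℝ
    (fun x y => (phi H).symm ((brk H).D (phi H x) (phi H y)))
    (by intro x x' y; simp) (by intro r x y; simp) (by intro x y y'; simp) (by intro r x y; simp)
  have hD : ∀ x y, phi H (D x y) = (brk H).D (phi H x) (phi H y) := by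
    intro x y
    change phi H ((phi H).symm _) = _
    rw [LinearEquiv.apply_symm_apply]
  refine ⟨D, ⟨?_, ?_, ?_⟩, ?_⟩
  · intro x y z
    have h1 := G.met (phi H x) (phi H y) (phi H z)
    rw [← hD, ← hD, re_phi, re_phi] at h1
    exact h1
  · intro x y
    apply (phi H).injective
    rw [hD, ← I_phi, G.cplx, ← hD, I_phi]
  · intro x y
    apply (phi H).injective
    have h1 := G.typ (phi H x) (phi H y)
    simp only [I_phi, ← hD, mbr_phi, ← map_sub, ← map_neg] at h1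
    exact h1
  · intro D' hD'
    have G' := geo H hD'
    ext x y
    apply (phi H).injective
    rw [hD, ← G'.unique G, conj2_phi]

/-- **Q2.** -/
theorem riem_main (H : LieHermitian J B) (hu : Unimodular g)
    (hr : ChernRicciFlat J ∨ TypeI g ∨ AbelianJ J)
    {D : g →ₗ[ℝ] g →ₗ[ℝ] g} (hD : IsLeviCivita B D) {u : g} (hu0 : u ≠ 0)
    (hsk : ∀ x y, B ⁅u, x⁆ y + B x ⁅u, y⁆ = 0) {c : ℝ} (hc : ConstantHSC J B D c) :
    c = 0 ∧ Flat D ∧ (∀ x y, D x (J y) = J (D x y)) ∧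
      Tor (brk H).geo.P (brk H).geo.c = 0 ∧ ∀ x, QQ (brk H).geo.P x x x x = 0 := by
  have G := (brk H).geo
  have h1 : RicV H G := by
    rcases hr with hr | hr | hr
    · exact ric_of_flat H hu hr G
    · exact ric_of_typeI H hr G
    · exact (ric_of_abelian H hu hr G).2
  have hu0' : phi H u ≠ 0 := by
    intro h
    exact hu0 ((LinearEquiv.map_eq_zero_iff _).mp h)
  have hsk' : ∀ x y, (⟪mbr H (phi H u) x, y⟫_ℂ).re + (⟪x, mbr H (phi H u) y⟫_ℂ).re = 0 := by
    intro v w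
    obtain ⟨x, rfl⟩ := (phi H).surjective v
    obtain ⟨y, rfl⟩ := (phi H).surjective w
    rw [mbr_phi, mbr_phi, re_phi, re_phi, hsk]
  obtain ⟨h2, h3, h4, h5, h6⟩ := (brk H).q2 (lcv H hD) (uni_phi H hu) h1 hu0' hsk' (hsc_phi H D hc)
  refine ⟨h2, fun x y z => ?_, fun x y => ?_, h5, h6⟩
  · have h7 := h3 (phi H x) (phi H y) (phi H z)
    rw [curv_phi] at h7
    exact (LinearEquiv.map_eq_zero_iff _).mp h7
  · apply (phi H).injective
    have h7 := h4 (phi H x) (phi H y)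
    rw [I_phi, conj2_phi, conj2_phi, I_phi] at h7
    exact h7

end fin

end Pool.Agent.K1H64.LH
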