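import Pool.Agent.K1H64.LH.TypeI
import Pool.Agent.K1H64.LH.Defs

/-!
A Hermitian Lie algebra as a complex inner product space.
-/

set_option autoImplicit false
set_option linter.unusedSimpArgs false

open Module TensorProduct
open scoped ComplexConjugate InnerProductSpace

noncomputable section

namespace Pool.Agent.K1H64.LH

universe u

section core

variable {g : Type u} [LieRing g] [LieAlgebra ℝ g] {J : g →ₗ[ℝ] g} {B : g →ₗ[ℝ] g →ₗ[ℝ] ℝ}

/-- the complex scalar multiplication -/
def csmul (J : g →ₗ[ℝ] g) (z : ℂ) (x : g) : g := z.re • x + z.im • J x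

lemma csmul_one (J : g →ₗ[ℝ] g) (x : g) : csmul J 1 x = x := by simp [csmul]

lemma csmul_mul (H : LieHermitian J B) (z w : ℂ) (x : g) :
    csmul J (z * w) x = csmul J z (csmul J w x) := by
  simp only [csmul, map_add, map_smul, H.sq, Complex.mul_re, Complex.mul_im]
  module

lemma csmul_zero (J : g →ₗ[ℝ] g) (z : ℂ) : csmul J z 0 = 0 := by simp [csmul]

lemma csmul_add (J : g →ₗ[ℝ] g) (z : ℂ) (x y : g) :
    csmul J z (x + y) = csmul J z x + csmul J z y := by
  simp only [csmul, map_add]
  module

lemma add_csmul (J : g →ₗ[ℝ] g) (z w : ℂ) (x : g) :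
    csmul J (z + w) x = csmul J z x + csmul J w x := by
  simp only [csmul, Complex.add_re, Complex.add_im]
  module

lemma zero_csmul (J : g →ₗ[ℝ] g) (x : g) : csmul J 0 x = 0 := by simp [csmul]

/-- the inner product -/
def inn (J : g →ₗ[ℝ] g) (B : g →ₗ[ℝ] g →ₗ[ℝ] ℝ) (x y : g) : ℂ :=
  (B x y : ℂ) + (B (J x) y : ℂ) * Complex.I

lemma B_J (H : LieHermitian J B) (x y : g) : B (J y) x = - B (J x) y := by
  have h2 := H.herm (J y) x
  rw [H.sq, map_neg, LinearMap.neg_apply] at h2
  rw [← h2, H.symm]

lemma B_J_self (H : LieHermitian J B) (x : g) : B (J x) x = 0 := by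
  have := B_J H x x
  linarith

lemma inn_symm (H : LieHermitian J B) (x y : g) : conj (inn J B y x) = inn J B x y := by
  rw [inn, inn, B_J H x y, H.symm y x]
  apply Complex.ext <;> simp

lemma inn_nonneg (H : LieHermitian J B) (x : g) : 0 ≤ RCLike.re (inn J B x x) := by
  have h1 : 0 ≤ B x x := by
    by_cases hx : x = 0
    · rw [hx]; simp
    · exact (H.pos x hx).le
  rw [inn, B_J_self H]
  simpa using h1

lemma inn_add (J : g →ₗ[ℝ] g) (B : g →ₗ[ℝ] g →ₗ[ℝ] ℝ) (x y z : g) :
    inn J B (x + y) z = inn J B x z + inn J B y z := by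
  simp only [inn, map_add, LinearMap.add_apply]
  push_cast
  ring

lemma inn_smul (H : LieHermitian J B) (x y : g) (z : ℂ) :
    inn J B (csmul J z x) y = conj z * inn J B x y := by
  have e1 : B (csmul J z x) y = z.re * B x y + z.im * B (J x) y := by
    rw [csmul, map_add, LinearMap.add_apply, map_smul, map_smul, LinearMap.smul_apply,
      LinearMap.smul_apply, smul_eq_mul, smul_eq_mul]
  have e2 : B (J (csmul J z x)) y = z.re * B (J x) y - z.im * B x y := by
    rw [csmul, map_add, map_smul, map_smul, H.sq, map_add, LinearMap.add_apply, map_smul, map_smul,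
      map_neg, LinearMap.smul_apply,
      LinearMap.smul_apply, LinearMap.neg_apply, smul_eq_mul, smul_eq_mul]
    ring
  rw [inn, inn, e1, e2]
  apply Complex.ext <;> simp <;> ring

lemma inn_def (H : LieHermitian J B) (x : g) (hx : inn J B x x = 0) : x = 0 := by
  by_contra hne
  have h1 := H.pos x hne
  have h2 := congrArg Complex.re hx
  rw [inn, B_J_self H] at h2
  simp at h2
  rw [h2] at h1
  exact lt_irrefl _ h1

/-- the underlying complex vector space -/
def VV (_H : LieHermitian J B) : Type u := g

variable (H : LieHermitian J B)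

instance : AddCommGroup (VV H) := inferInstanceAs (AddCommGroup g)

instance : Module ℂ (VV H) where
  smul z x := csmul (g := g) J z x
  one_smul x := csmul_one (g := g) J x
  mul_smul z w x := csmul_mul (g := g) H z w x
  smul_zero z := csmul_zero (g := g) J z
  smul_add z x y := csmul_add (g := g) J z x y
  add_smul z w x := add_csmul (g := g) J z w x
  zero_smul x := zero_csmul (g := g) J x

/-- the inner product -/
@[instance_reducible]
def core : InnerProductSpace.Core ℂ (VV H) where
  inner x y := inn (g := g) J B x y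
  conj_inner_symm x y := inn_symm (g := g) H x y
  re_inner_nonneg x := inn_nonneg (g := g) H x
  add_left x y z := inn_add (g := g) J B x y z
  smul_left x y z := inn_smul (g := g) H x y z
  definite x hx := inn_def (g := g) H x hx

instance : NormedAddCommGroup (VV H) := (core H).toNormedAddCommGroup

instance : InnerProductSpace ℂ (VV H) := InnerProductSpace.ofCore (core H).toCore

/-- the identity map as a real linear equivalence -/
def phi : g ≃ₗ[ℝ] VV H where
  toFun x := x
  invFun x := x
  left_inv _ := rfl
  right_inv _ := rfl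
  map_add' _ _ := rfl
  map_smul' r x := by
    change r • x = csmul J (r : ℂ) x
    simp [csmul]

lemma phi_J (x : g) : phi H (J x) = Complex.I • phi H x := by
  change J x = csmul J Complex.I x
  simp [csmul]

lemma phi_inner (x y : g) : ⟪phi H x, phi H y⟫_ℂ = (B x y : ℂ) + (B (J x) y : ℂ) * Complex.I := rfl

instance [FiniteDimensional ℝ g] : FiniteDimensional ℂ (VV H) := by
  have : FiniteDimensional ℝ (VV H) := Module.Finite.equiv (phi H)
  exact Module.Finite.of_restrictScalars_finite ℝ ℂ (VV H)

end core

end Pool.Agent.K1H64.LH
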