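import Pool.Agent.K1H64.LH.Main

/-!
Complex nilmanifolds of constant Riemannian holomorphic sectional curvature.
-/

set_option autoImplicit false
set_option linter.unusedSimpArgs false

open Module TensorProduct
open scoped ComplexConjugate InnerProductSpace

noncomputable section

namespace Pool.Agent.K1H64.LH

universe u

lemma P_zero_of_eig {V : Type*} [NormedAddCommGroup V] [InnerProductSpace ℂ V]
    [FiniteDimensional ℂ V] [Nontrivial V] {P c : V →ₗ[ℂ] V →ₗ[ℂ] V} (h : Alg P c) (hc : Chain c)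
    (hH : ∀ x, QQ P x x x x = 0)
    (hn : ∀ (x f : V) (ν : ℂ), f ≠ 0 → adj P x f = ν • f → ν = 0) : P = 0 := by
  have hsp := span_joint h hc hH
  ext x v
  rw [LinearMap.zero_apply, LinearMap.zero_apply]
  have hv : v ∈ Submodule.span ℂ {f : V | f ≠ 0 ∧ ∃ μ, Joint P f μ} := by rw [hsp]; trivial
  induction hv using Submodule.span_induction with
  | zero => rw [map_zero]
  | add a b _ _ ha hb => rw [map_add, ha, hb, add_zero]
  | smul t a _ ha => rw [map_smul, ha, smul_zero]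
  | mem f hf =>
    obtain ⟨hf0, μ, hμ⟩ := hf
    have h1 := hn x f _ hf0 (hμ.2 x)
    rw [hμ.1, (map_eq_zero _).mp h1, zero_smul]

lemma eig_of_nilpotent {K M : Type*} [Field K] [AddCommGroup M] [Module K M] {f : Module.End K M}
    (hf : IsNilpotent f) {ν : K} {m : M} (hm0 : m ≠ 0) (hm : f m = ν • m) : ν = 0 := by
  obtain ⟨k, hk⟩ := hf
  have h1 : ∀ n : ℕ, (f ^ n) m = ν ^ n • m := by
    intro n
    induction n with
    | zero => simp
    | succ n ih => rw [pow_succ', Module.End.mul_apply, ih, map_smul, hm, smul_smul, pow_succ]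
  have h2 := h1 k
  rw [hk, LinearMap.zero_apply] at h2
  exact eq_zero_of_pow_eq_zero ((smul_eq_zero.mp h2.symm).resolve_right hm0)

variable {g : Type u} [LieRing g] [LieAlgebra ℝ g] [FiniteDimensional ℝ g]
variable {J : g →ₗ[ℝ] g} {B : g →ₗ[ℝ] g →ₗ[ℝ] ℝ}

/-- **Q2 for nilmanifolds.** -/
theorem riem_nilp [Nontrivial g] [LieRing.IsNilpotent g] (H : LieHermitian J B)
    {D : g →ₗ[ℝ] g →ₗ[ℝ] g} (hD : IsLeviCivita B D) {c : ℝ} (hc : ConstantHSC J B D c) :
    c = 0 ∧ ∀ x y : g, ⁅x, y⁆ = 0 := by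
  have hnil : ∀ x : g, IsNilpotent (LieAlgebra.ad ℝ g x) := fun x =>
    LieModule.isNilpotent_toEnd_of_isNilpotent ℝ g g x
  have hu : Unimodular g := fun x =>
    (LinearMap.isNilpotent_trace_of_isNilpotent (hnil x)).eq_zero
  have hI : TypeI g := by
    refine ⟨inferInstance, fun x z hz => ?_⟩
    obtain ⟨f, hf⟩ := hz.exists_hasEigenvector
    have h1 : IsNilpotent ((LieAlgebra.ad ℝ g x).baseChange ℂ) := by
      have := LieModule.isNilpotent_toEnd_of_isNilpotent ℂ (ℂ ⊗[ℝ] g) (ℂ ⊗[ℝ] g)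
        ((1 : ℂ) ⊗ₜ[ℝ] x)
      have h2 := LieModule.toEnd_baseChange (R := ℝ) (A := ℂ) (L := g) (M := g) x
      change IsNilpotent ((LieModule.toEnd ℝ g g x).baseChange ℂ)
      rw [← h2]
      exact this
    rw [eig_of_nilpotent h1 hf.2 (Module.End.mem_eigenspace_iff.mp hf.1), Complex.zero_re]
  have hcen : Nontrivial (LieAlgebra.center ℝ g) :=
    LieAlgebra.non_trivial_center_of_isNilpotent
  obtain ⟨⟨u, hu1⟩, hu0⟩ := exists_ne (0 : LieAlgebra.center ℝ g)
  have hu2 : ∀ x : g, ⁅u, x⁆ = 0 := by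
    intro x
    have := (LieModule.mem_maxTrivSubmodule ℝ g g u).mp hu1 x
    rw [← lie_skew, this, neg_zero]
  have hu0' : u ≠ 0 := fun h => hu0 (Subtype.ext h)
  obtain ⟨h1, -, -, h2, h3⟩ := riem_main H hu (Or.inr (Or.inl hI)) hD hu0'
    (by intro x y; rw [hu2, hu2, map_zero, map_zero, LinearMap.zero_apply, add_zero]) hc
  refine ⟨h1, ?_⟩
  have G := (brk H).geo
  have hnt : Nontrivial (VV H) := (phi H).symm.toEquiv.nontrivial
  have hP : (brk H).geo.P = 0 := by
    refine P_zero_of_eig ((brk H).geo.alg (uni_phi H hu) (ric_of_typeI H hI _))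
      (chain_of_solvable H hI.1 _) h3 ?_
    intro v f ν hf0 hf
    obtain ⟨x, rfl⟩ := (phi H).surjective v
    obtain ⟨m, hm0, hm⟩ := eig_lift H (brk H).geo x hf0 hf
    have h4 := LieModule.isNilpotent_toEnd_of_isNilpotent ℂ (ℂ ⊗[ℝ] g) (ℂ ⊗[ℝ] g)
      ((1 : ℂ) ⊗ₜ[ℝ] x + Complex.I ⊗ₜ[ℝ] (J x))
    have h5 := eig_of_nilpotent h4 hm0 hm
    simpa using h5
  have hcc : ∀ v w, (brk H).geo.c v w = 0 := by
    intro v w
    have h4 := Tor_apply (brk H).geo.P (brk H).geo.c v w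
    rw [h2, hP] at h4
    simpa using h4
  intro x y
  have h4 := (brk H).geo.br_eq (phi H x) (phi H y)
  rw [hcc, hP, mbr_phi] at h4
  have h5 : ∀ v w : VV H, adj (0 : VV H →ₗ[ℂ] VV H →ₗ[ℂ] VV H) v w = 0 := by
    intro v w; simp [adj]
  rw [h5, h5, sub_zero, add_zero] at h4
  exact (LinearEquiv.map_eq_zero_iff _).mp h4

end Pool.Agent.K1H64.LH
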