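import Pool.Agent.K1H64.LH.Core

/-!
Polarisation of quartic forms that are linear in the slots 1, 3 and antilinear in the slots 2, 4.
-/

set_option autoImplicit false
set_option linter.unusedSimpArgs false

open Module
open scoped ComplexConjugate InnerProductSpace

noncomputable section

namespace Pool.Agent.K1H64.LH

variable {V : Type*} [NormedAddCommGroup V] [InnerProductSpace ℂ V]

/-- linear in the slots 1, 3 and antilinear in the slots 2, 4 -/
structure Quart (F : V → V → V → V → ℂ) : Prop where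
  add1 : ∀ x x' y z w, F (x + x') y z w = F x y z w + F x' y z w
  add2 : ∀ x y y' z w, F x (y + y') z w = F x y z w + F x y' z w
  add3 : ∀ x y z z' w, F x y (z + z') w = F x y z w + F x y z' w
  add4 : ∀ x y z w w', F x y z (w + w') = F x y z w + F x y z w'
  smul1 : ∀ (a : ℂ) x y z w, F (a • x) y z w = a * F x y z w
  smul2 : ∀ (a : ℂ) x y z w, F x (a • y) z w = conj a * F x y z w
  smul3 : ∀ (a : ℂ) x y z w, F x y (a • z) w = a * F x y z w
  smul4 : ∀ (a : ℂ) x y z w, F x y z (a • w) = conj a * F x y z w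

/-- the value on the diagonal, polarised once -/
def KK (F : V → V → V → V → ℂ) (x y : V) : ℂ :=
  F x x y y + F y y x x + F x y y x + F y x x y

lemma Quart.expand {F : V → V → V → V → ℂ} (hF : Quart F) (a : ℂ) (x y : V) :
    F (x + a • y) (x + a • y) (x + a • y) (x + a • y) =
      F x x x x + (a * conj a) ^ 2 * F y y y y + (a * conj a) * KK F x y
      + a ^ 2 * F y x y x + (conj a) ^ 2 * F x y x y
      + a * (F y x x x + F x x y x) + conj a * (F x y x x + F x x x y)
      + (a * conj a) * a * (F y y y x + F y x y y)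
      + (a * conj a) * conj a * (F y y x y + F x y y y) := by
  simp only [hF.add1, hF.add2, hF.add3, hF.add4, hF.smul1, hF.smul2, hF.smul3, hF.smul4, KK]
  ring

lemma norm_add_smul_sq (a : ℂ) (x y : V) (ha : a * conj a = 1) :
    ((‖x + a • y‖ ^ 2 : ℝ) : ℂ) = ((‖x‖ ^ 2 : ℝ) : ℂ) + ((‖y‖ ^ 2 : ℝ) : ℂ)
      + a * ⟪x, y⟫_ℂ + conj a * ⟪y, x⟫_ℂ := by
  rw [← inner_self_sq, ← inner_self_sq, ← inner_self_sq, inner_add_left, inner_add_right,
    inner_add_right, inner_smul_left, inner_smul_right, inner_smul_left, inner_smul_right]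
  linear_combination ⟪y, y⟫_ℂ * ha

theorem Quart.polar {F : V → V → V → V → ℂ} (hF : Quart F) (c : ℂ)
    (h : ∀ x, F x x x x = c * ((‖x‖ ^ 2 : ℝ) : ℂ) ^ 2) (x y : V) :
    KK F x y = 2 * c * (((‖x‖ ^ 2 : ℝ) : ℂ) * ((‖y‖ ^ 2 : ℝ) : ℂ) + ⟪x, y⟫_ℂ * ⟪y, x⟫_ℂ) := by
  have key : ∀ a : ℂ, a * conj a = 1 →
      F x x x x + F y y y y + KK F x y
      + a ^ 2 * F y x y x + (conj a) ^ 2 * F x y x y
      + a * (F y x x x + F x x y x) + conj a * (F x y x x + F x x x y)
      + a * (F y y y x + F y x y y)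
      + conj a * (F y y x y + F x y y y)
      = c * (((‖x‖ ^ 2 : ℝ) : ℂ) + ((‖y‖ ^ 2 : ℝ) : ℂ)
      + a * ⟪x, y⟫_ℂ + conj a * ⟪y, x⟫_ℂ) ^ 2 := by
    intro a ha
    have h1 := hF.expand a x y
    rw [h (x + a • y), norm_add_smul_sq a x y ha, ha] at h1
    linear_combination -h1
  have k1 := key 1 (by simp)
  have k2 := key (-1) (by simp)
  have k3 := key Complex.I (by simp)
  have k4 := key (-Complex.I) (by simp)
  simp only [map_one, map_neg, Complex.conj_I] at k1 k2 k3 k4
  have hI : Complex.I ^ 2 = -1 := Complex.I_sq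
  have hx := h x
  have hy := h y
  linear_combination (1 / 4 : ℂ) * (k1 + k2 + k3 + k4) - hx - hy
    + (1 / 4 : ℂ) * (- 2 * F y x y x - 2 * F x y x y + 2 * c * (⟪x, y⟫_ℂ - ⟪y, x⟫_ℂ) ^ 2) * hI

/-- the full symmetrisation -/
def SS (F : V → V → V → V → ℂ) (x y z w : V) : ℂ :=
  F x y z w + F z y x w + F x w z y + F z w x y

lemma sesq_zero (A : V → V → ℂ) (h1 : ∀ x x' y, A (x + x') y = A x y + A x' y)
    (h2 : ∀ x y y', A x (y + y') = A x y + A x y') (h3 : ∀ (a : ℂ) x y, A (a • x) y = a * A x y)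
    (h4 : ∀ (a : ℂ) x y, A x (a • y) = conj a * A x y) (h : ∀ x, A x x = 0) (x y : V) :
    A x y = 0 := by
  have e1 := h (x + y)
  have e2 := h (x + Complex.I • y)
  simp only [h1, h2, h3, h4, h x, h y, Complex.conj_I] at e1 e2
  have hI : Complex.I ^ 2 = -1 := Complex.I_sq
  linear_combination (1 / 2 : ℂ) * e1 + (1 / 2 : ℂ) * Complex.I * e2
    + (1 / 2 : ℂ) * (A x y - A y x) * hI

theorem Quart.SS_zero {F : V → V → V → V → ℂ} (hF : Quart F)
    (h : ∀ x, F x x x x = 0) (x y z w : V) : SS F x y z w = 0 := by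
  have h0 : ∀ x y, KK F x y = 0 := by
    intro x y
    have := hF.polar 0 (fun x => by rw [h x]; ring) x y
    rw [this]; ring
  have h1 : ∀ x x' y, SS F x x' y y = 0 := by
    intro x x' y
    refine sesq_zero (fun x x' => SS F x x' y y) ?_ ?_ ?_ ?_ ?_ x x'
    · intro x x' z; simp only [SS, hF.add1, hF.add2, hF.add3, hF.add4]; ring
    · intro x x' z; simp only [SS, hF.add1, hF.add2, hF.add3, hF.add4]; ring
    · intro a x z; simp only [SS, hF.smul1, hF.smul2, hF.smul3, hF.smul4]; ring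
    · intro a x z; simp only [SS, hF.smul1, hF.smul2, hF.smul3, hF.smul4]; ring
    · intro x
      have := h0 x y
      simp only [KK] at this
      simp only [SS]
      linear_combination this
  refine sesq_zero (fun z w => SS F x y z w) ?_ ?_ ?_ ?_ ?_ z w
  · intro x x' z; simp only [SS, hF.add1, hF.add2, hF.add3, hF.add4]; ring
  · intro x x' z; simp only [SS, hF.add1, hF.add2, hF.add3, hF.add4]; ring
  · intro a x z; simp only [SS, hF.smul1, hF.smul2, hF.smul3, hF.smul4]; ring
  · intro a x z; simp only [SS, hF.smul1, hF.smul2, hF.smul3, hF.smul4]; ring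
  · intro z
    exact h1 x y z

end Pool.Agent.K1H64.LH
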