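import Pool.Agent.K1H64.LH.Flat

/-!
Constant holomorphic sectional curvature of the Levi-Civita connection, abstract part.
-/

set_option autoImplicit false
set_option linter.unusedSimpArgs false

open Module
open scoped ComplexConjugate InnerProductSpace

noncomputable section

namespace Pool.Agent.K1H64.LH

variable {V : Type*} [NormedAddCommGroup V] [InnerProductSpace ℂ V] [FiniteDimensional ℂ V]

/-- the torsion of the Chern connection -/
def Tor (P c : V →ₗ[ℂ] V →ₗ[ℂ] V) : V →ₗ[ℂ] V →ₗ[ℂ] V := P - P.flip - c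

omit [FiniteDimensional ℂ V] in
lemma Tor_apply (P c : V →ₗ[ℂ] V →ₗ[ℂ] V) (x y : V) : Tor P c x y = P x y - P y x - c x y := rfl

/-- the quartic form of the Riemannian holomorphic sectional curvature -/
def FF (P T : V →ₗ[ℂ] V →ₗ[ℂ] V) (x y z w : V) : ℂ :=
  2 * QQ P x y z w - ⟪adj T x y, adj T w z⟫_ℂ

lemma quart_FF (P T : V →ₗ[ℂ] V →ₗ[ℂ] V) : Quart (FF P T) := by
  have hQ := quart_QQ P
  constructor
  · intros; simp only [FF, hQ.add1, adj_add, LinearMap.add_apply, inner_add_left]; ring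
  · intros; simp only [FF, hQ.add2, map_add, inner_add_left]; ring
  · intros; simp only [FF, hQ.add3, map_add, inner_add_right]; ring
  · intros; simp only [FF, hQ.add4, adj_add, LinearMap.add_apply, inner_add_right]; ring
  · intros; simp only [FF, hQ.smul1, adj_smul, LinearMap.smul_apply, inner_smul_left,
      Complex.conj_conj]; ring
  · intros; simp only [FF, hQ.smul2, map_smul, inner_smul_left, Complex.conj_conj]; ring
  · intros; simp only [FF, hQ.smul3, map_smul, inner_smul_right, Complex.conj_conj]; ring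
  · intros; simp only [FF, hQ.smul4, adj_smul, LinearMap.smul_apply, inner_smul_right,
      Complex.conj_conj]; ring

section sums

variable {ι : Type*} [Fintype ι] (e : OrthonormalBasis ι ℂ V)

lemma sum_KK_FF {P c T : V →ₗ[ℂ] V →ₗ[ℂ] V} (h : Alg P c) {a : ℂ}
    (hH : ∀ x, FF P T x x x x = a * ((‖x‖ ^ 2 : ℝ) : ℂ) ^ 2) :
    a * ((Fintype.card ι : ℂ) ^ 2 + Fintype.card ι) = - 2 * ((‖eta e P‖ ^ 2 : ℝ) : ℂ)
      - ((‖eta e T‖ ^ 2 : ℝ) : ℂ) - ∑ k, ∑ l, ((‖adj T (e k) (e l)‖ ^ 2 : ℝ) : ℂ) := by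
  classical
  have h1 : ∑ k, ∑ l, KK (FF P T) (e k) (e l) = 2 * a * ((Fintype.card ι : ℂ) ^ 2 + Fintype.card ι) := by
    have h2 : ∀ k l, KK (FF P T) (e k) (e l) = 2 * a * (1 + if k = l then 1 else 0) := by
      intro k l
      rw [(quart_FF P T).polar a hH]
      rw [e.norm_eq_one, e.norm_eq_one]
      rcases eq_or_ne k l with rfl | hkl
      · simp [inner_self_sq, e.norm_eq_one]
      · rw [e.inner_eq_zero hkl]
        simp [hkl]
    simp only [h2]
    simp only [← Finset.mul_sum, Finset.sum_add_distrib, Finset.sum_const, Finset.card_univ,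
      Finset.sum_ite_eq, Finset.mem_univ, if_true]
    simp only [nsmul_eq_mul, mul_one, smul_add]
    ring
  have h3 : ∑ k, ∑ l, KK (FF P T) (e k) (e l) = - 4 * ⟪eta e P, eta e P⟫_ℂ
      - 2 * ⟪eta e T, eta e T⟫_ℂ - 2 * ∑ k, ∑ l, ((‖adj T (e k) (e l)‖ ^ 2 : ℝ) : ℂ) := by
    simp only [KK, FF, Finset.sum_add_distrib, Finset.sum_sub_distrib, ← Finset.mul_sum,
      inner_self_sq]
    have a1 : ∑ k, ∑ l, QQ P (e k) (e k) (e l) (e l) = 0 :=
      Finset.sum_eq_zero fun k _ => sum_Q_xxkk e h (e k) (e k)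
    have a2 : ∑ k, ∑ l, QQ P (e l) (e l) (e k) (e k) = 0 := by
      rw [Finset.sum_comm]; exact a1
    have a3 : ∑ k, ∑ l, QQ P (e k) (e l) (e l) (e k) = - ⟪eta e P, eta e P⟫_ℂ := by
      rw [Finset.sum_congr rfl fun k _ => sum_Q_xkkx e h (e k) (e k), Finset.sum_neg_distrib,
        ← sum_inner]
      rfl
    have a4 : ∑ k, ∑ l, QQ P (e l) (e k) (e k) (e l) = - ⟪eta e P, eta e P⟫_ℂ := by
      rw [Finset.sum_comm]; exact a3
    have a5 : ∑ k, ∑ l, ⟪adj T (e k) (e k), adj T (e l) (e l)⟫_ℂ = ⟪eta e T, eta e T⟫_ℂ := by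
      simp only [← inner_sum, ← sum_inner, eta]
    have a6 : ∑ k, ∑ l, ⟪adj T (e l) (e l), adj T (e k) (e k)⟫_ℂ = ⟪eta e T, eta e T⟫_ℂ := by
      rw [Finset.sum_comm]; exact a5
    have a7 : ∑ k, ∑ l, ((‖adj T (e l) (e k)‖ ^ 2 : ℝ) : ℂ)
        = ∑ k, ∑ l, ((‖adj T (e k) (e l)‖ ^ 2 : ℝ) : ℂ) := Finset.sum_comm
    rw [a1, a2, a3, a4, a5, a6, a7, inner_self_sq, inner_self_sq]
    ring
  rw [inner_self_sq, inner_self_sq] at h3
  linear_combination (1 / 2 : ℂ) * (h3 - h1)

include e in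
lemma riem_zero {P c T : V →ₗ[ℂ] V →ₗ[ℂ] V} (h : Alg P c) {a : ℝ} (ha : 0 ≤ a)
    (hH : ∀ x, FF P T x x x x = (a : ℂ) * ((‖x‖ ^ 2 : ℝ) : ℂ) ^ 2) [Nonempty ι] :
    a = 0 ∧ T = 0 := by
  have h1 := sum_KK_FF e h hH
  have h2 : a * ((Fintype.card ι : ℝ) ^ 2 + Fintype.card ι) = - 2 * ‖eta e P‖ ^ 2
      - ‖eta e T‖ ^ 2 - ∑ k, ∑ l, ‖adj T (e k) (e l)‖ ^ 2 := by
    exact_mod_cast h1
  have hcard : (0 : ℝ) < Fintype.card ι := by exact_mod_cast Fintype.card_pos
  have h3 : 0 ≤ a * ((Fintype.card ι : ℝ) ^ 2 + Fintype.card ι) := by positivity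
  have h4 : 0 ≤ ∑ k, ∑ l, ‖adj T (e k) (e l)‖ ^ 2 :=
    Finset.sum_nonneg fun k _ => Finset.sum_nonneg fun l _ => sq_nonneg _
  have h5 := sq_nonneg ‖eta e P‖
  have h6 := sq_nonneg ‖eta e T‖
  have h7 : ∑ k, ∑ l, ‖adj T (e k) (e l)‖ ^ 2 = 0 := by linarith
  have h8 : a * ((Fintype.card ι : ℝ) ^ 2 + Fintype.card ι) = 0 := by linarith
  refine ⟨(mul_eq_zero.mp h8).resolve_right (by positivity), ?_⟩
  rw [Finset.sum_eq_zero_iff_of_nonneg
    (fun k _ => Finset.sum_nonneg fun l _ => sq_nonneg _)] at h7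
  have h9 : ∀ k l, adj T (e k) (e l) = 0 := by
    intro k l
    have := h7 k (Finset.mem_univ k)
    rw [Finset.sum_eq_zero_iff_of_nonneg (fun l _ => sq_nonneg _)] at this
    have := this l (Finset.mem_univ l)
    rwa [sq_eq_zero_iff, norm_eq_zero] at this
  have h10 : ∀ k, adj T (e k) = 0 := by
    intro k
    refine e.toBasis.ext fun l => ?_
    rw [e.coe_toBasis, h9 k l, LinearMap.zero_apply]
  refine e.toBasis.ext fun k => ?_
  rw [e.coe_toBasis, LinearMap.zero_apply]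
  ext v
  rw [LinearMap.zero_apply]
  refine ext_inner_left ℂ fun w => ?_
  rw [inner_zero_right, ← inner_adj_left, h10 k, LinearMap.zero_apply, inner_zero_left]

end sums

/-- in the torsion free case the curvature has the Kähler symmetry -/
lemma RR_kaehler {P c : V →ₗ[ℂ] V →ₗ[ℂ] V} (h : Alg P c) (hT : Tor P c = 0) (x y z : V) :
    RR P x z y = RR P y z x := by
  have hc : ∀ x y, c x y = P x y - P y x := by
    intro x y
    have := Tor_apply P c x y
    rw [hT, LinearMap.zero_apply, LinearMap.zero_apply] at this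
    exact (sub_eq_zero.mp this.symm).symm
  have hm := h.mix x y z
  rw [hc x y, hc x, hc _ y, map_sub] at hm
  rw [RR, RR]
  have : adj P z (P x y) = adj P z (P y x) + (P x (adj P z y) - P (adj P z y) x
      + (P (adj P z x) y - P y (adj P z x)) - adj P (adj P y z) x + adj P (adj P x z) y) := by
    rw [← hm]; abel
  rw [this]
  abel

lemma RR_zero_of_kaehler {P c : V →ₗ[ℂ] V →ₗ[ℂ] V} (h : Alg P c) (hT : Tor P c = 0)
    (hH : ∀ x, QQ P x x x x = 0) (x y z : V) : RR P x y z = 0 := by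
  have s1 : ∀ x y z w, QQ P x y z w = QQ P z y x w := by
    intro x y z w
    rw [QQ, QQ, RR_kaehler h hT]
  have s2 : ∀ x y z w, QQ P x y z w = QQ P x w z y := by
    intro x y z w
    have h1 := QQ_conj P y x w z
    have h2 := QQ_conj P w x y z
    rw [← h1, ← h2, s1 y x w z]
  have hSS := (quart_QQ P).SS_zero hH
  have h0 : ∀ x y z w, QQ P x y z w = 0 := by
    intro x y z w
    have := hSS x y z w
    rw [SS, s1 z w x y, s1 z y x w, s2 x w z y] at this
    linear_combination (1 / 4 : ℂ) * this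
  refine ext_inner_left ℂ fun w => ?_
  rw [inner_zero_right]
  exact h0 x y z w

/-- if moreover the `adj P x` are nilpotent, everything vanishes -/
lemma P_zero_of_nilpotent [Nontrivial V] {P c : V →ₗ[ℂ] V →ₗ[ℂ] V} (h : Alg P c) (hc : Chain c)
    (hH : ∀ x, QQ P x x x x = 0) (hn : ∀ x, IsNilpotent (adj P x)) : P = 0 := by
  have hsp := span_joint h hc hH
  ext x v
  rw [LinearMap.zero_apply, LinearMap.zero_apply]
  have hv : v ∈ Submodule.span ℂ {f : V | f ≠ 0 ∧ ∃ μ, Joint P f μ} := by rw [hsp]; trivial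
  induction hv using Submodule.span_induction with
  | zero => rw [map_zero]
  | add a b _ _ ha hb => rw [map_add, ha, hb, add_zero]
  | smul t a _ ha => rw [map_smul, ha, smul_zero]
  | mem f hf =>
    obtain ⟨hf0, μ, hμ⟩ := hf
    obtain ⟨k, hk⟩ := hn x
    have h1 : ∀ m : ℕ, (adj P x ^ m) f = (conj (μ x)) ^ m • f := by
      intro m
      induction m with
      | zero => simp
      | succ m ih => rw [pow_succ', Module.End.mul_apply, ih, map_smul, hμ.2, smul_smul, pow_succ]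
    have h2 := h1 k
    rw [hk, LinearMap.zero_apply] at h2
    have h3 : (conj (μ x)) ^ k = 0 := (smul_eq_zero.mp h2.symm).resolve_right hf0
    have h4 : μ x = 0 := by
      have h5 := eq_zero_of_pow_eq_zero h3
      exact (map_eq_zero _).mp h5
    rw [hμ.1, h4, zero_smul]

end Pool.Agent.K1H64.LH
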