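import Pool.Agent.K1H64.LH.Trans

/-!
Traces of real linear maps on a complex inner product space.
-/

set_option autoImplicit false
set_option linter.unusedSimpArgs false

open Module
open scoped ComplexConjugate InnerProductSpace

noncomputable section

namespace Pool.Agent.K1H64.LH

variable {V : Type*} [NormedAddCommGroup V] [InnerProductSpace ℂ V]

lemma real_trace {ι : Type*} [Fintype ι] (e : OrthonormalBasis ι ℂ V) (F : V →ₗ[ℝ] V) :
    LinearMap.trace ℝ V F = ∑ k, ((⟪e k, F (e k)⟫_ℂ).re + (⟪e k, F (Complex.I • e k)⟫_ℂ).im) := by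
  classical
  rw [LinearMap.trace_eq_matrix_trace ℝ (Complex.basisOneI.smulTower e.toBasis), Matrix.trace,
    Fintype.sum_prod_type, Fin.sum_univ_two, ← Finset.sum_add_distrib]
  refine Finset.sum_congr rfl fun k _ => ?_
  simp only [Matrix.diag_apply, LinearMap.toMatrix_apply, Basis.smulTower_repr,
    Basis.smulTower_apply, Complex.coe_basisOneI, Complex.coe_basisOneI_repr]
  simp [OrthonormalBasis.coe_toBasis_repr_apply, OrthonormalBasis.repr_apply_apply]

variable [FiniteDimensional ℂ V]

lemma Geo.jac_all {br Dv : V →ₗ[ℝ] V →ₗ[ℝ] V} (G : Geo br Dv) (x y z : V) :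
    (G.c x (G.c y z) = G.c (G.c x y) z + G.c y (G.c x z)) ∧
    (adj G.P z (G.c x y) = G.c x (adj G.P z y) + G.c (adj G.P z x) y - adj G.P (adj G.P y z) x
      + adj G.P (adj G.P x z) y) ∧
    (adj G.P x (adj G.P y z) + adj G.P (G.c x y) z - adj G.P y (adj G.P x z) = 0) := by
  refine jacobi_split ?_ ?_ x y z
  · intro x y
    rw [G.c_apply, G.c_apply, G.br_skew x y]
    abel
  · intro x y z
    have := G.jac x y z
    simpa only [G.br_eq] using this

lemma Geo.rep {br Dv : V →ₗ[ℝ] V →ₗ[ℝ] V} (G : Geo br Dv) (x y z : V) :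
    G.P (G.c x y) z = G.P x (G.P y z) - G.P y (G.P x z) := by
  refine ext_inner_right ℂ fun w => ?_
  have h := (G.jac_all x y w).2.2
  have h2 : adj G.P (G.c x y) w = adj G.P y (adj G.P x w) - adj G.P x (adj G.P y w) := by
    rw [← sub_eq_zero, ← h]; abel
  rw [← inner_adj_right, h2, inner_sub_right, inner_sub_left, inner_adj_right, inner_adj_right,
    inner_adj_right, inner_adj_right]

omit [FiniteDimensional ℂ V] in
lemma trace_c_zero {P c : V →ₗ[ℂ] V →ₗ[ℂ] V}
    (h : ∀ x y z, P (c x y) z = P x (P y z) - P y (P x z)) (x y : V) :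
    LinearMap.trace ℂ V (P (c x y)) = 0 := by
  have : P (c x y) = P x * P y - P y * P x := by
    ext z
    exact h x y z
  rw [this, map_sub, LinearMap.trace_mul_comm, sub_self]

lemma Geo.trace_br {br Dv : V →ₗ[ℝ] V →ₗ[ℝ] V} (G : Geo br Dv) (x : V) :
    LinearMap.trace ℝ V (br x)
      = 2 * (LinearMap.trace ℂ V (G.c x) - conj (LinearMap.trace ℂ V (G.P x))).re := by
  rw [real_trace (stdOrthonormalBasis ℂ V), ← trace_adj,
    LinearMap.trace_eq_sum_inner _ (stdOrthonormalBasis ℂ V),
    LinearMap.trace_eq_sum_inner _ (stdOrthonormalBasis ℂ V), ← Finset.sum_sub_distrib,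
    Complex.re_sum, Finset.mul_sum]
  refine Finset.sum_congr rfl fun k _ => ?_
  rw [G.br_eq, G.br_eq, map_smul, map_smul, adj_I]
  simp only [inner_add_right, inner_sub_right, LinearMap.neg_apply, LinearMap.smul_apply,
    inner_neg_right, inner_smul_right, Complex.add_re, Complex.sub_re, Complex.add_im,
    Complex.sub_im, Complex.neg_im, Complex.mul_im, Complex.I_re, Complex.I_im]
  ring

lemma Geo.trace_Jbr {br Dv : V →ₗ[ℝ] V →ₗ[ℝ] V} (G : Geo br Dv) (JJ : V →ₗ[ℝ] V)
    (hJ : ∀ v, JJ v = Complex.I • v) (x : V) :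
    LinearMap.trace ℝ V (JJ ∘ₗ br x)
      = - 2 * (LinearMap.trace ℂ V (G.c x) - conj (LinearMap.trace ℂ V (G.P x))).im := by
  rw [real_trace (stdOrthonormalBasis ℂ V), ← trace_adj,
    LinearMap.trace_eq_sum_inner _ (stdOrthonormalBasis ℂ V),
    LinearMap.trace_eq_sum_inner _ (stdOrthonormalBasis ℂ V), ← Finset.sum_sub_distrib,
    Complex.im_sum, Finset.mul_sum]
  refine Finset.sum_congr rfl fun k _ => ?_
  rw [LinearMap.comp_apply, LinearMap.comp_apply, hJ, hJ, G.br_eq, G.br_eq, map_smul, map_smul,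
    adj_I]
  simp only [inner_add_right, inner_sub_right, LinearMap.neg_apply, LinearMap.smul_apply,
    inner_neg_right, inner_smul_right, Complex.add_re, Complex.sub_re, Complex.add_im,
    Complex.sub_im, Complex.neg_im, Complex.mul_im, Complex.mul_re, Complex.neg_re,
    Complex.I_re, Complex.I_im]
  ring

lemma Geo.uni {br Dv : V →ₗ[ℝ] V →ₗ[ℝ] V} (G : Geo br Dv)
    (htr : ∀ x, LinearMap.trace ℝ V (br x) = 0) (x : V) :
    LinearMap.trace ℂ V (G.c x) = LinearMap.trace ℂ V (G.P x) := by
  have h1 := htr x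
  have h2 := htr (Complex.I • x)
  rw [G.trace_br] at h1 h2
  rw [map_smul, map_smul, map_smul, map_smul, smul_eq_mul, smul_eq_mul, map_mul, Complex.conj_I]
    at h2
  simp only [Complex.sub_re, Complex.mul_re, Complex.conj_re, Complex.conj_im, Complex.neg_re,
    Complex.neg_im, Complex.I_re, Complex.I_im] at h1 h2
  apply Complex.ext <;> linarith

/-- the algebra of a unimodular Lie algebra with vanishing Chern-Ricci curvature -/
theorem Geo.alg {br Dv : V →ₗ[ℝ] V →ₗ[ℝ] V} (G : Geo br Dv)
    (htr : ∀ x, LinearMap.trace ℝ V (br x) = 0)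
    (hric : ∀ x y, (LinearMap.trace ℂ V (G.P (br x y))).im = 0) : Alg G.P G.c where
  alt x := by
    rw [G.c_apply, G.skew]
    abel
  jac x y z := (G.jac_all x y z).1
  rep := G.rep
  mix x y z := (G.jac_all x y z).2.1
  uni := G.uni htr
  ric x y := by
    have key : ∀ x y, (LinearMap.trace ℂ V (G.P (adj G.P y x))
        + conj (LinearMap.trace ℂ V (G.P (adj G.P x y)))).im = 0 := by
      intro x y
      have := hric x y
      rw [G.br_eq, map_sub, map_add, map_sub, map_add, trace_c_zero G.rep, zero_add] at this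
      rw [Complex.add_im, Complex.conj_im, ← this, Complex.sub_im]
      ring
    apply Complex.ext
    · have h2 := key (Complex.I • x) y
      rw [map_smul, adj_I, map_smul, map_smul, LinearMap.neg_apply, LinearMap.smul_apply,
        map_neg, map_smul, map_neg, map_smul, smul_eq_mul, smul_eq_mul, map_neg, map_mul,
        Complex.conj_I] at h2
      simp only [Complex.add_im, Complex.mul_im, Complex.neg_im, Complex.neg_re, Complex.mul_re,
        Complex.I_re, Complex.I_im, Complex.conj_re, Complex.conj_im] at h2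
      rw [Complex.add_re, Complex.conj_re, Complex.zero_re]
      linarith
    · rw [key x y, Complex.zero_im]

end Pool.Agent.K1H64.LH
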