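import Pool.Agent.K1H64.LH.Riem

/-!
From a real Lie bracket and the Chern connection on a complex inner product space to the maps `P`, `c`.
-/

set_option autoImplicit false
set_option linter.unusedSimpArgs false

open Module
open scoped ComplexConjugate InnerProductSpace

noncomputable section

namespace Pool.Agent.K1H64.LH

variable {V : Type*} [NormedAddCommGroup V] [InnerProductSpace ℂ V]

/-- A unimodular real Lie bracket `br` and its Chern connection `Dv` on a complex inner product
space. -/
structure Geo (br Dv : V →ₗ[ℝ] V →ₗ[ℝ] V) : Prop where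
  skew : ∀ x, br x x = 0
  jac : ∀ x y z, br x (br y z) = br (br x y) z + br y (br x z)
  nij : ∀ x y, br x y - br (Complex.I • x) (Complex.I • y) + Complex.I • br (Complex.I • x) y
    + Complex.I • br x (Complex.I • y) = 0
  met : ∀ x y z, (⟪Dv x y, z⟫_ℂ).re + (⟪y, Dv x z⟫_ℂ).re = 0
  cplx : ∀ x y, Dv x (Complex.I • y) = Complex.I • Dv x y
  typ : ∀ x y, Dv (Complex.I • x) (Complex.I • y) - Dv (Complex.I • y) (Complex.I • x)
    - br (Complex.I • x) (Complex.I • y) = - (Dv x y - Dv y x - br x y)

lemma smul_split (z : ℂ) (x : V) : z • x = z.re • x + z.im • (Complex.I • x) := by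
  have h : ∀ (r : ℝ) (v : V), r • v = (r : ℂ) • v := fun r v => (Complex.coe_smul r v).symm
  rw [h, h, smul_smul, ← add_smul, Complex.re_add_im]

lemma real_smul_eq (r : ℝ) (v : V) : r • v = (r : ℂ) • v := (Complex.coe_smul r v).symm

lemma I_smul_I_smul (v : V) : Complex.I • (Complex.I • v) = - v := by
  rw [smul_smul, Complex.I_mul_I, neg_one_smul]

lemma map_smul_of_I (f : V →ₗ[ℝ] V) (hf : ∀ x, f (Complex.I • x) = Complex.I • f x) (z : ℂ) (x : V) :
    f (z • x) = z • f x := by
  rw [smul_split z x, map_add, map_smul, map_smul, hf, smul_split z (f x)]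

/-- the linear part in the first variable -/
def linPart (Dv : V →ₗ[ℝ] V →ₗ[ℝ] V) (hc : ∀ x y, Dv x (Complex.I • y) = Complex.I • Dv x y) :
    V →ₗ[ℂ] V →ₗ[ℂ] V :=
  LinearMap.mk₂ ℂ (fun x y => (1 / 2 : ℂ) • (Dv x y - Complex.I • Dv (Complex.I • x) y))
    (by
      intro x x' y
      simp only [smul_add, map_add, LinearMap.add_apply]
      module)
    (by
      intro z x y
      have h1 : Dv (z • x) y = (z.re : ℂ) • Dv x y + (z.im : ℂ) • Dv (Complex.I • x) y := by
        rw [smul_split z x, map_add, map_smul, map_smul, LinearMap.add_apply, LinearMap.smul_apply,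
          LinearMap.smul_apply, real_smul_eq, real_smul_eq]
      have h2 : Dv (Complex.I • z • x) y
          = (-(z.im : ℂ)) • Dv x y + (z.re : ℂ) • Dv (Complex.I • x) y := by
        rw [smul_smul, smul_split (Complex.I * z) x, map_add, map_smul, map_smul,
          LinearMap.add_apply, LinearMap.smul_apply,
          LinearMap.smul_apply, real_smul_eq, real_smul_eq]
        simp
      have h3 : z = (z.re : ℂ) + (z.im : ℂ) * Complex.I := (Complex.re_add_im z).symm
      rw [h1, h2]
      conv_rhs => rw [h3]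
      have hI : Complex.I ^ 2 = -1 := Complex.I_sq
      have h4 : (1 / 2 : ℂ) • ((z.re : ℂ) • Dv x y + (z.im : ℂ) • Dv (Complex.I • x) y
          - Complex.I • ((-(z.im : ℂ)) • Dv x y + (z.re : ℂ) • Dv (Complex.I • x) y))
          = ((1 / 2 : ℂ) * ((z.re : ℂ) + (z.im : ℂ) * Complex.I)) • Dv x y
          + ((1 / 2 : ℂ) * ((z.im : ℂ) - Complex.I * (z.re : ℂ))) • Dv (Complex.I • x) y := by
        module
      have h5 : ((z.re : ℂ) + (z.im : ℂ) * Complex.I) • (1 / 2 : ℂ) •
          (Dv x y - Complex.I • Dv (Complex.I • x) y)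
          = ((1 / 2 : ℂ) * ((z.re : ℂ) + (z.im : ℂ) * Complex.I)) • Dv x y
          + ((1 / 2 : ℂ) * (- (z.im : ℂ) * Complex.I ^ 2 - Complex.I * (z.re : ℂ))) •
            Dv (Complex.I • x) y := by
        module
      rw [h4, h5, hI]
      congr 2
      ring)
    (by
      intro x y y'
      simp only [map_add, smul_add]
      module)
    (by
      intro z x y
      rw [map_smul_of_I (Dv x) (hc x), map_smul_of_I (Dv (Complex.I • x)) (hc (Complex.I • x))]
      module)

lemma linPart_apply (Dv : V →ₗ[ℝ] V →ₗ[ℝ] V)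
    (hc : ∀ x y, Dv x (Complex.I • y) = Complex.I • Dv x y) (x y : V) :
    linPart Dv hc x y = (1 / 2 : ℂ) • (Dv x y - Complex.I • Dv (Complex.I • x) y) := rfl

lemma Geo.cmet {br Dv : V →ₗ[ℝ] V →ₗ[ℝ] V} (G : Geo br Dv) (x y z : V) :
    ⟪Dv x y, z⟫_ℂ = - ⟪y, Dv x z⟫_ℂ := by
  have h1 := G.met x y z
  have h2 := G.met x y (Complex.I • z)
  rw [G.cplx, inner_smul_right, inner_smul_right] at h2
  simp only [Complex.mul_re, Complex.I_re, Complex.I_im, zero_mul, one_mul, zero_sub] at h2
  apply Complex.ext
  · rw [Complex.neg_re]; linarith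
  · rw [Complex.neg_im]; linarith

variable [FiniteDimensional ℂ V]

lemma Geo.adj_eq {br Dv : V →ₗ[ℝ] V →ₗ[ℝ] V} (G : Geo br Dv) (x y : V) :
    adj (linPart Dv G.cplx) x y = - ((1 / 2 : ℂ) • (Dv x y + Complex.I • Dv (Complex.I • x) y)) := by
  refine ext_inner_left ℂ fun w => ?_
  rw [inner_adj_right, linPart_apply, inner_smul_left, inner_sub_left, inner_smul_left,
    inner_neg_right, inner_smul_right, inner_add_right, inner_smul_right, G.cmet, G.cmet]
  simp only [map_div₀, map_one, Complex.conj_I, map_ofNat]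
  ring

lemma Geo.D_eq {br Dv : V →ₗ[ℝ] V →ₗ[ℝ] V} (G : Geo br Dv) (x y : V) :
    Dv x y = linPart Dv G.cplx x y - adj (linPart Dv G.cplx) x y := by
  rw [G.adj_eq, linPart_apply]
  module

/-- the torsion as a real bilinear map -/
def rT (br Dv : V →ₗ[ℝ] V →ₗ[ℝ] V) : V →ₗ[ℝ] V →ₗ[ℝ] V := Dv - Dv.flip - br

omit [FiniteDimensional ℂ V] in
lemma rT_apply (br Dv : V →ₗ[ℝ] V →ₗ[ℝ] V) (x y : V) : rT br Dv x y = Dv x y - Dv y x - br x y := rfl

omit [FiniteDimensional ℂ V] in
lemma Geo.br_skew {br Dv : V →ₗ[ℝ] V →ₗ[ℝ] V} (G : Geo br Dv) (x y : V) : br y x = - br x y := by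
  have h1 := G.skew (x + y)
  simp only [map_add, LinearMap.add_apply, G.skew, zero_add, add_zero] at h1
  rw [eq_neg_iff_add_eq_zero, ← h1]

omit [FiniteDimensional ℂ V] in
lemma Geo.rT_I {br Dv : V →ₗ[ℝ] V →ₗ[ℝ] V} (G : Geo br Dv) (x y : V) :
    rT br Dv (Complex.I • x) y = Complex.I • rT br Dv x y := by
  have h1 : ∀ x y, rT br Dv (Complex.I • x) (Complex.I • y) = - rT br Dv x y := G.typ
  have h2 : rT br Dv x (Complex.I • y) = rT br Dv (Complex.I • x) y := by
    have := h1 (Complex.I • x) y
    rw [I_smul_I_smul, map_neg, LinearMap.neg_apply, neg_inj] at this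
    exact this
  have h3 : rT br Dv x y - rT br Dv (Complex.I • x) (Complex.I • y)
      + Complex.I • rT br Dv (Complex.I • x) y + Complex.I • rT br Dv x (Complex.I • y) = 0 := by
    have hn := G.nij x y
    simp only [rT_apply, G.cplx]
    have e1 : Complex.I • Complex.I • Dv y x = - Dv y x := I_smul_I_smul _
    have e2 : Complex.I • Complex.I • Dv x y = - Dv x y := I_smul_I_smul _
    simp only [smul_sub, e1, e2]
    have : br x y = br (Complex.I • x) (Complex.I • y) - Complex.I • br (Complex.I • x) y
      - Complex.I • br x (Complex.I • y) := by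
      rw [← sub_eq_zero, ← hn]; abel
    rw [this]
    abel
  rw [h1, h2] at h3
  have h4 : (2 : ℂ) • (rT br Dv x y + Complex.I • rT br Dv (Complex.I • x) y) = 0 := by
    rw [← h3]; module
  have h5 : rT br Dv x y + Complex.I • rT br Dv (Complex.I • x) y = 0 :=
    (smul_eq_zero.mp h4).resolve_left two_ne_zero
  have h6 : Complex.I • (rT br Dv x y + Complex.I • rT br Dv (Complex.I • x) y) = 0 := by
    rw [h5, smul_zero]
  rw [smul_add, I_smul_I_smul] at h6
  exact (sub_eq_zero.mp (by rw [← h6]; abel)).symm

omit [FiniteDimensional ℂ V] in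
lemma Geo.rT_I' {br Dv : V →ₗ[ℝ] V →ₗ[ℝ] V} (G : Geo br Dv) (x y : V) :
    rT br Dv x (Complex.I • y) = Complex.I • rT br Dv x y := by
  have h1 : ∀ x y, rT br Dv x y = - rT br Dv y x := by
    intro x y
    rw [rT_apply, rT_apply, G.br_skew x y]; abel
  rw [h1, G.rT_I, h1 y x, smul_neg, neg_neg]

/-- the torsion as a complex bilinear map -/
def Geo.T {br Dv : V →ₗ[ℝ] V →ₗ[ℝ] V} (G : Geo br Dv) : V →ₗ[ℂ] V →ₗ[ℂ] V :=
  LinearMap.mk₂ ℂ (fun x y => rT br Dv x y)
    (by intro x x' y; rw [map_add, LinearMap.add_apply])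
    (by
      intro z x y
      exact map_smul_of_I ((rT br Dv).flip y) (fun x => G.rT_I x y) z x)
    (by intro x y y'; rw [map_add])
    (by
      intro z x y
      exact map_smul_of_I (rT br Dv x) (fun y => G.rT_I' x y) z y)

/-- the linear part of the bracket -/
def Geo.c {br Dv : V →ₗ[ℝ] V →ₗ[ℝ] V} (G : Geo br Dv) : V →ₗ[ℂ] V →ₗ[ℂ] V :=
  linPart Dv G.cplx - (linPart Dv G.cplx).flip - G.T

/-- the map `P` -/
def Geo.P {br Dv : V →ₗ[ℝ] V →ₗ[ℝ] V} (G : Geo br Dv) : V →ₗ[ℂ] V →ₗ[ℂ] V := linPart Dv G.cplx

omit [FiniteDimensional ℂ V] in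
lemma Geo.c_apply {br Dv : V →ₗ[ℝ] V →ₗ[ℝ] V} (G : Geo br Dv) (x y : V) :
    G.c x y = G.P x y - G.P y x - (Dv x y - Dv y x - br x y) := rfl

lemma Geo.D_eq' {br Dv : V →ₗ[ℝ] V →ₗ[ℝ] V} (G : Geo br Dv) (x y : V) :
    Dv x y = G.P x y - adj G.P x y := G.D_eq x y

lemma Geo.br_eq {br Dv : V →ₗ[ℝ] V →ₗ[ℝ] V} (G : Geo br Dv) (x y : V) :
    br x y = G.c x y + adj G.P y x - adj G.P x y := by
  rw [G.c_apply, G.D_eq' x y, G.D_eq' y x]
  abel

omit [FiniteDimensional ℂ V] in
lemma Geo.Tor_eq {br Dv : V →ₗ[ℝ] V →ₗ[ℝ] V} (G : Geo br Dv) (x y : V) :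
    Tor G.P G.c x y = rT br Dv x y := by
  rw [Tor_apply, G.c_apply, rT_apply]
  abel

omit [FiniteDimensional ℂ V] in
lemma split_zero (L A : V → V) (hL : ∀ x, L (Complex.I • x) = Complex.I • L x)
    (hA : ∀ x, A (Complex.I • x) = - (Complex.I • A x)) (h : ∀ x, L x + A x = 0) (x : V) :
    L x = 0 ∧ A x = 0 := by
  have h1 := h x
  have h2 := h (Complex.I • x)
  rw [hL, hA] at h2
  have h3 : Complex.I • (L x - A x) = 0 := by rw [← h2, smul_sub]; abel
  have h4 : L x - A x = 0 := (smul_eq_zero.mp h3).resolve_left Complex.I_ne_zero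
  have h5 : (2 : ℂ) • L x = 0 := by
    have : (2 : ℂ) • L x = (L x + A x) + (L x - A x) := by module
    rw [this, h1, h4, add_zero]
  have h6 : L x = 0 := (smul_eq_zero.mp h5).resolve_left two_ne_zero
  refine ⟨h6, ?_⟩
  rw [h6, zero_add] at h1
  exact h1

lemma adj_I (P : V →ₗ[ℂ] V →ₗ[ℂ] V) (x : V) : adj P (Complex.I • x) = - (Complex.I • adj P x) := by
  rw [adj_smul, Complex.conj_I, neg_smul]

section jacobi

variable {P c : V →ₗ[ℂ] V →ₗ[ℂ] V}

/-- the type decomposition of the Jacobi identity -/
lemma jacobi_split (hs : ∀ x y, c y x = - c x y)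
    (hJ : ∀ x y z,
      c x (c y z + adj P z y - adj P y z) + adj P (c y z + adj P z y - adj P y z) x
        - adj P x (c y z + adj P z y - adj P y z)
      = (c (c x y + adj P y x - adj P x y) z + adj P z (c x y + adj P y x - adj P x y)
        - adj P (c x y + adj P y x - adj P x y) z)
      + (c y (c x z + adj P z x - adj P x z) + adj P (c x z + adj P z x - adj P x z) y
        - adj P y (c x z + adj P z x - adj P x z))) (x y z : V) :
    (c x (c y z) = c (c x y) z + c y (c x z)) ∧
    (adj P z (c x y) = c x (adj P z y) + c (adj P z x) y - adj P (adj P y z) x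
      + adj P (adj P x z) y) ∧
    (adj P x (adj P y z) + adj P (c x y) z - adj P y (adj P x z) = 0) := by
  have h1 : ∀ y z x,
      (c x (c y z) - c (c x y) z - c y (c x z)
        + (c x (adj P z y) - adj P (adj P y z) x - adj P z (c x y) - c y (adj P z x)
          + adj P (adj P x z) y)
        + (- c x (adj P y z) + adj P (adj P z y) x - c (adj P y x) z - adj P (adj P x y) z
          + adj P y (c x z))
        + (adj P (c y z) x - adj P z (adj P y x) + adj P y (adj P z x)))
      + ((- adj P x (c y z) + c (adj P x y) z + adj P (adj P y x) z + c y (adj P x z)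
          - adj P (adj P z x) y)
        + (- adj P x (adj P z y) + adj P z (adj P x y) - adj P (c x z) y)
        + (adj P x (adj P y z) + adj P (c x y) z - adj P y (adj P x z))) = 0 := by
    intro y z x
    have := hJ x y z
    rw [← sub_eq_zero] at this
    rw [← this]
    simp only [map_add, map_sub, adj_add, adj_sub, LinearMap.add_apply, LinearMap.sub_apply]
    abel
  have h2 := fun y z => split_zero
    (fun x => (c x (c y z) - c (c x y) z - c y (c x z)
        + (c x (adj P z y) - adj P (adj P y z) x - adj P z (c x y) - c y (adj P z x)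
          + adj P (adj P x z) y)
        + (- c x (adj P y z) + adj P (adj P z y) x - c (adj P y x) z - adj P (adj P x y) z
          + adj P y (c x z))
        + (adj P (c y z) x - adj P z (adj P y x) + adj P y (adj P z x))))
    (fun x => ((- adj P x (c y z) + c (adj P x y) z + adj P (adj P y x) z + c y (adj P x z)
          - adj P (adj P z x) y)
        + (- adj P x (adj P z y) + adj P z (adj P x y) - adj P (c x z) y)
        + (adj P x (adj P y z) + adj P (c x y) z - adj P y (adj P x z))))
    (by intro x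
        simp only [map_smul, adj_I, LinearMap.smul_apply, LinearMap.neg_apply, map_neg, adj_neg,
          smul_neg, neg_neg]
        module)
    (by intro x
        simp only [map_smul, adj_I, LinearMap.smul_apply, LinearMap.neg_apply, map_neg, adj_neg,
          smul_neg, neg_neg]
        module)
    (h1 y z)
  have h3 : ∀ x z y,
      (c x (c y z) - c (c x y) z - c y (c x z)
        + (c x (adj P z y) - adj P (adj P y z) x - adj P z (c x y) - c y (adj P z x)
          + adj P (adj P x z) y))
      + ((- c x (adj P y z) + adj P (adj P z y) x - c (adj P y x) z - adj P (adj P x y) z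
          + adj P y (c x z))
        + (adj P (c y z) x - adj P z (adj P y x) + adj P y (adj P z x))) = 0 := by
    intro x z y
    rw [← (h2 y z x).1]
    abel
  have h4 : ∀ x z y, ((- adj P x (c y z) + c (adj P x y) z + adj P (adj P y x) z + c y (adj P x z)
          - adj P (adj P z x) y)
        + (- adj P x (adj P z y) + adj P z (adj P x y) - adj P (c x z) y))
        + (adj P x (adj P y z) + adj P (c x y) z - adj P y (adj P x z)) = 0 := by
    intro x z y
    rw [← (h2 y z x).2]
  have h5 := fun x z => split_zero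
    (fun y => (c x (c y z) - c (c x y) z - c y (c x z)
        + (c x (adj P z y) - adj P (adj P y z) x - adj P z (c x y) - c y (adj P z x)
          + adj P (adj P x z) y)))
    (fun y => ((- c x (adj P y z) + adj P (adj P z y) x - c (adj P y x) z - adj P (adj P x y) z
          + adj P y (c x z))
        + (adj P (c y z) x - adj P z (adj P y x) + adj P y (adj P z x))))
    (by intro y
        simp only [map_smul, adj_I, LinearMap.smul_apply, LinearMap.neg_apply, map_neg, adj_neg,
          smul_neg, neg_neg]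
        module)
    (by intro y
        simp only [map_smul, adj_I, LinearMap.smul_apply, LinearMap.neg_apply, map_neg, adj_neg,
          smul_neg, neg_neg]
        module)
    (h3 x z)
  have h6 := fun x z => split_zero
    (fun y => ((- adj P x (c y z) + c (adj P x y) z + adj P (adj P y x) z + c y (adj P x z)
          - adj P (adj P z x) y)
        + (- adj P x (adj P z y) + adj P z (adj P x y) - adj P (c x z) y)))
    (fun y => (adj P x (adj P y z) + adj P (c x y) z - adj P y (adj P x z)))
    (by intro y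
        simp only [map_smul, adj_I, LinearMap.smul_apply, LinearMap.neg_apply, map_neg, adj_neg,
          smul_neg, neg_neg]
        module)
    (by intro y
        simp only [map_smul, adj_I, LinearMap.smul_apply, LinearMap.neg_apply, map_neg, adj_neg,
          smul_neg, neg_neg]
        module)
    (h4 x z)
  have h7 := split_zero
    (fun z => c x (c y z) - c (c x y) z - c y (c x z))
    (fun z => c x (adj P z y) - adj P (adj P y z) x - adj P z (c x y) - c y (adj P z x)
          + adj P (adj P x z) y)
    (by intro z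
        simp only [map_smul, adj_I, LinearMap.smul_apply, LinearMap.neg_apply, map_neg, adj_neg,
          smul_neg, neg_neg]
        module)
    (by intro z
        simp only [map_smul, adj_I, LinearMap.smul_apply, LinearMap.neg_apply, map_neg, adj_neg,
          smul_neg, neg_neg]
        module)
    (fun z => (h5 x z y).1) z
  refine ⟨?_, ?_, (h6 x z y).2⟩
  · have := h7.1
    rw [← sub_eq_zero, ← this]
    abel
  · have := h7.2
    rw [← sub_eq_zero, ← neg_eq_zero, ← this, hs y (adj P z x)]
    abel

end jacobi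

end Pool.Agent.K1H64.LH
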