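import Pool.Agent.K1H64.LH.Main
import Pool.Agent.K1H64.LH.Idem

/-!
Two-step solvable Lie algebras.
-/

set_option autoImplicit false
set_option linter.unusedSimpArgs false

open Module
open scoped ComplexConjugate InnerProductSpace

noncomputable section

namespace Pool.Agent.K1H64.LH

variable {V : Type*} [NormedAddCommGroup V] [InnerProductSpace ℂ V] [FiniteDimensional ℂ V]
variable {br Dv : V →ₗ[ℝ] V →ₗ[ℝ] V}

/-- the largest complex subspace -/
def mm (𝔞 : Submodule ℝ V) : Submodule ℝ V where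
  carrier := {x | x ∈ 𝔞 ∧ Complex.I • x ∈ 𝔞}
  add_mem' := by
    rintro x y ⟨hx, hx'⟩ ⟨hy, hy'⟩
    exact ⟨𝔞.add_mem hx hy, by rw [smul_add]; exact 𝔞.add_mem hx' hy'⟩
  zero_mem' := ⟨𝔞.zero_mem, by rw [smul_zero]; exact 𝔞.zero_mem⟩
  smul_mem' := by
    rintro r x ⟨hx, hx'⟩
    refine ⟨𝔞.smul_mem r hx, ?_⟩
    rw [smul_comm]
    exact 𝔞.smul_mem r hx'

/-- an abelian ideal containing the derived algebra -/
structure AbId (br : V →ₗ[ℝ] V →ₗ[ℝ] V) (𝔞 : Submodule ℝ V) : Prop where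
  ab : ∀ x ∈ 𝔞, ∀ y ∈ 𝔞, br x y = 0
  der : ∀ x y, br x y ∈ 𝔞

variable {𝔞 : Submodule ℝ V}

omit [FiniteDimensional ℂ V] in
lemma mm_I {x : V} (hx : x ∈ mm 𝔞) : Complex.I • x ∈ mm 𝔞 := by
  refine ⟨hx.2, ?_⟩
  rw [I_smul_I_smul]
  exact 𝔞.neg_mem hx.1

omit [FiniteDimensional ℂ V] in
lemma mm_of_I {x : V} (hx : Complex.I • x ∈ mm 𝔞) : x ∈ mm 𝔞 := by
  have := mm_I hx
  rw [I_smul_I_smul] at this
  exact neg_neg x ▸ (mm 𝔞).neg_mem this

omit [FiniteDimensional ℂ V] in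
lemma s_mem (G : Geo br Dv) (h : AbId br 𝔞) {b y : V} (hb : b ∈ 𝔞) (hy : y ∈ 𝔞) :
    br (Complex.I • b) y - br (Complex.I • y) b ∈ mm 𝔞 := by
  refine ⟨𝔞.sub_mem (h.der _ _) (h.der _ _), ?_⟩
  have h1 := G.nij b y
  rw [h.ab b hb y hy, G.br_skew (Complex.I • y) b] at h1
  have h2 : Complex.I • (br (Complex.I • b) y - br (Complex.I • y) b)
      = br (Complex.I • b) (Complex.I • y) := by
    rw [← sub_eq_zero, ← h1, smul_sub, smul_neg]
    abel
  rw [h2]
  exact h.der _ _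

omit [FiniteDimensional ℂ V] in
lemma L_left {b y : V} (h : AbId br 𝔞) (hb : b ∈ mm 𝔞) (hy : y ∈ 𝔞) :
    br (Complex.I • b) y = 0 := h.ab _ hb.2 _ hy

omit [FiniteDimensional ℂ V] in
lemma L_right (G : Geo br Dv) (h : AbId br 𝔞) {b y : V} (hb : b ∈ 𝔞) (hy : y ∈ mm 𝔞) :
    br (Complex.I • b) y ∈ mm 𝔞 := by
  have h1 := s_mem G h hb hy.1
  rwa [L_left h hy hb, sub_zero] at h1

omit [FiniteDimensional ℂ V] in
lemma L_comm (G : Geo br Dv) (h : AbId br 𝔞) (b b' : V) {y : V} (hy : y ∈ 𝔞) :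
    br (Complex.I • b) (br (Complex.I • b') y) = br (Complex.I • b') (br (Complex.I • b) y) := by
  have h1 := G.jac (Complex.I • b) (Complex.I • b') y
  rw [h.ab _ (h.der _ _) y hy, zero_add] at h1
  exact h1

omit [FiniteDimensional ℂ V] in
lemma L_assoc (G : Geo br Dv) (h : AbId br 𝔞) {b w y : V} (hb : b ∈ 𝔞) (hw : w ∈ 𝔞) (hy : y ∈ 𝔞) :
    br (Complex.I • br (Complex.I • w) b) y - br (Complex.I • w) (br (Complex.I • b) y) ∈ mm 𝔞 := by
  have h1 := s_mem G h (h.der (Complex.I • w) b) hy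
  rw [L_comm G h y w hb] at h1
  have h2 := L_right G h hw (s_mem G h hy hb)
  rw [map_sub] at h2
  have h3 := (mm 𝔞).add_mem h1 h2
  have h4 : br (Complex.I • br (Complex.I • w) b) y - br (Complex.I • w) (br (Complex.I • y) b) +
      (br (Complex.I • w) (br (Complex.I • y) b) - br (Complex.I • w) (br (Complex.I • b) y))
      = br (Complex.I • br (Complex.I • w) b) y - br (Complex.I • w) (br (Complex.I • b) y) := by
    abel
  rwa [h4] at h3

omit [FiniteDimensional ℂ V] in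
lemma L_poly (G : Geo br Dv) (h : AbId br 𝔞) {w : V} (hw : w ∈ 𝔞) (p : Polynomial ℝ) :
    Polynomial.aeval (br (Complex.I • w) : Module.End ℝ V) p w ∈ 𝔞 ∧ ∀ y ∈ 𝔞,
    br (Complex.I • Polynomial.aeval (br (Complex.I • w) : Module.End ℝ V) p w) y
      - Polynomial.aeval (br (Complex.I • w) : Module.End ℝ V) (p * Polynomial.X) y ∈ mm 𝔞 := by
  set f : Module.End ℝ V := br (Complex.I • w) with hf
  have hfa : ∀ v ∈ 𝔞, f v ∈ 𝔞 := fun v _ => h.der _ _
  refine ⟨aeval_mem f 𝔞 hfa p w hw, ?_⟩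
  induction p using Polynomial.induction_on' with
  | add p q hp hq =>
    intro y hy
    have h1 := (mm 𝔞).add_mem (hp y hy) (hq y hy)
    have h2 : br (Complex.I • Polynomial.aeval f (p + q) w) y
        - Polynomial.aeval f ((p + q) * Polynomial.X) y
        = br (Complex.I • Polynomial.aeval f p w) y - Polynomial.aeval f (p * Polynomial.X) y +
          (br (Complex.I • Polynomial.aeval f q w) y - Polynomial.aeval f (q * Polynomial.X) y) := by
      rw [add_mul, map_add, map_add, LinearMap.add_apply, LinearMap.add_apply, smul_add, map_add,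
        LinearMap.add_apply]
      abel
    rw [h2]
    exact h1
  | monomial n a =>
    intro y hy
    have h1 : ∀ n : ℕ, br (Complex.I • (f ^ n) w) y - (f ^ (n + 1)) y ∈ mm 𝔞 := by
      intro n
      induction n with
      | zero =>
        rw [pow_zero, zero_add, pow_one, Module.End.one_apply, sub_self]
        exact (mm 𝔞).zero_mem
      | succ n ih =>
        have hn : (f ^ n) w ∈ 𝔞 := by
          have := aeval_mem f 𝔞 hfa (Polynomial.X ^ n) w hw
          rwa [map_pow, Polynomial.aeval_X] at this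
        have h2 := L_assoc G h hn hw hy
        have h3 := L_right G h hw ih
        have h4 := (mm 𝔞).add_mem h2 h3
        rw [map_sub] at h4
        have e1 : (f ^ (n + 1)) w = br (Complex.I • w) ((f ^ n) w) := by
          rw [pow_succ', Module.End.mul_apply]
        have e2 : (f ^ (n + 1 + 1)) y = br (Complex.I • w) ((f ^ (n + 1)) y) := by
          rw [pow_succ', Module.End.mul_apply]
        rw [e1, e2]
        have h5 : br (Complex.I • br (Complex.I • w) ((f ^ n) w)) y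
            - br (Complex.I • w) (br (Complex.I • (f ^ n) w) y)
            + (br (Complex.I • w) (br (Complex.I • (f ^ n) w) y)
            - br (Complex.I • w) ((f ^ (n + 1)) y))
            = br (Complex.I • br (Complex.I • w) ((f ^ n) w)) y
            - br (Complex.I • w) ((f ^ (n + 1)) y) := by abel
        rwa [h5] at h4
    have h2 := (mm 𝔞).smul_mem a (h1 n)
    have h3 : br (Complex.I • Polynomial.aeval f (Polynomial.monomial n a) w) y
        - Polynomial.aeval f (Polynomial.monomial n a * Polynomial.X) y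
        = a • (br (Complex.I • (f ^ n) w) y - (f ^ (n + 1)) y) := by
      rw [Polynomial.monomial_mul_X, Polynomial.aeval_monomial, Polynomial.aeval_monomial,
        Module.End.mul_apply, Module.End.mul_apply, Module.algebraMap_end_apply,
        Module.algebraMap_end_apply, smul_comm Complex.I a, map_smul, LinearMap.smul_apply,
        smul_sub]
    rw [h3]
    exact h2

/-- an element acting as an idempotent modulo `mm` -/
def Unit' (br : V →ₗ[ℝ] V →ₗ[ℝ] V) (𝔞 : Submodule ℝ V) (e : V) : Prop :=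
  e ∈ 𝔞 ∧ (∀ y ∈ 𝔞, br (Complex.I • e) (br (Complex.I • e) y) - br (Complex.I • e) y ∈ mm 𝔞) ∧
    br (Complex.I • e) e ∉ mm 𝔞

instance : FiniteDimensional ℝ V := Module.Finite.trans ℂ V

lemma exists_unit (G : Geo br Dv) (h : AbId br 𝔞) {w : V} (hw : w ∈ 𝔞)
    (hn : ¬ ∃ k : ℕ, ∀ v, ((br (Complex.I • w) : Module.End ℝ V) ^ k) v ∈ mm 𝔞) :
    ∃ e, Unit' br 𝔞 e := by
  have hSv : ∀ v ∈ mm 𝔞, (br (Complex.I • w) : Module.End ℝ V) v ∈ mm 𝔞 :=
    fun v hv => L_right G h hw hv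
  obtain ⟨p, hp, v₀, hv₀⟩ := exists_idem_poly (br (Complex.I • w) : Module.End ℝ V) (mm 𝔞) hSv hn
  set f : Module.End ℝ V := br (Complex.I • w) with hf
  obtain ⟨he, hey⟩ := L_poly G h hw p
  rw [← hf] at he hey
  set e := Polynomial.aeval f p w with hedef
  set g := Polynomial.aeval f (p * Polynomial.X) with hg
  have hgm : ∀ v ∈ mm 𝔞, g v ∈ mm 𝔞 := aeval_mem f (mm 𝔞) hSv _
  have hga : ∀ v, g v ∈ 𝔞 := by
    intro v
    have : g v = Polynomial.aeval f p (f v) := by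
      rw [hg, map_mul, Polynomial.aeval_X, Module.End.mul_apply]
    rw [this]
    exact aeval_mem f 𝔞 (fun v _ => h.der _ _) p _ (h.der _ _)
  have hidem : ∀ y ∈ 𝔞, br (Complex.I • e) (br (Complex.I • e) y) - br (Complex.I • e) y ∈ mm 𝔞 := by
    intro y hy
    have h1 := hey _ (h.der (Complex.I • e) y)
    have h2 := hgm _ (hey y hy)
    rw [map_sub] at h2
    have h3 := hp y
    have h4 := (mm 𝔞).neg_mem (hey y hy)
    have h5 := (mm 𝔞).add_mem (((mm 𝔞).add_mem ((mm 𝔞).add_mem h1 h2)) h3) h4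
    have h6 : br (Complex.I • e) (br (Complex.I • e) y) - g (br (Complex.I • e) y)
        + (g (br (Complex.I • e) y) - g (g y)) + (g (g y) - g y)
        + -(br (Complex.I • e) y - g y)
        = br (Complex.I • e) (br (Complex.I • e) y) - br (Complex.I • e) y := by abel
    rwa [h6] at h5
  refine ⟨e, he, hidem, ?_⟩
  intro hee
  -- then `L_e` vanishes modulo `mm`
  have h1 : ∀ y ∈ 𝔞, br (Complex.I • e) y ∈ mm 𝔞 := by
    intro y hy
    have h2 := L_assoc G h he he hy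
    rw [L_left h hee hy, zero_sub] at h2
    have h3 := (mm 𝔞).add_mem h2 (hidem y hy)
    have h4 : -br (Complex.I • e) (br (Complex.I • e) y)
        + (br (Complex.I • e) (br (Complex.I • e) y) - br (Complex.I • e) y)
        = - br (Complex.I • e) y := by abel
    rw [h4] at h3
    exact neg_neg (br (Complex.I • e) y) ▸ (mm 𝔞).neg_mem h3
  apply hv₀
  have h2 := (mm 𝔞).neg_mem (hey _ (hga v₀))
  have h3 := h1 _ (hga v₀)
  have h4 := (mm 𝔞).add_mem h2 h3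
  have h5 := hp v₀
  have h6 := (mm 𝔞).sub_mem h4 h5
  have h7 : -(br (Complex.I • e) (g v₀) - g (g v₀)) + br (Complex.I • e) (g v₀)
      - (g (g v₀) - g v₀) = g v₀ := by abel
  rwa [h7] at h6

/-- by unimodularity the largest complex subspace does not vanish -/
lemma mm_ne_bot (h : AbId br 𝔞) (htr : ∀ x, LinearMap.trace ℝ V (br x) = 0) {e : V}
    (he : Unit' br 𝔞 e) : ∃ E ∈ mm 𝔞, E ≠ 0 := by
  by_contra hcon
  push Not at hcon
  obtain ⟨he1, he2, he3⟩ := he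
  set F : Module.End ℝ V := br (Complex.I • e) with hF
  have h1 : ∀ y ∈ 𝔞, F (F y) = F y := fun y hy => sub_eq_zero.mp (hcon _ (he2 y hy))
  have h2 : F * F * (F * F) = F * F := by
    ext v
    simp only [Module.End.mul_apply]
    rw [h1 (F (F v)) (h.der _ _), h1 (F v) (h.der _ _)]
  have h3 : IsNilpotent (F - F * F) := by
    refine ⟨2, ?_⟩
    ext v
    rw [pow_two]
    simp only [Module.End.mul_apply, LinearMap.sub_apply, map_sub, LinearMap.zero_apply]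
    rw [h1 (F v) (h.der _ _), h1 (F v) (h.der _ _)]
    simp
  have h4 : LinearMap.trace ℝ V (F - F * F) = 0 :=
    (LinearMap.isNilpotent_trace_of_isNilpotent h3).eq_zero
  rw [map_sub, hF, htr, ← hF, zero_sub, neg_eq_zero] at h4
  have h5 : F * F = 0 := LinearMap.IsIdempotentElem.eq_zero_of_trace_eq_zero h2 h4
  apply he3
  have h6 : F (F e) = 0 := by
    have := LinearMap.congr_fun h5 e
    rwa [Module.End.mul_apply] at this
  rw [← h1 e he1, h6]
  exact (mm 𝔞).zero_mem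

omit [FiniteDimensional ℂ V] in
/-- complex span of a real subspace -/
lemma mem_span_iff (S : Submodule ℝ V) (v : V) :
    v ∈ Submodule.span ℂ (S : Set V) ↔ ∃ b ∈ S, ∃ b' ∈ S, v = b + Complex.I • b' := by
  constructor
  · intro hv
    induction hv using Submodule.span_induction with
    | mem x hx => exact ⟨x, hx, 0, S.zero_mem, by rw [smul_zero, add_zero]⟩
    | zero => exact ⟨0, S.zero_mem, 0, S.zero_mem, by rw [smul_zero, add_zero]⟩
    | add x y _ _ hx hy =>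
      obtain ⟨b, hb, b', hb', rfl⟩ := hx
      obtain ⟨d, hd, d', hd', rfl⟩ := hy
      exact ⟨b + d, S.add_mem hb hd, b' + d', S.add_mem hb' hd', by rw [smul_add]; abel⟩
    | smul z x _ hx =>
      obtain ⟨b, hb, b', hb', rfl⟩ := hx
      refine ⟨z.re • b - z.im • b', S.sub_mem (S.smul_mem _ hb) (S.smul_mem _ hb'),
        z.im • b + z.re • b', S.add_mem (S.smul_mem _ hb) (S.smul_mem _ hb'), ?_⟩
      rw [smul_split z (b + Complex.I • b'), smul_add Complex.I, I_smul_I_smul]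
      simp only [real_smul_eq]
      module
  · rintro ⟨b, hb, b', hb', rfl⟩
    exact Submodule.add_mem _ (Submodule.subset_span hb)
      (Submodule.smul_mem _ _ (Submodule.subset_span hb'))

/-- the complex span of the ideal -/
def V1 (𝔞 : Submodule ℝ V) : Submodule ℂ V := Submodule.span ℂ (𝔞 : Set V)

lemma adj_mem_V1 (G : Geo br Dv) (h : AbId br 𝔞) (x y : V) : adj G.P x y ∈ V1 𝔞 := by
  rw [G.A_eq]
  refine Submodule.neg_mem _ (Submodule.smul_mem _ _ (Submodule.add_mem _ ?_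
    (Submodule.smul_mem _ _ ?_)))
  · exact Submodule.subset_span (h.der _ _)
  · exact Submodule.subset_span (h.der _ _)

lemma P_orth (G : Geo br Dv) (h : AbId br 𝔞) {f : V} (hf : f ∈ (V1 𝔞)ᗮ) (x : V) :
    G.P x f = 0 := by
  refine ext_inner_right ℂ fun w => ?_
  rw [← inner_adj_right, inner_zero_left]
  rw [← inner_conj_symm, (Submodule.mem_orthogonal _ _).mp hf _ (adj_mem_V1 G h x w), map_zero]

lemma T1g (G : Geo br Dv) (hu : ∀ x, LinearMap.trace ℂ V (G.c x) = LinearMap.trace ℂ V (G.P x))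
    {ι : Type*} [Fintype ι] (e : OrthonormalBasis ι ℂ V) (x z : V) :
    ∑ k, ⟪e k, adj G.P (adj G.P (e k) z) x⟫_ℂ = LinearMap.trace ℂ V (G.P (adj G.P z x))
      + conj (LinearMap.trace ℂ V (G.P (adj G.P x z))) := by
  have h1 : ∀ k, ⟪e k, adj G.P z (G.c x (e k))⟫_ℂ = ⟪e k, G.c x (adj G.P z (e k))⟫_ℂ
      + ⟪e k, G.c (adj G.P z x) (e k)⟫_ℂ - ⟪e k, adj G.P (adj G.P (e k) z) x⟫_ℂ
      + ⟪e k, adj G.P (adj G.P x z) (e k)⟫_ℂ := by
    intro k
    rw [(G.jac_all _ _ _).2.1, inner_add_right, inner_sub_right, inner_add_right]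
  have h2 : ∑ k, ⟪e k, adj G.P z (G.c x (e k))⟫_ℂ = ∑ k, ⟪e k, G.c x (adj G.P z (e k))⟫_ℂ := by
    have a1 := LinearMap.trace_eq_sum_inner (adj G.P z ∘ₗ G.c x) e
    have a2 := LinearMap.trace_eq_sum_inner (G.c x ∘ₗ adj G.P z) e
    have a3 : LinearMap.trace ℂ V (adj G.P z ∘ₗ G.c x) = LinearMap.trace ℂ V (G.c x ∘ₗ adj G.P z) :=
      LinearMap.trace_mul_comm ℂ (adj G.P z) (G.c x)
    rw [a1, a2] at a3
    exact a3
  have h3 := LinearMap.trace_eq_sum_inner (G.c (adj G.P z x)) e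
  have h4 := LinearMap.trace_eq_sum_inner (adj G.P (adj G.P x z)) e
  rw [trace_adj] at h4
  rw [hu] at h3
  rw [h3, h4]
  have h6 : ∑ k, ⟪e k, adj G.P z (G.c x (e k))⟫_ℂ = ∑ k, (⟪e k, G.c x (adj G.P z (e k))⟫_ℂ
      + ⟪e k, G.c (adj G.P z x) (e k)⟫_ℂ - ⟪e k, adj G.P (adj G.P (e k) z) x⟫_ℂ
      + ⟪e k, adj G.P (adj G.P x z) (e k)⟫_ℂ) := Finset.sum_congr rfl fun k _ => h1 k
  rw [Finset.sum_add_distrib, Finset.sum_sub_distrib, Finset.sum_add_distrib, h2] at h6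
  linear_combination h6

lemma hs_norm (T : V →ₗ[ℂ] V) {ι : Type*} [Fintype ι] (e : OrthonormalBasis ι ℂ V) :
    ∑ k, ⟪T (e k), T (e k)⟫_ℂ
      = ∑ k, ⟪LinearMap.adjoint T (e k), LinearMap.adjoint T (e k)⟫_ℂ := by
  have h1 := LinearMap.trace_eq_sum_inner (LinearMap.adjoint T * T) e
  have h2 := LinearMap.trace_eq_sum_inner (T * LinearMap.adjoint T) e
  rw [LinearMap.trace_mul_comm] at h1
  rw [h2] at h1
  have h3 : ∀ k, ⟪e k, (LinearMap.adjoint T * T) (e k)⟫_ℂ = ⟪T (e k), T (e k)⟫_ℂ := by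
    intro k
    rw [Module.End.mul_apply, LinearMap.adjoint_inner_right]
  have h4 : ∀ k, ⟪e k, (T * LinearMap.adjoint T) (e k)⟫_ℂ
      = ⟪LinearMap.adjoint T (e k), LinearMap.adjoint T (e k)⟫_ℂ := by
    intro k
    rw [Module.End.mul_apply, LinearMap.adjoint_inner_left]
  rw [← Finset.sum_congr rfl fun k _ => h3 k, ← h1, Finset.sum_congr rfl fun k _ => h4 k]

lemma orth_kernel_core (G : Geo br Dv) (h : AbId br 𝔞)
    (hu : ∀ x, LinearMap.trace ℂ V (G.c x) = LinearMap.trace ℂ V (G.P x)) {f : V}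
    (hf : f ∈ (V1 𝔞)ᗮ) (h6 : adj G.P f f = 0)
    (hs : 0 ≤ (∑ k, KK (QQ G.P) f (stdOrthonormalBasis ℂ V k)).re) (x : V) :
    adj G.P x f = 0 := by
  have hP := P_orth G h hf
  let e := stdOrthonormalBasis ℂ V
  have hK2 : ∀ k, KK (QQ G.P) f (e k) = (- ⟪adj G.P f (e k), adj G.P f (e k)⟫_ℂ
      + ⟪G.P f (e k), G.P f (e k)⟫_ℂ) - ⟪adj G.P (e k) f, adj G.P (e k) f⟫_ℂ
      - conj (⟪e k, adj G.P (adj G.P (e k) f) f⟫_ℂ) - ⟪e k, adj G.P (adj G.P (e k) f) f⟫_ℂ := by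
    intro k
    rw [KK, QQ_eq, QQ_eq, QQ_eq, QQ_eq, h6, map_zero, hP, hP]
    simp only [LinearMap.zero_apply, inner_zero_left, inner_zero_right, hP, map_zero, sub_zero,
      add_zero, zero_sub, neg_zero, zero_add, map_smul]
    rw [← inner_adj_left (P := G.P) (adj G.P (e k) f) f (e k),
      ← inner_adj_right (P := G.P) (e k) (adj G.P (e k) f) f, inner_conj_symm]
    ring
  have h7 : ∑ k, KK (QQ G.P) f (e k) = - ∑ k, ((‖adj G.P (e k) f‖ ^ 2 : ℝ) : ℂ) := by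
    rw [Finset.sum_congr rfl fun k _ => hK2 k, Finset.sum_sub_distrib, Finset.sum_sub_distrib,
      Finset.sum_sub_distrib, Finset.sum_add_distrib, Finset.sum_neg_distrib, ← map_sum,
      T1g G hu e f f, h6]
    have h8 : ∑ k, ⟪adj G.P f (e k), adj G.P f (e k)⟫_ℂ = ∑ k, ⟪G.P f (e k), G.P f (e k)⟫_ℂ :=
      (hs_norm (G.P f) e).symm
    simp only [map_zero, add_zero, sub_zero]
    rw [h8, neg_add_cancel, zero_sub]
    simp only [inner_self_sq]
  have h9 : ∑ k, ‖adj G.P (e k) f‖ ^ 2 = 0 := by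
    have h10 : (∑ k, KK (QQ G.P) f (e k)).re = - ∑ k, ‖adj G.P (e k) f‖ ^ 2 := by
      rw [h7, ← Complex.ofReal_sum, ← Complex.ofReal_neg, Complex.ofReal_re]
    have h11 : 0 ≤ ∑ k, ‖adj G.P (e k) f‖ ^ 2 := Finset.sum_nonneg fun k _ => sq_nonneg _
    change 0 ≤ (∑ k, KK (QQ G.P) f (e k)).re at hs
    rw [h10] at hs
    linarith
  rw [Finset.sum_eq_zero_iff_of_nonneg (fun k _ => sq_nonneg _)] at h9
  conv_lhs => rw [← e.sum_repr' x]
  rw [adj_sum, LinearMap.sum_apply]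
  refine Finset.sum_eq_zero fun k _ => ?_
  have h10 := h9 k (Finset.mem_univ k)
  rw [sq_eq_zero_iff, norm_eq_zero] at h10
  rw [adj_smul, LinearMap.smul_apply, h10, smul_zero]

/-- directions orthogonal to the ideal are in the joint kernel, if the curvature is constant -/
lemma orth_kernel (G : Geo br Dv) (h : AbId br 𝔞)
    (hu : ∀ x, LinearMap.trace ℂ V (G.c x) = LinearMap.trace ℂ V (G.P x)) {a : ℝ} (ha : 0 ≤ a)
    (hH : ∀ x, QQ G.P x x x x = (a : ℂ) * ((‖x‖ ^ 2 : ℝ) : ℂ) ^ 2) {f : V}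
    (hf : f ∈ (V1 𝔞)ᗮ) (x : V) : adj G.P x f = 0 := by
  by_cases hf0 : f = 0
  · rw [hf0, map_zero]
  have hP := P_orth G h hf
  have h1 : QQ G.P f f f f = - ((‖adj G.P f f‖ ^ 2 : ℝ) : ℂ) := by
    rw [QQ_eq]
    simp only [hP, inner_zero_right, inner_zero_left, inner_self_sq]
    ring
  have h2 := hH f
  rw [h1] at h2
  have h3 : - ‖adj G.P f f‖ ^ 2 = a * (‖f‖ ^ 2) ^ 2 := by exact_mod_cast h2
  have h4 : 0 < ‖f‖ := norm_pos_iff.mpr hf0
  have h5 : a = 0 := by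
    by_contra hne
    have : 0 < a := lt_of_le_of_ne ha (Ne.symm hne)
    have h6 : 0 < a * (‖f‖ ^ 2) ^ 2 := by positivity
    have := sq_nonneg ‖adj G.P f f‖
    linarith
  rw [h5, zero_mul] at h3
  have h6 : adj G.P f f = 0 := by
    have : ‖adj G.P f f‖ ^ 2 = 0 := by linarith
    exact norm_eq_zero.mp (pow_eq_zero_iff two_ne_zero |>.mp this)
  refine orth_kernel_core G h hu hf h6 ?_ x
  have hK : ∀ k, KK (QQ G.P) f (stdOrthonormalBasis ℂ V k) = 0 := by
    intro k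
    rw [(quart_QQ G.P).polar (a : ℂ) hH, h5, Complex.ofReal_zero]
    ring
  rw [Finset.sum_eq_zero fun k _ => hK k, Complex.zero_re]

/-- the same for the Riemannian curvature -/
lemma orth_kernel_riem (G : Geo br Dv) (h : AbId br 𝔞)
    (hu : ∀ x, LinearMap.trace ℂ V (G.c x) = LinearMap.trace ℂ V (G.P x))
    (T : V →ₗ[ℂ] V →ₗ[ℂ] V) {a : ℝ} (ha : 0 ≤ a)
    (hH : ∀ x, FF G.P T x x x x = (a : ℂ) * ((‖x‖ ^ 2 : ℝ) : ℂ) ^ 2) {f : V}
    (hf : f ∈ (V1 𝔞)ᗮ) (x : V) : adj G.P x f = 0 := by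
  by_cases hf0 : f = 0
  · rw [hf0, map_zero]
  have hP := P_orth G h hf
  have h1 : QQ G.P f f f f = - ((‖adj G.P f f‖ ^ 2 : ℝ) : ℂ) := by
    rw [QQ_eq]
    simp only [hP, inner_zero_right, inner_zero_left, inner_self_sq]
    ring
  have h2 := hH f
  rw [FF, h1, inner_self_sq] at h2
  have h3 : 2 * (- ‖adj G.P f f‖ ^ 2) - ‖adj T f f‖ ^ 2 = a * (‖f‖ ^ 2) ^ 2 := by
    exact_mod_cast h2
  have h4 : 0 < ‖f‖ := norm_pos_iff.mpr hf0
  have hs1 := sq_nonneg ‖adj G.P f f‖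
  have hs2 := sq_nonneg ‖adj T f f‖
  have h5 : a = 0 := by
    by_contra hne
    have : 0 < a := lt_of_le_of_ne ha (Ne.symm hne)
    have h6 : 0 < a * (‖f‖ ^ 2) ^ 2 := by positivity
    linarith
  rw [h5, zero_mul] at h3
  have h6 : adj G.P f f = 0 := by
    have : ‖adj G.P f f‖ ^ 2 = 0 := by linarith
    exact norm_eq_zero.mp (pow_eq_zero_iff two_ne_zero |>.mp this)
  have h7 : adj T f f = 0 := by
    have : ‖adj T f f‖ ^ 2 = 0 := by linarith
    exact norm_eq_zero.mp (pow_eq_zero_iff two_ne_zero |>.mp this)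
  refine orth_kernel_core G h hu hf h6 ?_ x
  have hK : ∀ y, 2 * KK (QQ G.P) f y = ((‖adj T f y‖ ^ 2 + ‖adj T y f‖ ^ 2 : ℝ) : ℂ) := by
    intro y
    have h8 := (quart_FF G.P T).polar (a : ℂ) hH f y
    rw [h5, Complex.ofReal_zero, mul_zero, zero_mul] at h8
    simp only [KK, FF, h7, inner_zero_left, inner_zero_right, inner_self_sq] at h8
    rw [KK]
    push_cast at h8 ⊢
    linear_combination h8
  have hK2 : ∀ y, 0 ≤ (KK (QQ G.P) f y).re := by
    intro y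
    have h9 := congrArg Complex.re (hK y)
    rw [Complex.ofReal_re] at h9
    have h10 : (2 * KK (QQ G.P) f y).re = 2 * (KK (QQ G.P) f y).re := by simp
    rw [h10] at h9
    have h11 := sq_nonneg ‖adj T f y‖
    have h12 := sq_nonneg ‖adj T y f‖
    linarith
  rw [Complex.re_sum]
  exact Finset.sum_nonneg fun k _ => hK2 _

/-- the kernel of the idempotent modulo `mm` -/
def hR (br : V →ₗ[ℝ] V →ₗ[ℝ] V) (𝔞 : Submodule ℝ V) (e : V) : Submodule ℝ V where
  carrier := {b | b ∈ 𝔞 ∧ br (Complex.I • e) b ∈ mm 𝔞}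
  add_mem' := by
    rintro x y ⟨hx, hx'⟩ ⟨hy, hy'⟩
    exact ⟨𝔞.add_mem hx hy, by rw [map_add]; exact (mm 𝔞).add_mem hx' hy'⟩
  zero_mem' := ⟨𝔞.zero_mem, by rw [map_zero]; exact (mm 𝔞).zero_mem⟩
  smul_mem' := by
    rintro r x ⟨hx, hx'⟩
    refine ⟨𝔞.smul_mem r hx, ?_⟩
    rw [map_smul]
    exact (mm 𝔞).smul_mem r hx'

lemma adj_real (G : Geo br Dv) (h : AbId br 𝔞) {b y : V} (hb : b ∈ 𝔞) (hy : y ∈ 𝔞) :
    adj G.P b y = (-(Complex.I / 2)) • br (Complex.I • b) y := by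
  rw [G.A_eq, h.ab b hb y hy, zero_add]
  module

lemma neg_vector (G : Geo br Dv) (h : AbId br 𝔞) {e : V} (he : Unit' br 𝔞 e)
    (hK : ∀ z ∈ (V1 𝔞)ᗮ, ∀ x, adj G.P x z = 0) :
    ∃ x : V, x ≠ 0 ∧ ∃ q : V, QQ G.P x x x x = - ((‖q‖ ^ 2 : ℝ) : ℂ) - (1 / 2 : ℂ) * ((‖x‖ ^ 2 : ℝ) : ℂ) := by
  obtain ⟨he1, he2, he3⟩ := he
  let H : Submodule ℂ V := Submodule.span ℂ (hR br 𝔞 e : Set V)
  have hHV : H ≤ V1 𝔞 := Submodule.span_mono fun b hb => hb.1
  have F1 : ∀ b ∈ hR br 𝔞 e, ∀ y ∈ 𝔞, br (Complex.I • b) y ∈ hR br 𝔞 e := by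
    intro b hb y hy
    refine ⟨h.der _ _, ?_⟩
    have h1 := L_right G h he1 (s_mem G h hb.1 hy)
    have h2 := L_right G h hy hb.2
    rw [L_comm G h y e hb.1] at h2
    rw [map_sub] at h1
    have h3 := (mm 𝔞).add_mem h1 h2
    rwa [sub_add_cancel] at h3
  have F2 : ∀ u ∈ H, ∀ v ∈ V1 𝔞, adj G.P u v ∈ H := by
    intro u hu v hv
    obtain ⟨b, hb, b', hb', rfl⟩ := (mem_span_iff _ _).mp hu
    obtain ⟨y, hy, y', hy', rfl⟩ := (mem_span_iff _ _).mp hv
    have h1 : ∀ b ∈ hR br 𝔞 e, ∀ y ∈ 𝔞, adj G.P b y ∈ H := by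
      intro b hb y hy
      rw [adj_real G h hb.1 hy]
      exact H.smul_mem _ (Submodule.subset_span (F1 b hb y hy))
    rw [adj_add, adj_I, LinearMap.add_apply, LinearMap.neg_apply, LinearMap.smul_apply, map_add,
      map_add, map_smul, map_smul]
    exact H.add_mem (H.add_mem (h1 b hb y hy) (H.smul_mem _ (h1 b hb y' hy')))
      (H.neg_mem (H.smul_mem _ (H.add_mem (h1 b' hb' y hy) (H.smul_mem _ (h1 b' hb' y' hy')))))
  have F3 : ∀ v ∈ V1 𝔞, adj G.P e v + (Complex.I / 2) • v ∈ H := by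
    intro v hv
    obtain ⟨y, hy, y', hy', rfl⟩ := (mem_span_iff _ _).mp hv
    have h1 : ∀ y ∈ 𝔞, adj G.P e y + (Complex.I / 2) • y ∈ H := by
      intro y hy
      rw [adj_real G h he1 hy]
      have h2 : (-(Complex.I / 2)) • br (Complex.I • e) y + (Complex.I / 2) • y
          = (-(Complex.I / 2)) • (br (Complex.I • e) y - y) := by module
      rw [h2]
      refine H.smul_mem _ (Submodule.subset_span ⟨𝔞.sub_mem (h.der _ _) hy, ?_⟩)
      rw [map_sub]
      exact he2 y hy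
    have h2 : adj G.P e (y + Complex.I • y') + (Complex.I / 2) • (y + Complex.I • y')
        = (adj G.P e y + (Complex.I / 2) • y)
          + Complex.I • (adj G.P e y' + (Complex.I / 2) • y') := by
      rw [map_add, map_smul]
      module
    rw [h2]
    exact H.add_mem (h1 y hy) (H.smul_mem _ (h1 y' hy'))
  obtain ⟨h0, hh0, x, hx, hex⟩ := H.exists_add_mem_mem_orthogonal e
  have heV : e ∈ V1 𝔞 := Submodule.subset_span he1
  have hxe : x = e - h0 := by rw [hex]; abel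
  have hxV : x ∈ V1 𝔞 := by rw [hxe]; exact (V1 𝔞).sub_mem heV (hHV hh0)
  have hx0 : x ≠ 0 := by
    intro hx0
    rw [hx0, add_zero] at hex
    rw [← hex] at hh0
    obtain ⟨b, hb, b', hb', hbb⟩ := (mem_span_iff _ _).mp hh0
    apply he3
    have h1 : Complex.I • b' = e - b := by rw [hbb]; abel
    have h2 : b' ∈ mm 𝔞 := ⟨hb'.1, by rw [h1]; exact 𝔞.sub_mem he1 hb.1⟩
    have h3 : br (Complex.I • e) e = br (Complex.I • e) b + br (Complex.I • e) (Complex.I • b') := by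
      rw [← map_add, ← hbb]
    rw [h3]
    exact (mm 𝔞).add_mem hb.2 (L_right G h he1 (mm_I h2))
  have hxo : ∀ u ∈ H, ⟪x, u⟫_ℂ = 0 := fun u hu => by
    rw [← inner_conj_symm, (Submodule.mem_orthogonal _ _).mp hx u hu, map_zero]
  have hAx : ∀ v ∈ V1 𝔞, adj G.P x v + (Complex.I / 2) • v ∈ H := by
    intro v hv
    have h1 : adj G.P x v + (Complex.I / 2) • v
        = (adj G.P e v + (Complex.I / 2) • v) - adj G.P h0 v := by
      rw [hxe, adj_sub, LinearMap.sub_apply]; abel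
    rw [h1]
    exact H.sub_mem (F3 v hv) (F2 h0 hh0 v hv)
  have hPx : G.P x x = (Complex.I / 2) • x := by
    refine ext_inner_right ℂ fun w => ?_
    obtain ⟨w1, hw1, w2, hw2, rfl⟩ := (V1 𝔞).exists_add_mem_mem_orthogonal w
    rw [← inner_adj_right, map_add, hK w2 hw2, add_zero, inner_smul_left, inner_add_right,
      (Submodule.mem_orthogonal _ _).mp hw2 x hxV, add_zero]
    have h1 := hxo _ (hAx w1 hw1)
    rw [inner_add_right, inner_smul_right] at h1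
    have h2 : conj (Complex.I / 2) = - (Complex.I / 2) := by
      rw [map_div₀, Complex.conj_I, map_ofNat]
      ring
    rw [h2]
    linear_combination h1
  obtain ⟨q, hq⟩ : ∃ q, q = adj G.P x x + (Complex.I / 2) • x := ⟨_, rfl⟩
  have hqH : q ∈ H := by rw [hq]; exact hAx x hxV
  have hAxx : adj G.P x x = q - (Complex.I / 2) • x := by rw [hq]; abel
  have hI : Complex.I ^ 2 = -1 := Complex.I_sq
  have h2 : conj (Complex.I / 2) = - (Complex.I / 2) := by
    rw [map_div₀, Complex.conj_I, map_ofNat]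
    ring
  have k1 : ⟪x, q⟫_ℂ = 0 := hxo q hqH
  have k2 : ⟪q, x⟫_ℂ = 0 := by rw [← inner_conj_symm, k1, map_zero]
  have k3 : ⟪G.P q x, x⟫_ℂ = 0 := by
    rw [← inner_adj_right]
    exact hxo _ (F2 q hqH x hxV)
  have k4 : ⟪x, G.P q x⟫_ℂ = 0 := by rw [← inner_conj_symm, k3, map_zero]
  refine ⟨x, hx0, q, ?_⟩
  rw [QQ_eq, hAxx, map_sub, map_smul, LinearMap.sub_apply, LinearMap.smul_apply, hPx]
  simp only [inner_sub_left, inner_sub_right, inner_smul_left, inner_smul_right, h2, k1, k2, k3,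
    k4, ← inner_self_sq]
  linear_combination ((1 / 2 : ℂ) * ⟪x, x⟫_ℂ) * hI

/-- the Ricci condition holds automatically in the two-step solvable case -/
theorem twostep_nilpotent (G : Geo br Dv) (h : AbId br 𝔞)
    (htr : ∀ x, LinearMap.trace ℝ V (br x) = 0) {a : ℝ}
    (hH : ∀ x, QQ G.P x x x x = (a : ℂ) * ((‖x‖ ^ 2 : ℝ) : ℂ) ^ 2) {w : V} (hw : w ∈ 𝔞) :
    ∃ k : ℕ, ∀ v, ((br (Complex.I • w) : Module.End ℝ V) ^ k) v ∈ mm 𝔞 := by
  by_contra hn
  obtain ⟨e, he⟩ := exists_unit G h hw hn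
  obtain ⟨E, hE, hE0⟩ := mm_ne_bot h htr he
  have hu := G.uni htr
  have ha : 0 ≤ a := by
    have h1 : adj G.P E E = 0 := by
      rw [adj_real G h hE.1 hE.1, L_left h hE hE.1, smul_zero]
    have h2 : QQ G.P E E E E = ((‖G.P E E‖ ^ 2 : ℝ) : ℂ) := by
      rw [QQ_eq, h1]
      simp [inner_self_sq]
    rw [hH E] at h2
    have h3 : a * (‖E‖ ^ 2) ^ 2 = ‖G.P E E‖ ^ 2 := by exact_mod_cast h2
    have h4 : 0 < ‖E‖ := norm_pos_iff.mpr hE0
    by_contra hlt
    push Not at hlt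
    have : a * (‖E‖ ^ 2) ^ 2 < 0 := mul_neg_of_neg_of_pos hlt (by positivity)
    have := sq_nonneg ‖G.P E E‖
    linarith
  obtain ⟨x, hx0, q, hq⟩ := neg_vector G h he (fun z hz x => orth_kernel G h hu ha hH hz x)
  rw [hH x] at hq
  have h3 : a * (‖x‖ ^ 2) ^ 2 = - ‖q‖ ^ 2 - 1 / 2 * ‖x‖ ^ 2 := by
    have : ((a * (‖x‖ ^ 2) ^ 2 : ℝ) : ℂ) = ((- ‖q‖ ^ 2 - 1 / 2 * ‖x‖ ^ 2 : ℝ) : ℂ) := by
      push_cast at hq ⊢
      exact hq
    exact_mod_cast this
  have h4 : 0 < ‖x‖ := norm_pos_iff.mpr hx0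
  have h5 : 0 ≤ a * (‖x‖ ^ 2) ^ 2 := by positivity
  have h6 : 0 < ‖x‖ ^ 2 := by positivity
  have h7 := sq_nonneg ‖q‖
  linarith

/-- the same for the Riemannian curvature, if it is nonnegative -/
theorem twostep_nilpotent_riem (G : Geo br Dv) (h : AbId br 𝔞)
    (htr : ∀ x, LinearMap.trace ℝ V (br x) = 0) (T : V →ₗ[ℂ] V →ₗ[ℂ] V) {a : ℝ} (ha : 0 ≤ a)
    (hH : ∀ x, FF G.P T x x x x = (a : ℂ) * ((‖x‖ ^ 2 : ℝ) : ℂ) ^ 2) {w : V} (hw : w ∈ 𝔞) :
    ∃ k : ℕ, ∀ v, ((br (Complex.I • w) : Module.End ℝ V) ^ k) v ∈ mm 𝔞 := by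
  by_contra hn
  obtain ⟨e, he⟩ := exists_unit G h hw hn
  have hu := G.uni htr
  obtain ⟨x, hx0, q, hq⟩ := neg_vector G h he
    (fun z hz x => orth_kernel_riem G h hu T ha hH hz x)
  have h2 := hH x
  rw [FF, hq, inner_self_sq] at h2
  have h3 : 2 * (- ‖q‖ ^ 2 - 1 / 2 * ‖x‖ ^ 2) - ‖adj T x x‖ ^ 2 = a * (‖x‖ ^ 2) ^ 2 := by
    have : ((2 * (- ‖q‖ ^ 2 - 1 / 2 * ‖x‖ ^ 2) - ‖adj T x x‖ ^ 2 : ℝ) : ℂ)
        = ((a * (‖x‖ ^ 2) ^ 2 : ℝ) : ℂ) := by
      push_cast at h2 ⊢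
      exact h2
    exact_mod_cast this
  have h4 : 0 < ‖x‖ := norm_pos_iff.mpr hx0
  have h5 : 0 ≤ a * (‖x‖ ^ 2) ^ 2 := by positivity
  have h6 : 0 < ‖x‖ ^ 2 := by positivity
  have h7 := sq_nonneg ‖q‖
  have h8 := sq_nonneg ‖adj T x x‖
  linarith

end Pool.Agent.K1H64.LH
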