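import Pool.Agent.K1H64.LH.TwoStep

/-!
Two-step solvable Lie algebras: the main theorem.
-/

set_option autoImplicit false
set_option linter.unusedSimpArgs false

open Module
open scoped ComplexConjugate InnerProductSpace

noncomputable section

namespace Pool.Agent.K1H64.LH

universe u

section V

variable {V : Type*} [NormedAddCommGroup V] [InnerProductSpace ℂ V] [FiniteDimensional ℂ V]
variable {br Dv : V →ₗ[ℝ] V →ₗ[ℝ] V} {𝔞 : Submodule ℝ V}

/-- multiplication by `i` -/
def JV (V : Type*) [NormedAddCommGroup V] [InnerProductSpace ℂ V] : V →ₗ[ℝ] V :=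
  (Complex.I • (LinearMap.id : V →ₗ[ℂ] V)).restrictScalars ℝ

omit [FiniteDimensional ℂ V] in
lemma JV_apply (v : V) : JV V v = Complex.I • v := rfl

omit [FiniteDimensional ℂ V] in
lemma JV_nilpotent (G : Geo br Dv) (h : AbId br 𝔞) {w : V} (hw : w ∈ 𝔞)
    (hn : ∃ k : ℕ, ∀ v, ((br (Complex.I • w) : Module.End ℝ V) ^ k) v ∈ mm 𝔞) :
    IsNilpotent (JV V ∘ₗ br w : Module.End ℝ V) := by
  obtain ⟨K, hK⟩ := hn
  set T : Module.End ℝ V := JV V ∘ₗ br w with hT
  have hTv : ∀ v, T v = Complex.I • br w v := fun v => rfl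
  set f : Module.End ℝ V := br (Complex.I • w) with hf
  have hT0 : ∀ y ∈ 𝔞, T y = 0 := fun y hy => by rw [hTv, h.ab w hw y hy, smul_zero]
  have hfk : ∀ (k : ℕ), ∀ b ∈ 𝔞, (f ^ k) b ∈ 𝔞 := by
    intro k b hb
    induction k with
    | zero => simpa using hb
    | succ k ih => rw [pow_succ', Module.End.mul_apply]; exact h.der _ _
  have hstep : ∀ b ∈ 𝔞, ∃ z ∈ 𝔞, T (Complex.I • b) = - (Complex.I • f b) + z := by
    intro b hb
    have hs := s_mem G h hw hb
    refine ⟨Complex.I • (br (Complex.I • w) b - br (Complex.I • b) w), hs.2, ?_⟩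
    rw [hTv, G.br_skew (Complex.I • b) w, hf, smul_neg, smul_sub]
    abel
  have hk : ∀ (k : ℕ), ∀ b ∈ 𝔞, ∃ z ∈ 𝔞,
      (T ^ k) (Complex.I • b) = (-1 : ℝ) ^ k • (Complex.I • (f ^ k) b) + z := by
    intro k b hb
    induction k with
    | zero => exact ⟨0, 𝔞.zero_mem, by simp⟩
    | succ k ih =>
      obtain ⟨z, hz, hzz⟩ := ih
      obtain ⟨z', hz', hzz'⟩ := hstep _ (hfk k b hb)
      refine ⟨(-1 : ℝ) ^ k • z', 𝔞.smul_mem _ hz', ?_⟩
      rw [pow_succ', Module.End.mul_apply, hzz, map_add, hT0 z hz, add_zero, map_smul, hzz',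
        pow_succ', pow_succ' f, Module.End.mul_apply]
      module
  refine ⟨K + 1 + 1, ?_⟩
  ext v
  rw [pow_succ, Module.End.mul_apply, pow_succ', Module.End.mul_apply, hTv v, LinearMap.zero_apply]
  obtain ⟨z, hz, hzz⟩ := hk K _ (h.der w v)
  rw [hzz]
  refine hT0 _ (𝔞.add_mem (𝔞.smul_mem _ ?_) hz)
  exact (hK _).2

theorem twostep_ric (G : Geo br Dv) (h : AbId br 𝔞)
    (htr : ∀ x, LinearMap.trace ℝ V (br x) = 0) {a : ℝ}
    (hH : ∀ x, QQ G.P x x x x = (a : ℂ) * ((‖x‖ ^ 2 : ℝ) : ℂ) ^ 2) (v w : V) :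
    (LinearMap.trace ℂ V (G.P (br v w))).im = 0 := by
  have h1 := JV_nilpotent G h (h.der v w) (twostep_nilpotent G h htr hH (h.der v w))
  have h2 := (LinearMap.isNilpotent_trace_of_isNilpotent h1).eq_zero
  rw [G.trace_Jbr (JV V) JV_apply, G.uni htr, Complex.sub_im, Complex.conj_im] at h2
  linarith

lemma twostep_chain (G : Geo br Dv) (h : AbId br 𝔞) : Chain G.c := by
  let M : Submodule ℂ V :=
    { carrier := {v | v ∈ mm 𝔞}
      add_mem' := fun ha hb => (mm 𝔞).add_mem ha hb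
      zero_mem' := (mm 𝔞).zero_mem
      smul_mem' := by
        intro z v hv
        change z • v ∈ mm 𝔞
        rw [smul_split]
        exact (mm 𝔞).add_mem ((mm 𝔞).smul_mem _ hv) ((mm 𝔞).smul_mem _ (mm_I hv)) }
  refine ⟨2, fun k => if k = 0 then ⊤ else if k = 1 then M else ⊥, by simp, ?_, by simp⟩
  intro k x hx y hy
  rcases k with _ | _ | k
  · simp only [zero_add, one_ne_zero, if_false, if_true]
    change G.c x y ∈ mm 𝔞
    have h1 : ∀ x y, br x y - br (Complex.I • x) (Complex.I • y) ∈ mm 𝔞 := by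
      intro x y
      refine ⟨𝔞.sub_mem (h.der _ _) (h.der _ _), ?_⟩
      have h2 : Complex.I • (br x y - br (Complex.I • x) (Complex.I • y))
          = br (Complex.I • x) y + br x (Complex.I • y) := by
        have h3 := G.nij x y
        have h4 : Complex.I • (br x y - br (Complex.I • x) (Complex.I • y)
          + Complex.I • br (Complex.I • x) y + Complex.I • br x (Complex.I • y)) = 0 := by
          rw [h3, smul_zero]
        rw [smul_add, smul_add, I_smul_I_smul, I_smul_I_smul] at h4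
        rw [← sub_eq_zero, ← h4]
        abel
      rw [h2]
      exact 𝔞.add_mem (h.der _ _) (h.der _ _)
    rw [G.c_eq]
    have h5 : (1 / 2 : ℂ) • (br x y - br (Complex.I • x) (Complex.I • y))
        = (1 / 2 : ℝ) • (br x y - br (Complex.I • x) (Complex.I • y)) := by
      rw [real_smul_eq]; norm_num
    rw [h5]
    exact (mm 𝔞).smul_mem _ (h1 x y)
  · simp only [zero_add, one_ne_zero, if_false, if_true] at hx hy
    change x ∈ mm 𝔞 at hx
    change y ∈ mm 𝔞 at hy
    rw [G.c_eq, h.ab x hx.1 y hy.1, h.ab _ hx.2 _ hy.2, sub_self, smul_zero]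
    exact zero_mem _
  · simp only [Nat.add_eq_zero_iff, one_ne_zero, and_false, if_false, Nat.add_eq_right,
      Submodule.mem_bot] at hx
    rw [hx, map_zero, LinearMap.zero_apply]
    exact zero_mem _

end V

section g

variable {g : Type u} [LieRing g] [LieAlgebra ℝ g] [FiniteDimensional ℝ g]
variable {J : g →ₗ[ℝ] g} {B : g →ₗ[ℝ] g →ₗ[ℝ] ℝ}

/-- **Q1 for two-step solvable groups.** -/
theorem twostep_main [Nontrivial g] (H : LieHermitian J B) (hu : Unimodular g)
    (h2 : ∀ x y z w : g, ⁅⁅x, y⁆, ⁅z, w⁆⁆ = 0)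
    {D : g →ₗ[ℝ] g →ₗ[ℝ] g} (hD : IsChern J B D) {c : ℝ} (hc : ConstantHSC J B D c) :
    c = 0 ∧ Flat D := by
  have G := geo H hD
  have hnt : Nontrivial (VV H) := (phi H).symm.toEquiv.nontrivial
  let 𝔞 : Submodule ℝ (VV H) := Submodule.span ℝ {v | ∃ x y, v = mbr H x y}
  have hab : AbId (mbr H) 𝔞 := by
    refine ⟨?_, fun x y => Submodule.subset_span ⟨x, y, rfl⟩⟩
    intro x hx y hy
    induction hx using Submodule.span_induction with
    | zero => rw [map_zero, LinearMap.zero_apply]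
    | add a b _ _ ha hb => rw [map_add, LinearMap.add_apply, ha, hb, add_zero]
    | smul t a _ ha => rw [map_smul, LinearMap.smul_apply, ha, smul_zero]
    | mem x hx =>
      obtain ⟨a, b, rfl⟩ := hx
      induction hy using Submodule.span_induction with
      | zero => rw [map_zero]
      | add a b _ _ ha hb => rw [map_add, ha, hb, add_zero]
      | smul t a _ ha => rw [map_smul, ha, smul_zero]
      | mem y hy =>
        obtain ⟨p, q, rfl⟩ := hy
        obtain ⟨a, rfl⟩ := (phi H).surjective a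
        obtain ⟨b, rfl⟩ := (phi H).surjective b
        obtain ⟨p, rfl⟩ := (phi H).surjective p
        obtain ⟨q, rfl⟩ := (phi H).surjective q
        rw [mbr_phi, mbr_phi, mbr_phi, h2, map_zero]
  have h1 : ∀ x, QQ G.P x x x x = ((c / 2 : ℝ) : ℂ) * ((‖x‖ ^ 2 : ℝ) : ℂ) ^ 2 := by
    intro x
    have h3 := G.hsc_eq x
    rw [hsc_phi H D hc x] at h3
    push_cast at h3 ⊢
    linear_combination (-1 / 2 : ℂ) * h3
  obtain ⟨h4, h5⟩ := G.q1 (uni_phi H hu) (twostep_ric G hab (uni_phi H hu) h1)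
    (twostep_chain G hab) (hsc_phi H D hc)
  refine ⟨h4, fun x y z => ?_⟩
  have h6 := h5 (phi H x) (phi H y) (phi H z)
  rw [curv_phi] at h6
  exact (LinearEquiv.map_eq_zero_iff _).mp h6

end g

end Pool.Agent.K1H64.LH
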