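import Pool.Agent.K1H64.LH.TwoStepMain

/-!
Two-step solvable Lie algebras: the Riemannian case.
-/

set_option autoImplicit false
set_option linter.unusedSimpArgs false

open Module
open scoped ComplexConjugate InnerProductSpace

noncomputable section

namespace Pool.Agent.K1H64.LH

universe u

section V

variable {V : Type*} [NormedAddCommGroup V] [InnerProductSpace ℂ V] [FiniteDimensional ℂ V]
variable {br Dv : V →ₗ[ℝ] V →ₗ[ℝ] V} {𝔞 : Submodule ℝ V}

theorem Brk.q2pre (G : Brk br) {D' : V →ₗ[ℝ] V →ₗ[ℝ] V} (hD : LCV br D')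
    {u : V} (hu0 : u ≠ 0) (hu : ∀ x y, (⟪br u x, y⟫_ℂ).re + (⟪x, br u y⟫_ℂ).re = 0) {a : ℝ}
    (hH : ∀ x, (⟪curvV br D' x (Complex.I • x) (Complex.I • x), x⟫_ℂ).re = a * (‖x‖ ^ 2) ^ 2) :
    0 ≤ a ∧ ∀ x, FF G.geo.P (Tor G.geo.P G.geo.c) x x x x
      = (a : ℂ) * ((‖x‖ ^ 2 : ℝ) : ℂ) ^ 2 := by
  have ha : 0 ≤ a := by
    have h1 := skew_curv hD G.skew hu (Complex.I • u)
    rw [hH u] at h1
    have h2 : 0 < ‖u‖ := norm_pos_iff.mpr hu0
    by_contra hlt
    push Not at hlt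
    have h3 : a * (‖u‖ ^ 2) ^ 2 < 0 := mul_neg_of_neg_of_pos hlt (by positivity)
    have := sq_nonneg ‖D' (Complex.I • u) u‖
    linarith
  have hD2 : D' = lcMap G.D (Tor G.geo.P G.geo.c) := by
    ext x y
    exact lc_unique hD G.geo.lc x y
  refine ⟨ha, fun x => ?_⟩
  rw [← G.geo.hsc_lc x, ← hD2, hH x]
  push_cast
  ring

theorem twostep_ric_riem (G : Geo br Dv) (h : AbId br 𝔞)
    (htr : ∀ x, LinearMap.trace ℝ V (br x) = 0) {a : ℝ} (ha : 0 ≤ a)
    (hH : ∀ x, FF G.P (Tor G.P G.c) x x x x = (a : ℂ) * ((‖x‖ ^ 2 : ℝ) : ℂ) ^ 2) (v w : V) :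
    (LinearMap.trace ℂ V (G.P (br v w))).im = 0 := by
  have h1 := JV_nilpotent G h (h.der v w)
    (twostep_nilpotent_riem G h htr (Tor G.P G.c) ha hH (h.der v w))
  have h2 := (LinearMap.isNilpotent_trace_of_isNilpotent h1).eq_zero
  rw [G.trace_Jbr (JV V) JV_apply, G.uni htr, Complex.sub_im, Complex.conj_im] at h2
  linarith

end V

section g

variable {g : Type u} [LieRing g] [LieAlgebra ℝ g] [FiniteDimensional ℝ g]
variable {J : g →ₗ[ℝ] g} {B : g →ₗ[ℝ] g →ₗ[ℝ] ℝ}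

lemma abId_phi (H : LieHermitian J B) (h2 : ∀ x y z w : g, ⁅⁅x, y⁆, ⁅z, w⁆⁆ = 0) :
    AbId (mbr H) (Submodule.span ℝ {v | ∃ x y, v = mbr H x y}) := by
  refine ⟨?_, fun x y => Submodule.subset_span ⟨x, y, rfl⟩⟩
  intro x hx y hy
  induction hx using Submodule.span_induction with
  | zero => rw [map_zero, LinearMap.zero_apply]
  | add a b _ _ ha hb => rw [map_add, LinearMap.add_apply, ha, hb, add_zero]
  | smul t a _ ha => rw [map_smul, LinearMap.smul_apply, ha, smul_zero]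
  | mem x hx =>
    obtain ⟨a, b, rfl⟩ := hx
    induction hy using Submodule.span_induction with
    | zero => rw [map_zero]
    | add a b _ _ ha hb => rw [map_add, ha, hb, add_zero]
    | smul t a _ ha => rw [map_smul, ha, smul_zero]
    | mem y hy =>
      obtain ⟨p, q, rfl⟩ := hy
      obtain ⟨a, rfl⟩ := (phi H).surjective a
      obtain ⟨b, rfl⟩ := (phi H).surjective b
      obtain ⟨p, rfl⟩ := (phi H).surjective p
      obtain ⟨q, rfl⟩ := (phi H).surjective q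
      rw [mbr_phi, mbr_phi, mbr_phi, h2, map_zero]

/-- **Q2 with a skew element.** -/
theorem riem_skew (H : LieHermitian J B) (hu : Unimodular g)
    (hr : (∀ x y z w : g, ⁅⁅x, y⁆, ⁅z, w⁆⁆ = 0) ∨ ChernRicciFlat J ∨ TypeI g)
    {D : g →ₗ[ℝ] g →ₗ[ℝ] g} (hD : IsLeviCivita B D) {u : g} (hu0 : u ≠ 0)
    (hsk : ∀ x y, B ⁅u, x⁆ y + B x ⁅u, y⁆ = 0) {c : ℝ} (hc : ConstantHSC J B D c) :
    c = 0 ∧ Flat D ∧ ∀ x y, D x (J y) = J (D x y) := by
  have hu0' : phi H u ≠ 0 := by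
    intro h
    exact hu0 ((LinearEquiv.map_eq_zero_iff _).mp h)
  have hsk' : ∀ x y, (⟪mbr H (phi H u) x, y⟫_ℂ).re + (⟪x, mbr H (phi H u) y⟫_ℂ).re = 0 := by
    intro v w
    obtain ⟨x, rfl⟩ := (phi H).surjective v
    obtain ⟨y, rfl⟩ := (phi H).surjective w
    rw [mbr_phi, mbr_phi, re_phi, re_phi, hsk]
  have h1 : RicV H (brk H).geo := by
    rcases hr with hr | hr | hr
    · obtain ⟨h3, h4⟩ := (brk H).q2pre (lcv H hD) hu0' hsk' (hsc_phi H D hc)
      exact twostep_ric_riem (brk H).geo (abId_phi H hr) (uni_phi H hu) h3 h4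
    · exact ric_of_flat H hu hr _
    · exact ric_of_typeI H hr _
  obtain ⟨h2, h3, h4, h5, h6⟩ := (brk H).q2 (lcv H hD) (uni_phi H hu) h1 hu0' hsk' (hsc_phi H D hc)
  refine ⟨h2, fun x y z => ?_, fun x y => ?_⟩
  · have h7 := h3 (phi H x) (phi H y) (phi H z)
    rw [curv_phi] at h7
    exact (LinearEquiv.map_eq_zero_iff _).mp h7
  · apply (phi H).injective
    have h7 := h4 (phi H x) (phi H y)
    rw [I_phi, conj2_phi, conj2_phi, I_phi] at h7
    exact h7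

end g

end Pool.Agent.K1H64.LH
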