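import Pool.Agent.K1H64.LH.Exist

/-!
Solvable Lie algebras: eigenvalues of a sum `T + S` with `S` in the derived algebra, and the
vanishing of the Chern-Ricci curvature if all eigenvalues of the adjoint action are imaginary.
-/

set_option autoImplicit false
set_option linter.unusedSimpArgs false

open Module TensorProduct
open scoped ComplexConjugate InnerProductSpace

noncomputable section

namespace Pool.Agent.K1H64.LH

universe u v

lemma lie_char_zero {L : Type v} [LieRing L] [LieAlgebra ℂ L] {M : Type u} [AddCommGroup M]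
    [Module ℂ M] [LieRingModule L M] [LieModule ℂ L M] (χ : Module.Dual ℂ L) {v : M} (hv0 : v ≠ 0)
    (hv : ∀ x : L, ⁅x, v⁆ = χ x • v) (S : L) (hS : S ∈ LieAlgebra.derivedSeries ℂ L 1) :
    χ S = 0 := by
  rw [LieAlgebra.derivedSeries_def, LieAlgebra.derivedSeriesOfIdeal_succ,
    ← LieSubmodule.mem_toSubmodule, LieSubmodule.lieIdeal_oper_eq_linear_span'] at hS
  induction hS using Submodule.span_induction with
  | mem x hx =>
    obtain ⟨a, -, b, -, rfl⟩ := hx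
    have h1 := hv ⁅a, b⁆
    rw [lie_lie, hv, hv, lie_smul, lie_smul, hv, hv, smul_smul, smul_smul, mul_comm, sub_self] at h1
    exact (smul_eq_zero.mp h1.symm).resolve_right hv0
  | zero => exact map_zero χ
  | add a b _ _ ha hb => rw [map_add, ha, hb, add_zero]
  | smul t a _ ha => rw [map_smul, ha, smul_zero]

/-- adding an element of the derived algebra creates no new eigenvalues -/
theorem eig_add {L : Type v} [LieRing L] [LieAlgebra ℂ L] [LieAlgebra.IsSolvable L] (T S : L)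
    (hS : S ∈ LieAlgebra.derivedSeries ℂ L 1) (ν : ℂ) : ∀ (n : ℕ) (M : Type u) [AddCommGroup M]
    [Module ℂ M] [LieRingModule L M] [LieModule ℂ L M] [FiniteDimensional ℂ M],
    Module.finrank ℂ M = n → (∃ m : M, m ≠ 0 ∧ ⁅T + S, m⁆ = ν • m) →
      ∃ m : M, m ≠ 0 ∧ ⁅T, m⁆ = ν • m := by
  intro n
  induction n using Nat.strong_induction_on with
  | _ n ih =>
  intro M _ _ _ _ _ hn ⟨m, hm0, hm⟩
  have hnt : Nontrivial M := ⟨m, 0, hm0⟩
  obtain ⟨χ, hχ⟩ := LieModule.exists_nontrivial_weightSpace_of_isSolvable ℂ L M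
  obtain ⟨⟨v, hv⟩, hv0⟩ := exists_ne (0 : LieModule.weightSpace M χ)
  rw [LieModule.mem_weightSpace] at hv
  have hv1 : v ≠ 0 := fun hh => hv0 (Subtype.ext hh)
  have hχS := lie_char_zero χ hv1 hv S hS
  let N : LieSubmodule ℂ L M := { Submodule.span ℂ {v} with
    lie_mem := by
      intro x w hw
      change w ∈ Submodule.span ℂ {v} at hw
      change ⁅x, w⁆ ∈ Submodule.span ℂ {v}
      rw [Submodule.mem_span_singleton] at hw ⊢
      obtain ⟨a, rfl⟩ := hw
      exact ⟨a * χ x, by rw [lie_smul, hv, smul_smul]⟩ }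
  have hN : ∀ w, w ∈ N ↔ w ∈ Submodule.span ℂ {v} := fun w => Iff.rfl
  by_cases hmN : m ∈ N
  · rw [hN, Submodule.mem_span_singleton] at hmN
    obtain ⟨a, rfl⟩ := hmN
    refine ⟨a • v, hm0, ?_⟩
    rw [← hm, add_lie, lie_smul a S v, hv S, hχS, zero_smul, smul_zero, add_zero]
  · have hlt : Module.finrank ℂ (M ⧸ N) < n := by
      have h1 := Submodule.finrank_quotient_add_finrank (Submodule.span ℂ {v})
      rw [finrank_span_singleton hv1, hn] at h1
      have h2 : Module.finrank ℂ (M ⧸ N) = Module.finrank ℂ (M ⧸ Submodule.span ℂ {v}) := rfl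
      rw [h2]
      omega
    have hfin : FiniteDimensional ℂ (M ⧸ N) :=
      inferInstanceAs (FiniteDimensional ℂ (M ⧸ Submodule.span ℂ {v}))
    obtain ⟨q, hq0, hq⟩ := ih _ hlt (M ⧸ N) rfl ⟨LieSubmodule.Quotient.mk m,
      (by rw [Ne, LieSubmodule.Quotient.mk_eq_zero']; exact hmN),
      (by
        have h1 : (LieSubmodule.Quotient.mk' N) ⁅T + S, m⁆ = ⁅T + S, (LieSubmodule.Quotient.mk' N) m⁆ :=
          LieModuleHom.map_lie _ _ _
        have h2 : (LieSubmodule.Quotient.mk' N) (ν • m) = ν • (LieSubmodule.Quotient.mk' N) m :=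
          map_smul _ _ _
        rw [hm, h2] at h1
        exact h1.symm)⟩
    by_contra hcon
    push Not at hcon
    -- `T - ν` is injective, hence surjective on `M`
    have hinj : Function.Injective (LieModule.toEnd ℂ L M T - ν • (LinearMap.id : M →ₗ[ℂ] M)) := by
      rw [injective_iff_map_eq_zero]
      intro w hw
      by_contra hw0
      refine hcon w hw0 ?_
      rw [LinearMap.sub_apply, LinearMap.smul_apply, LinearMap.id_apply, LieModule.toEnd_apply_apply,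
        sub_eq_zero] at hw
      exact hw
    have hsurj := LinearMap.injective_iff_surjective.mp hinj
    have hsurj2 : Function.Surjective
        (LieModule.toEnd ℂ L (M ⧸ N) T - ν • (LinearMap.id : (M ⧸ N) →ₗ[ℂ] (M ⧸ N))) := by
      intro q
      obtain ⟨w, rfl⟩ := LieSubmodule.Quotient.surjective_mk' N q
      obtain ⟨w', hw'⟩ := hsurj w
      refine ⟨LieSubmodule.Quotient.mk' N w', ?_⟩
      rw [← hw']
      rfl
    have hinj2 := LinearMap.injective_iff_surjective.mpr hsurj2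
    apply hq0
    apply hinj2
    rw [map_zero, LinearMap.sub_apply, LinearMap.smul_apply, LinearMap.id_apply,
      LieModule.toEnd_apply_apply, hq, sub_self]

variable {g : Type*} [LieRing g] [LieAlgebra ℝ g] [FiniteDimensional ℝ g]

omit [FiniteDimensional ℝ g] in
lemma tmul_mem_derived (w : g) (hw : w ∈ LieAlgebra.derivedSeries ℝ g 1) :
    (1 : ℂ) ⊗ₜ[ℝ] w ∈ LieAlgebra.derivedSeries ℂ (ℂ ⊗[ℝ] g) 1 := by
  rw [LieAlgebra.derivedSeries_def, LieAlgebra.derivedSeriesOfIdeal_succ,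
    ← LieSubmodule.mem_toSubmodule, LieSubmodule.lieIdeal_oper_eq_linear_span'] at hw
  induction hw using Submodule.span_induction with
  | mem x hx =>
    obtain ⟨a, -, b, -, rfl⟩ := hx
    have h1 : (1 : ℂ) ⊗ₜ[ℝ] ⁅a, b⁆ = ⁅(1 : ℂ) ⊗ₜ[ℝ] a, (1 : ℂ) ⊗ₜ[ℝ] b⁆ := by
      rw [LieAlgebra.ExtendScalars.bracket_tmul, one_mul]
    rw [h1, LieAlgebra.derivedSeries_def, LieAlgebra.derivedSeriesOfIdeal_succ]
    exact LieSubmodule.lie_mem_lie (LieSubmodule.mem_top _) (LieSubmodule.mem_top _)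
  | zero => rw [tmul_zero]; exact LieSubmodule.zero_mem _
  | add a b _ _ ha hb => rw [tmul_add]; exact add_mem ha hb
  | smul t a _ ha =>
    have : (1 : ℂ) ⊗ₜ[ℝ] (t • a) = (t : ℂ) • ((1 : ℂ) ⊗ₜ[ℝ] a) := by
      rw [tmul_smul, TensorProduct.smul_tmul', TensorProduct.smul_tmul']
      simp
    rw [this]
    exact Submodule.smul_mem (LieAlgebra.derivedSeries ℂ (ℂ ⊗[ℝ] g) 1).toSubmodule _ ha

/-- eigenvalues of `w + i y` on the complexification -/
lemma eig_complex [LieAlgebra.IsSolvable g] (w y : g) (hw : w ∈ LieAlgebra.derivedSeries ℝ g 1)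
    (hy : ∀ z : ℂ, Module.End.HasEigenvalue ((LieAlgebra.ad ℝ g y).baseChange ℂ) z → z.re = 0)
    (ν : ℂ) (m : ℂ ⊗[ℝ] g) (hm0 : m ≠ 0)
    (hm : ⁅(1 : ℂ) ⊗ₜ[ℝ] w + Complex.I ⊗ₜ[ℝ] y, m⁆ = ν • m) : ν.im = 0 := by
  obtain ⟨m', hm'0, hm'⟩ := eig_add (Complex.I ⊗ₜ[ℝ] y) ((1 : ℂ) ⊗ₜ[ℝ] w) (tmul_mem_derived w hw) ν
    _ (ℂ ⊗[ℝ] g) rfl ⟨m, hm0, by rw [add_comm]; exact hm⟩
  have h1 : (Complex.I ⊗ₜ[ℝ] y : ℂ ⊗[ℝ] g) = Complex.I • ((1 : ℂ) ⊗ₜ[ℝ] y) := by
    rw [TensorProduct.smul_tmul', smul_eq_mul, mul_one]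
  have h1' : ⁅(Complex.I ⊗ₜ[ℝ] y : ℂ ⊗[ℝ] g), m'⁆ = Complex.I • ⁅(1 : ℂ) ⊗ₜ[ℝ] y, m'⁆ := by
    rw [h1]
    have h6 := smul_lie (R := ℂ) (L := ℂ ⊗[ℝ] g) (M := ℂ ⊗[ℝ] g) Complex.I ((1 : ℂ) ⊗ₜ[ℝ] y) m'
    exact h6
  rw [h1'] at hm'
  have h2 : ⁅(1 : ℂ) ⊗ₜ[ℝ] y, m'⁆ = (-Complex.I * ν) • m' := by
    rw [mul_smul, ← hm', smul_smul, neg_mul, Complex.I_mul_I, neg_neg, one_smul]
  have h3 : ((LieAlgebra.ad ℝ g y).baseChange ℂ) m' = (-Complex.I * ν) • m' := by
    rw [← h2]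
    have := LieModule.toEnd_baseChange (R := ℝ) (A := ℂ) (L := g) (M := g) y
    change ((LieModule.toEnd ℝ g g y).baseChange ℂ) m' = _
    rw [← this]
    rfl
  have h4 : Module.End.HasEigenvalue ((LieAlgebra.ad ℝ g y).baseChange ℂ) (-Complex.I * ν) :=
    Module.End.hasEigenvalue_of_hasEigenvector ⟨Module.End.mem_eigenspace_iff.mpr h3, hm'0⟩
  have h5 := hy _ h4
  simpa using h5

end Pool.Agent.K1H64.LH
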